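import Pool.Agent.J4.H26.Fn.Most
import Pool.Agent.J4.H26.FinalF

/-!
The exceptional entries belong to the divisor `gcd (level K) m` of the degree; degrees whose small
prime factors are good.
-/

set_option autoImplicit false

namespace Pool.Agent.J4.H26.Fn

open Finset Complex Pool.Agent.H916R2 Pool.Agent.J4.H26 Pool.Agent.Y2.Cv

/-- a sum over a generated multiset vanishes -/
lemma Generated.sum_zero {m : ℕ} [NeZero m] {base : Multiset (ZMod m) → Prop} {Q : Type}
    [AddCommGroup Q] {c : ZMod m → Q} (hc : OddDist c) (hbase : ∀ s, base s → (s.map c).sum = 0)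
    {s : Multiset (ZMod m)} (h : Generated m base s) : (s.map c).sum = 0 := by
  induction h with
  | ofBase s hs => exact hbase s hs
  | pair a ha =>
    simp only [Multiset.insert_eq_cons, Multiset.map_cons, Multiset.map_singleton,
      Multiset.sum_cons, Multiset.sum_singleton]
    rw [hc.neg, add_neg_cancel]
  | standard p hp hp2 hpm a ha =>
    have h1 := hc.dist p (m / p) hp (Nat.mul_div_cancel' hpm) a
    rw [Multiset.map_cons, Multiset.sum_cons, Multiset.map_map, hc.neg]
    have h2 : ((Multiset.range p).map (c ∘ fun i : ℕ => a + (i : ZMod m) * ((m / p : ℕ) : ZMod m))).sum =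
        ∑ i ∈ range p, c (a + (i : ZMod m) * ((m / p : ℕ) : ZMod m)) := rfl
    rw [h2, ← h1, neg_add_cancel]
  | standardTwo hm a ha =>
    have h1 := hc.dist 2 (m / 2) Nat.prime_two (Nat.mul_div_cancel' hm) a
    rw [sum_range_succ, sum_range_one, Nat.cast_zero, zero_mul, add_zero, Nat.cast_one,
      one_mul] at h1
    push_cast at h1
    have h3 : c ((m / 2 : ℕ) : ZMod m) = 0 := by
      apply hc.half
      have : ((2 * (m / 2) : ℕ) : ZMod m) = 0 := by rw [Nat.mul_div_cancel' hm]; simp
      rw [← two_mul]; push_cast at this; exact this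
    simp only [Multiset.insert_eq_cons, Multiset.map_cons, Multiset.map_singleton,
      Multiset.sum_cons, Multiset.sum_singleton]
    rw [h3, hc.neg, ← h1]
    abel
  | join s t hs ht ihs iht => rw [Multiset.map_add, Multiset.sum_add, ihs, iht, add_zero]
  | cancel a s h ih =>
    rw [Multiset.map_cons, Multiset.map_cons, Multiset.sum_cons, Multiset.sum_cons, hc.neg,
      ← add_assoc, add_neg_cancel, zero_add] at ih
    exact ih

/-- the entries of bounded order form, after adding the half if necessary, a Hodge character of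
degree `gcd (level K) m` -/
theorem Str.character {K n m : ℕ} [NeZero m] [NeZero (factor K * m)] {b : Fin n → ZMod m}
    (hb : IsHodge m (entries b)) {J R : Finset (Fin n)} {root : Fin n → Fin n}
    (hs : Str (M := factor K * m) K (fun i => (iota (factor K) (b i) : ZMod (factor K * m))) J R root) :
    ∃ v : Multiset (ZMod (Nat.gcd (level K) m)), IsHodge _ v ∧ Multiset.card v ≤ J.card + 1 ∧
      ∀ (Q : Type) [AddCommGroup Q] (c : ZMod (factor K * m) → Q), OddDist c →
        ((v.map (iota (factor K * m / Nat.gcd (level K) m) :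
          ZMod (Nat.gcd (level K) m) → ZMod (factor K * m))).map c).sum = 0 →
        (((entries b).map (iota (factor K) : ZMod m → ZMod (factor K * m))).map c).sum = 0 := by
  classical
  set κ := factor K with hκ
  set M := κ * m with hM
  set g := Nat.gcd (level K) m with hg
  have hκ0 : 0 < κ := factor_pos K
  have hgm : g ∣ m := Nat.gcd_dvd_right _ _
  have hg0 : NeZero g := ⟨(Nat.gcd_pos_of_pos_left _ (level_pos K)).ne'⟩
  have hmg : m / g * g = m := Nat.div_mul_cancel hgm
  have hgM : M / g * g = M := Nat.div_mul_cancel (hgm.mul_left κ)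
  have hMg : M / g = κ * (m / g) := by
    rw [hM]; exact Nat.mul_div_assoc κ hgm
  set a : Fin n → ZMod M := fun i => iota κ (b i) with ha
  have hw : ∀ i ∈ J, ∃ w : ZMod g, b i = iota (m / g) w :=
    fun i hi => eq_iota_of_dvd hgm (hs.small_down hi)
  choose! w hw using hw
  have haw : ∀ i ∈ J, a i = iota (M / g) (w i) := by
    intro i hi
    rw [ha]
    simp only
    rw [hw i hi, iota_comp hM.symm, hMg]
  set v : Multiset (ZMod g) := J.val.map w with hv
  have hb0 : ∀ i, b i ≠ 0 := by
    intro i h
    apply hb.1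
    rw [← h]
    exact Multiset.mem_map_of_mem b (mem_univ i)
  have hv0 : (0 : ZMod g) ∉ v := by
    intro h
    rw [hv, Multiset.mem_map] at h
    obtain ⟨i, hi, hi0⟩ := h
    apply hb0 i
    rw [hw i hi, hi0, iota_zero]
  have hrel : ∀ t : (ZMod M)ˣ, ∑ i, saw ((t : ZMod M) * a i) = 0 := by
    intro t
    have h1 := (hb.iota (m := M) (k := κ) hM.symm).saw_sum t
    unfold entries at h1
    rw [Multiset.map_map, Multiset.map_map] at h1
    exact h1
  have hvsaw : ∀ t : (ZMod g)ˣ, (v.map fun x => saw ((t : ZMod g) * x)).sum = 0 := by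
    intro t
    obtain ⟨τ, hτ⟩ := ZMod.unitsMap_surjective (hgm.mul_left κ : g ∣ M) t
    have h1 := sum_sdiff (f := fun i => saw ((τ : ZMod M) * a i)) (subset_univ J)
    rw [hrel τ, hs.sum (saw_oddDist τ), zero_add] at h1
    have h2 : ∑ i ∈ J, saw ((τ : ZMod M) * a i) =
        ((M / g : ℕ) : ℤ) * ∑ i ∈ J, saw ((t : ZMod g) * w i) := by
      rw [mul_sum]
      refine sum_congr rfl fun i hi => ?_
      rw [haw i hi, unit_iota hgM, saw_iota hgM]
      rw [show (ZMod.unitsMap (Dvd.intro_left (M / g) hgM : g ∣ M) τ : (ZMod g)ˣ) = t from hτ]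
    rw [h2] at h1
    have h3 : ((M / g : ℕ) : ℤ) ≠ 0 := by
      have : M / g ≠ 0 := by
        intro h
        rw [h, zero_mul] at hgM
        exact NeZero.ne M hgM.symm
      exact_mod_cast this
    rcases mul_eq_zero.mp h1 with h4 | h4
    · exact absurd h4 h3
    · rw [hv, sum_univ_val]; exact h4
  have hvcard : Multiset.card v = J.card := by
    rw [hv, Multiset.card_map]; rfl
  have hvmap : v.map (iota (M / g) : ZMod g → ZMod M) = J.val.map a := by
    rw [hv, Multiset.map_map]
    apply Multiset.map_congr rfl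
    intro i hi
    exact (haw i hi).symm
  have hfin : ∀ (Q : Type) [AddCommGroup Q] (c : ZMod M → Q), OddDist c →
      ((v.map (iota (M / g) : ZMod g → ZMod M)).map c).sum = 0 →
      (((entries b).map (iota κ : ZMod m → ZMod M)).map c).sum = 0 := by
    intro Q _ c hc h
    rw [hvmap, sum_univ_val] at h
    unfold entries
    rw [Multiset.map_map, sum_univ_val]
    have h1 := sum_sdiff (f := fun i => c (a i)) (subset_univ J)
    rw [h, hs.sum hc, add_zero] at h1
    exact h1.symm
  by_cases hev : Even (Multiset.card v)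
  · exact ⟨v, isHodge_of_saw hv0 hev hvsaw, by omega, hfin⟩
  · have hodd := Nat.not_even_iff_odd.mp hev
    have hg2 : 2 ∣ g := by
      have h1 := saw_sum_eq v hv0 1
      rw [hvsaw 1] at h1
      obtain ⟨k, hk⟩ := hodd
      have h2 : (g : ℤ) * (2 * k + 1) =
          2 * (((v.map fun a => (((1 : (ZMod g)ˣ) : ZMod g) * a).val).sum : ℕ) : ℤ) := by
        rw [hk] at h1
        push_cast at h1
        push_cast
        linarith
      have h3 : (2 : ℤ) ∣ (g : ℤ) * (2 * k + 1) := ⟨_, h2⟩
      have h4 : (2 : ℤ) ∣ (g : ℤ) := by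
        rcases Int.Prime.dvd_mul' Nat.prime_two h3 with h | h
        · exact_mod_cast h
        · exfalso; omega
      exact_mod_cast h4
    set h : ZMod g := ((g / 2 : ℕ) : ZMod g) with hh
    have hhh : h + h = 0 := by
      have : ((2 * (g / 2) : ℕ) : ZMod g) = 0 := by rw [Nat.mul_div_cancel' hg2]; simp
      rw [hh, ← two_mul]; push_cast at this; exact this
    have hh0 : h ≠ 0 := by
      intro h'
      rw [hh, ZMod.natCast_eq_zero_iff] at h'
      have hmp := NeZero.pos g
      have h5 : 0 < g / 2 := Nat.div_pos (Nat.le_of_dvd hmp hg2) (by norm_num)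
      have := Nat.le_of_dvd h5 h'
      omega
    refine ⟨h ::ₘ v, isHodge_of_saw ?_ ?_ ?_, ?_, ?_⟩
    · rw [Multiset.mem_cons, not_or]; exact ⟨Ne.symm hh0, hv0⟩
    · rw [Multiset.card_cons]; exact hodd.add_one
    · intro t
      rw [Multiset.map_cons, Multiset.sum_cons, hvsaw t, add_zero]
      apply saw_half
      rw [← mul_add, hhh, mul_zero]
    · rw [Multiset.card_cons]; omega
    · intro Q _ c hc h2
      apply hfin Q c hc
      rw [Multiset.map_cons, Multiset.map_cons, Multiset.sum_cons] at h2
      have h3 : c (iota (M / g) h) = 0 := by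
        apply hc.half
        rw [← iota_add hgM, hhh, iota_zero]
      rw [h3, zero_add] at h2
      exact h2

theorem core_character {K : ℕ} (hK : 0 < K) (hKe : Even K) {n : ℕ} (hn : n ≤ K) {m : ℕ} [NeZero m]
    [NeZero (factor K * m)] (b : Fin n → ZMod m) (hb : IsHodge m (entries b)) :
    ∃ v : Multiset (ZMod (Nat.gcd (level K) m)), IsHodge _ v ∧ Multiset.card v ≤ K ∧
      ∀ (Q : Type) [AddCommGroup Q] (c : ZMod (factor K * m) → Q), OddDist c →
        ((v.map (iota (factor K * m / Nat.gcd (level K) m) :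
          ZMod (Nat.gcd (level K) m) → ZMod (factor K * m))).map c).sum = 0 →
        (((entries b).map (iota (factor K) : ZMod m → ZMod (factor K * m))).map c).sum = 0 := by
  obtain ⟨J, R, root, hs⟩ := exists_str hK hn b hb
  obtain ⟨v, h1, h2, h3⟩ := hs.character hb
  refine ⟨v, h1, ?_, h3⟩
  have h4 : J.card ≤ n := by
    refine (card_le_card (subset_univ J)).trans ?_
    rw [card_univ, Fintype.card_fin]
  obtain ⟨k, hk⟩ := hKe
  obtain ⟨l, hl⟩ := h1.2.1
  omega

lemma exists_tuple {m : ℕ} (s : Multiset (ZMod m)) :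
    ∃ b : Fin (Multiset.card s) → ZMod m, entries b = s := by
  obtain ⟨l, rfl⟩ := Quot.exists_rep s
  refine ⟨fun i => l.get (i.cast (by simp)), ?_⟩
  unfold entries
  change _ = (l : Multiset (ZMod m))
  have h1 : (fun i : Fin (Multiset.card (l : Multiset (ZMod m))) => l.get (i.cast (by simp))) =
      (fun i : Fin l.length => l.get i) := rfl
  have h2 : (univ.val.map fun i : Fin l.length => l.get i : Multiset (ZMod m)) =
      (l : Multiset (ZMod m)) := by
    rw [Fin.univ_val_map, List.ofFn_get]
  exact h2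

/-- The finiteness theorem, with the divisor `gcd (level K) m` of the degree. -/
theorem finiteness_gcd {K : ℕ} (hK : 0 < K) (hKe : Even K) {m : ℕ} (hm : 0 < m)
    (s : Multiset (ZMod m)) (hs : IsHodge m s) (hne : s ≠ 0) (hcard : Multiset.card s ≤ K) :
    Generated (factor K * m)
      (fun u => FromLevel (factor K * m) (Nat.gcd (level K) m) u ∧ Multiset.card u ≤ K)
      (s.map (iota (factor K))) := by
  classical
  have : NeZero m := ⟨hm.ne'⟩
  have : NeZero (factor K * m) := ⟨(Nat.mul_pos (factor_pos K) hm).ne'⟩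
  obtain ⟨b, hb⟩ := exists_tuple s
  rw [← hb] at hs ⊢
  obtain ⟨v, hv, hvcard, h⟩ := core_character hK hKe hcard b hs
  have hg0 : NeZero (Nat.gcd (level K) m) := ⟨(Nat.gcd_pos_of_pos_left _ (level_pos K)).ne'⟩
  have hgM : factor K * m / Nat.gcd (level K) m * Nat.gcd (level K) m = factor K * m :=
    Nat.div_mul_cancel ((Nat.gcd_dvd_right _ _).mul_left _)
  have h1 := h _ _ (cQ_oddDist (m := factor K * m)
    (base := fun u => FromLevel (factor K * m) (Nat.gcd (level K) m) u ∧ Multiset.card u ≤ K))
    (cQ_sum_eq_zero (Generated.ofBase _ ⟨⟨v, hv, rfl⟩, by rw [Multiset.card_map]; exact hvcard⟩))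
  rw [cQ_sum, QuotientAddGroup.eq_zero_iff] at h1
  refine generated_of_mem_LL ?_ ?_ ?_ ?_ ?_ h1
  · rintro u ⟨⟨u0, hu0, rfl⟩, _⟩
    exact ⟨(hu0.iota hgM).1, (hu0.iota hgM).2.1⟩
  · rintro u ⟨⟨u0, hu0, rfl⟩, hu⟩
    refine ⟨⟨u0.map Neg.neg, hu0.neg, ?_⟩, ?_⟩
    · rw [Multiset.map_map, Multiset.map_map]
      apply Multiset.map_congr rfl
      intro x _
      exact (iota_neg hgM x).symm
    · rw [Multiset.card_map]; exact hu
  · exact (hs.iota (m := factor K * m) (k := factor K) rfl).1
  · exact (hs.iota (m := factor K * m) (k := factor K) rfl).2.1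
  · intro h0
    rw [Multiset.map_eq_zero] at h0
    exact hne (by rw [← hb, h0])

/-- Degrees whose small relevant primes are good. -/
theorem large_primes {K : ℕ} (hK : 0 < K) (hKe : Even K) {m : ℕ} (hm : 0 < m)
    (hgood : ∀ T ⊆ relPrimes m, (∀ p ∈ T, p ≤ thr K) → Even T.card → T.Nonempty → T ∈ KnownPairs)
    (s : Multiset (ZMod m)) (hs : IsHodge m s) (hne : s ≠ 0) (hcard : Multiset.card s ≤ K) :
    Generated (factor K * m) (SurfaceOrCurveProduct (factor K * m)) (s.map (iota (factor K))) := by
  classical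
  have : NeZero m := ⟨hm.ne'⟩
  have : NeZero (factor K * m) := ⟨(Nat.mul_pos (factor_pos K) hm).ne'⟩
  obtain ⟨b, hb⟩ := exists_tuple s
  rw [← hb] at hs ⊢
  have hcc := core_character hK hKe hcard b hs
  obtain ⟨g, hg⟩ : ∃ g, g = Nat.gcd (level K) m := ⟨_, rfl⟩
  rw [← hg] at hcc
  obtain ⟨v, hv, hvcard, h⟩ := hcc
  set M := factor K * m with hM
  have hgpos : 0 < g := by rw [hg]; exact Nat.gcd_pos_of_pos_left _ (level_pos K)
  have hg0 : NeZero g := ⟨hgpos.ne'⟩
  have heg0 : NeZero (ev g) := ⟨(ev_pos hgpos).ne'⟩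
  have hgm : g ∣ m := by rw [hg]; exact Nat.gcd_dvd_right _ _
  have hgL : g ∣ level K := by rw [hg]; exact Nat.gcd_dvd_left _ _
  have hgM : M / g * g = M := Nat.div_mul_cancel (hgm.mul_left _)
  have h2κ : 2 ∣ factor K := (two_dvd_level hK).trans (level_dvd_factor K)
  have hegM : ev g ∣ M := by
    unfold ev
    split_ifs with h2
    · exact hgm.mul_left _
    · exact Nat.mul_dvd_mul h2κ hgm
  obtain ⟨k, hk⟩ := hegM
  have hk' : k * ev g = M := by rw [mul_comm]; exact hk.symm
  have hMg : M / g = k * (ev g / g) := by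
    apply Nat.div_eq_of_eq_mul_left hgpos
    rw [mul_assoc, ev_eq hgpos, hk']
  have hvz : ((v.map (iota (M / g) : ZMod g → ZMod M)).map (cQ M (SurfaceOrCurveProduct M))).sum = 0 := by
    by_cases hv0 : v = 0
    · rw [hv0]; simp
    have h3 := main_three (fun _ => 0) g hgpos (by
      intro T hT h1 h2 h3
      exfalso
      apply h3
      apply hgood T _ _ h1 h2
      · intro p hp
        have h4 := mem_filter.mp (hT hp)
        have h5 := Nat.mem_primeFactors.mp h4.1
        refine mem_filter.mpr ⟨Nat.mem_primeFactors.mpr ⟨h5.1, h5.2.1.trans hgm, hm.ne'⟩, ?_⟩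
        rcases h4.2 with h6 | h6
        · exact Or.inl h6
        · exact Or.inr (h6.trans hgm)
      · intro p hp
        have h4 := mem_filter.mp (hT hp)
        have h5 := Nat.mem_primeFactors.mp h4.1
        exact (h5.1.dvd_factorial).mp (h5.2.1.trans hgL)) v hv hv0
    have h4 := Generated.sum_zero ((cQ_oddDist (m := M) (base := SurfaceOrCurveProduct M)).comp_iota hk')
      (by
        rintro u (h5 | ⟨T, hT, h5, h6, h7, _⟩)
        · have h6 : SurfaceOrCurveProduct M (u.map (iota k : ZMod (ev g) → ZMod M)) := by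
            rcases h5 with ⟨h1, h2⟩ | h1
            · exact Or.inl ⟨h1.iota hk', by rw [Multiset.card_map]; exact h2⟩
            · exact Or.inr (h1.lift hk')
          have h7 := cQ_sum_eq_zero (Generated.ofBase (m := M) (base := SurfaceOrCurveProduct M) _ h6)
          rw [Multiset.map_map] at h7
          exact h7
        · exfalso
          apply h7
          apply hgood T _ _ h5 h6
          · intro p hp
            have h4 := mem_filter.mp (hT hp)
            have h5 := Nat.mem_primeFactors.mp h4.1
            refine mem_filter.mpr ⟨Nat.mem_primeFactors.mpr ⟨h5.1, h5.2.1.trans hgm, hm.ne'⟩, ?_⟩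
            rcases h4.2 with h6 | h6
            · exact Or.inl h6
            · exact Or.inr (h6.trans hgm)
          · intro p hp
            have h4 := mem_filter.mp (hT hp)
            have h5 := Nat.mem_primeFactors.mp h4.1
            exact (h5.1.dvd_factorial).mp (h5.2.1.trans hgL)) h3
    unfold up at h4
    rw [Multiset.map_map] at h4
    rw [Multiset.map_map, ← h4]
    congr 1
    apply Multiset.map_congr rfl
    intro x _
    simp only [Function.comp_apply]
    rw [iota_comp hk', hMg]
  have h1 := h _ _ cQ_oddDist hvz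
  rw [cQ_sum, QuotientAddGroup.eq_zero_iff] at h1
  refine generated_of_mem_LL base_good base_neg ?_ ?_ ?_ h1
  · exact (hs.iota (m := M) (k := factor K) rfl).1
  · exact (hs.iota (m := M) (k := factor K) rfl).2.1
  · intro h0
    rw [Multiset.map_eq_zero] at h0
    exact hne (by rw [← hb, h0])

end Pool.Agent.J4.H26.Fn
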