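import Pool.Agent.J4.H26.Fn.Norm
import Pool.Agent.H916R2.Closure

/-!
Distribution relations for all divisors, and relations given by a divisor which vanishes.
-/

set_option autoImplicit false

namespace Pool.Agent.J4.H26.Fn

open Finset Complex Pool.Agent.H916R2

/-- a function with small support and vanishing power sums is zero -/
theorem vander {m : ℕ} [NeZero m] (D : ZMod m → ℤ) (S : Finset (ZMod m)) {H : ℕ}
    (hS : S.card ≤ H) (hD : ∀ y, y ∉ S → D y = 0)
    (h : ∀ n : ℕ, 1 ≤ n → n ≤ H → ∑ y, (D y : ℂ) * psi m (-((n : ZMod m) * y)) = 0) (y0 : ZMod m) :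
    D y0 = 0 := by
  classical
  by_contra hy0
  have hy0S : y0 ∈ S := by
    by_contra hc; exact hy0 (hD y0 hc)
  let Q : Polynomial ℂ := Polynomial.X * ∏ y ∈ S.erase y0, (Polynomial.X - Polynomial.C (psi m (-y)))
  have hdeg : Q.natDegree ≤ H := by
    refine le_trans Polynomial.natDegree_mul_le ?_
    rw [Polynomial.natDegree_X]
    have h1 := Polynomial.natDegree_prod_le (S.erase y0)
      (fun y => (Polynomial.X - Polynomial.C (psi m (-y)) : Polynomial ℂ))
    have h2 : ∑ y ∈ S.erase y0, (Polynomial.X - Polynomial.C (psi m (-y)) : Polynomial ℂ).natDegree =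
        (S.erase y0).card := by
      rw [sum_congr rfl fun y _ => Polynomial.natDegree_X_sub_C _, sum_const, smul_eq_mul, mul_one]
    rw [h2, card_erase_of_mem hy0S] at h1
    have h3 : 0 < S.card := card_pos.mpr ⟨y0, hy0S⟩
    omega
  have hcoeff0 : Q.coeff 0 = 0 := by
    simp only [Q, Polynomial.mul_coeff_zero, Polynomial.coeff_X_zero, zero_mul]
  have hpow : ∀ (y : ZMod m) (n : ℕ), psi m (-y) ^ n = psi m (-((n : ZMod m) * y)) := by
    intro y n
    rw [← psi_natMul]; congr 1; ring
  have h1 : ∑ y, (D y : ℂ) * Q.eval (psi m (-y)) = 0 := by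
    have h2 : ∀ y, (D y : ℂ) * Q.eval (psi m (-y)) =
        ∑ n ∈ range (Q.natDegree + 1), Q.coeff n * ((D y : ℂ) * psi m (-((n : ZMod m) * y))) := by
      intro y
      rw [Polynomial.eval_eq_sum_range, mul_sum]
      refine sum_congr rfl fun n _ => ?_
      rw [hpow]; ring
    rw [sum_congr rfl fun y _ => h2 y, sum_comm]
    apply sum_eq_zero
    intro n hn
    rw [← mul_sum]
    rcases Nat.eq_zero_or_pos n with rfl | hn0
    · rw [hcoeff0, zero_mul]
    · rw [h n hn0 (by have := mem_range.mp hn; omega), mul_zero]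
  have h2 : ∑ y, (D y : ℂ) * Q.eval (psi m (-y)) = (D y0 : ℂ) * Q.eval (psi m (-y0)) := by
    apply Fintype.sum_eq_single
    intro y hy
    by_cases hyS : y ∈ S
    · have : Q.eval (psi m (-y)) = 0 := by
        simp only [Q, Polynomial.eval_mul, Polynomial.eval_prod]
        rw [prod_eq_zero (mem_erase.mpr ⟨hy, hyS⟩), mul_zero]
        simp
      rw [this, mul_zero]
    · rw [hD y hyS]; simp
  rw [h2, mul_eq_zero] at h1
  rcases h1 with h1 | h1
  · exact hy0 (by exact_mod_cast h1)
  · simp only [Q, Polynomial.eval_mul, Polynomial.eval_prod, Polynomial.eval_X, mul_eq_zero,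
      prod_eq_zero_iff] at h1
    rcases h1 with h1 | ⟨y, hy, h1⟩
    · exact psi_ne_zero _ h1
    · simp only [Polynomial.eval_sub, Polynomial.eval_X, Polynomial.eval_C, sub_eq_zero] at h1
      have := psi_injective h1
      exact (mem_erase.mp hy).1 (neg_injective this).symm

section dist

variable {m : ℕ} [NeZero m] {Q : Type*} [AddCommGroup Q] {c : ZMod m → Q}

lemma mul_eq_zero_iff' {k d : ℕ} (hkd : k * d = m) (w : ZMod m) :
    (k : ZMod m) * w = 0 ↔ d ∣ w.val := by
  have hk : 0 < k := Nat.pos_of_ne_zero (by rintro rfl; simp at hkd; exact NeZero.ne m hkd.symm)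
  have h1 : (k : ZMod m) * w = ((k * w.val : ℕ) : ZMod m) := by
    push_cast; rw [ZMod.natCast_zmod_val]
  rw [h1, ZMod.natCast_eq_zero_iff]
  constructor
  · intro h
    have h2 : k * d ∣ k * w.val := by rw [hkd]; exact h
    exact Nat.dvd_of_mul_dvd_mul_left hk h2
  · intro h
    have h2 : k * d ∣ k * w.val := Nat.mul_dvd_mul_left k h
    rwa [hkd] at h2

lemma dist_prime (hc : OddDist c) {p : ℕ} (hp : p.Prime) (hpm : p ∣ m) (y0 : ZMod m) :
    ∑ y ∈ univ.filter (fun y : ZMod m => (p : ZMod m) * y = (p : ZMod m) * y0), c y =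
      c ((p : ZMod m) * y0) := by
  classical
  obtain ⟨d, hd⟩ := hpm
  rw [← hc.dist p d hp hd.symm y0]
  have hd0 : 0 < d := Nat.pos_of_ne_zero (by rintro rfl; simp at hd; exact NeZero.ne m hd)
  have himg : univ.filter (fun y : ZMod m => (p : ZMod m) * y = (p : ZMod m) * y0) =
      (range p).image fun i : ℕ => y0 + (i : ZMod m) * (d : ZMod m) := by
    ext y
    simp only [mem_filter, mem_univ, true_and, mem_image, mem_range]
    constructor
    · intro h
      have h1 : (p : ZMod m) * (y - y0) = 0 := by rw [mul_sub, h, sub_self]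
      rw [mul_eq_zero_iff' hd.symm] at h1
      obtain ⟨i, hi⟩ := h1
      refine ⟨i, ?_, ?_⟩
      · have h2 := ZMod.val_lt (y - y0)
        rw [hi] at h2
        have h3 : d * i < d * p := by
          calc d * i < m := h2
            _ = d * p := by rw [mul_comm]; exact hd
        exact Nat.lt_of_mul_lt_mul_left h3
      · have h2 : y - y0 = ((d * i : ℕ) : ZMod m) := by
          rw [← hi, ZMod.natCast_zmod_val]
        have h3 : y = y0 + (y - y0) := by ring
        rw [h3, h2]; push_cast; ring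
    · rintro ⟨i, _, rfl⟩
      have h1 : (p : ZMod m) * (d : ZMod m) = 0 := by
        have : ((p * d : ℕ) : ZMod m) = 0 := by rw [← hd]; simp
        simpa using this
      linear_combination (i : ZMod m) * h1
  rw [himg, sum_image]
  intro i hi j hj hij
  have h1 : ((i * d : ℕ) : ZMod m) = ((j * d : ℕ) : ZMod m) := by
    push_cast; exact add_left_cancel hij
  have hi' : i < p := mem_range.mp (mem_coe.mp hi)
  have hj' : j < p := mem_range.mp (mem_coe.mp hj)
  rw [ZMod.natCast_eq_natCast_iff', Nat.mod_eq_of_lt, Nat.mod_eq_of_lt] at h1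
  · exact Nat.eq_of_mul_eq_mul_right hd0 h1
  · rw [hd]; exact Nat.mul_lt_mul_of_pos_right hj' hd0
  · rw [hd]; exact Nat.mul_lt_mul_of_pos_right hi' hd0

theorem dist_all (hc : OddDist c) (k : ℕ) : k ∣ m → ∀ y0 : ZMod m,
    ∑ y ∈ univ.filter (fun y : ZMod m => (k : ZMod m) * y = (k : ZMod m) * y0), c y =
      c ((k : ZMod m) * y0) := by
  classical
  induction k using Nat.recOnMul with
  | zero =>
    intro h
    exact absurd (Nat.eq_zero_of_zero_dvd h) (NeZero.ne m)
  | one =>
    intro _ y0
    have : univ.filter (fun y : ZMod m => ((1 : ℕ) : ZMod m) * y = ((1 : ℕ) : ZMod m) * y0) = {y0} := by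
      ext y; simp
    rw [this, sum_singleton]; simp
  | prime p hp => exact fun hpm y0 => dist_prime hc hp hpm y0
  | mul a b iha ihb =>
    intro hab y0
    have ha : a ∣ m := (Dvd.intro _ rfl).trans hab
    have hb : b ∣ m := (Dvd.intro_left _ rfl).trans hab
    obtain ⟨d, hd⟩ := hb
    have hb0 : 0 < b := Nat.pos_of_ne_zero (by rintro rfl; simp at hd; exact NeZero.ne m hd)
    have had : a ∣ d := by
      rw [hd, mul_comm] at hab
      exact Nat.dvd_of_mul_dvd_mul_left hb0 hab
    have hcast : ((a * b : ℕ) : ZMod m) = (b : ZMod m) * (a : ZMod m) := by push_cast; ring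
    rw [hcast, mul_assoc, ← ihb ⟨d, hd⟩ ((a : ZMod m) * y0)]
    rw [← sum_fiberwise_of_maps_to
      (s := univ.filter (fun y : ZMod m => (b : ZMod m) * (a : ZMod m) * y =
        (b : ZMod m) * ((a : ZMod m) * y0)))
      (t := univ.filter (fun z : ZMod m => (b : ZMod m) * z = (b : ZMod m) * ((a : ZMod m) * y0)))
      (g := fun y => (a : ZMod m) * y)
      (fun y hy => by
        rw [mem_filter] at hy ⊢
        exact ⟨mem_univ _, by rw [← mul_assoc]; exact hy.2⟩)]
    refine sum_congr rfl fun z hz => ?_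
    rw [mem_filter] at hz
    -- `z` is divisible by `a`
    have h1 : (b : ZMod m) * (z - (a : ZMod m) * y0) = 0 := by rw [mul_sub, hz.2, sub_self]
    rw [mul_eq_zero_iff' hd.symm] at h1
    obtain ⟨e, he⟩ := had.trans h1
    have h2 : z = (a : ZMod m) * (y0 + (e : ZMod m)) := by
      have h3 : z - (a : ZMod m) * y0 = ((a * e : ℕ) : ZMod m) := by
        rw [← he, ZMod.natCast_zmod_val]
      push_cast at h3
      linear_combination h3
    rw [filter_filter]
    have h3 : univ.filter (fun y : ZMod m => (b : ZMod m) * (a : ZMod m) * y =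
        (b : ZMod m) * ((a : ZMod m) * y0) ∧ (a : ZMod m) * y = z) =
        univ.filter (fun y : ZMod m => (a : ZMod m) * y = (a : ZMod m) * (y0 + (e : ZMod m))) := by
      ext y
      simp only [mem_filter, mem_univ, true_and]
      rw [← h2]
      constructor
      · exact fun h => h.2
      · intro h
        exact ⟨by rw [mul_assoc, h, hz.2], h⟩
    rw [h3, iha ha, ← h2]

/-- the fibre of the multiplication by an integer -/
def fib (k : ℤ) (a : ZMod m) : Finset (ZMod m) := univ.filter fun y : ZMod m => (k : ZMod m) * y = -a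

lemma fib_pos {k : ℤ} (hk : 0 < k) (a : ZMod m) : fib k a =
    univ.filter fun y : ZMod m => ((k.natAbs : ℕ) : ZMod m) * y = -a := by
  unfold fib
  have : (k : ZMod m) = ((k.natAbs : ℕ) : ZMod m) := by
    have h1 : (k.natAbs : ℤ) = k := Int.natAbs_of_nonneg hk.le
    rw [← h1]; simp
  rw [this]

lemma fib_neg {k : ℤ} (hk : k < 0) (a : ZMod m) : fib k a =
    univ.filter fun y : ZMod m => ((k.natAbs : ℕ) : ZMod m) * y = a := by
  unfold fib
  have : (k : ZMod m) = -((k.natAbs : ℕ) : ZMod m) := by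
    have h1 : (k.natAbs : ℤ) = -k := by omega
    have h2 : ((k.natAbs : ℕ) : ZMod m) = ((k.natAbs : ℤ) : ZMod m) := by rw [Int.cast_natCast]
    rw [h2, h1]; push_cast; ring
  rw [this]
  ext y
  simp only [mem_filter, mem_univ, true_and, neg_mul, neg_inj]

lemma fib_sum (hc : OddDist c) {k : ℤ} (hk : k ≠ 0) (hkm : k.natAbs ∣ m) {a y0 : ZMod m}
    (ha : a = ((k.natAbs : ℕ) : ZMod m) * y0) :
    k.sign • ∑ y ∈ fib k a, c y = - c a := by
  rcases lt_or_gt_of_ne hk with h | h
  · rw [fib_neg h, Int.sign_eq_neg_one_of_neg h]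
    have := dist_all hc _ hkm y0
    rw [← ha] at this
    rw [this]; simp
  · rw [fib_pos h, Int.sign_eq_one_of_pos h, one_smul]
    have := dist_all hc _ hkm (-y0)
    have h2 : ((k.natAbs : ℕ) : ZMod m) * (-y0) = -a := by rw [ha]; ring
    rw [h2] at this
    rw [this, hc.neg]

lemma fib_card {k : ℤ} (hkm : k.natAbs ∣ m) {a y0 : ZMod m}
    (ha : a = ((k.natAbs : ℕ) : ZMod m) * y0) (hk : k ≠ 0) : (fib k a).card = k.natAbs := by
  classical
  obtain ⟨d, hd⟩ := hkm
  set n := k.natAbs with hn
  have hn0 : 0 < n := Int.natAbs_pos.mpr hk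
  have hd0 : 0 < d := Nat.pos_of_ne_zero (by rintro rfl; simp at hd; exact NeZero.ne m hd)
  -- a point in the fibre
  obtain ⟨z, hz⟩ : ∃ z : ZMod m, fib k a = univ.filter fun y : ZMod m => (n : ZMod m) * y = (n : ZMod m) * z := by
    rcases lt_or_gt_of_ne hk with h | h
    · exact ⟨y0, by rw [fib_neg h, ← ha]⟩
    · refine ⟨-y0, ?_⟩
      rw [fib_pos h]
      have h2 : (n : ZMod m) * (-y0) = -a := by rw [ha]; ring
      rw [h2]
  rw [hz]
  have himg : univ.filter (fun y : ZMod m => (n : ZMod m) * y = (n : ZMod m) * z) =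
      (range n).image fun i : ℕ => z + (i : ZMod m) * (d : ZMod m) := by
    ext y
    simp only [mem_filter, mem_univ, true_and, mem_image, mem_range]
    constructor
    · intro h
      have h1 : (n : ZMod m) * (y - z) = 0 := by rw [mul_sub, h, sub_self]
      rw [mul_eq_zero_iff' hd.symm] at h1
      obtain ⟨i, hi⟩ := h1
      refine ⟨i, ?_, ?_⟩
      · have h2 := ZMod.val_lt (y - z)
        rw [hi] at h2
        have h3 : d * i < d * n := by
          calc d * i < m := h2
            _ = d * n := by rw [mul_comm]; exact hd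
        exact Nat.lt_of_mul_lt_mul_left h3
      · have h2 : y - z = ((d * i : ℕ) : ZMod m) := by
          rw [← hi, ZMod.natCast_zmod_val]
        have h3 : y = z + (y - z) := by ring
        rw [h3, h2]; push_cast; ring
    · rintro ⟨i, _, rfl⟩
      have h1 : (n : ZMod m) * (d : ZMod m) = 0 := by
        have : ((n * d : ℕ) : ZMod m) = 0 := by rw [← hd]; simp
        simpa using this
      linear_combination (i : ZMod m) * h1
  rw [himg, card_image_of_injOn, card_range]
  intro i hi j hj hij
  have h1 : ((i * d : ℕ) : ZMod m) = ((j * d : ℕ) : ZMod m) := by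
    push_cast; exact add_left_cancel hij
  have hi' : i < n := mem_range.mp (mem_coe.mp hi)
  have hj' : j < n := mem_range.mp (mem_coe.mp hj)
  rw [ZMod.natCast_eq_natCast_iff', Nat.mod_eq_of_lt, Nat.mod_eq_of_lt] at h1
  · exact Nat.eq_of_mul_eq_mul_right hd0 h1
  · rw [hd]; exact Nat.mul_lt_mul_of_pos_right hj' hd0
  · rw [hd]; exact Nat.mul_lt_mul_of_pos_right hi' hd0

/-- Fourier coefficients of a fibre -/
lemma fib_fourier {k : ℤ} (hk : k ≠ 0) (hkm : k.natAbs ∣ m) {a y0 : ZMod m}
    (ha : a = ((k.natAbs : ℕ) : ZMod m) * y0) (h : ℕ) :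
    (k.sign : ℂ) * ∑ y ∈ fib k a, psi m (-((h : ZMod m) * y)) =
      if k ∣ (h : ℤ) then (k : ℂ) * psi m (((h : ℤ) / k : ℤ) * a) else 0 := by
  classical
  split_ifs with hkh
  · obtain ⟨r, hr⟩ := hkh
    have h1 : (h : ℤ) / k = r := by rw [hr]; exact Int.mul_ediv_cancel_left r hk
    rw [h1]
    have h2 : ∀ y ∈ fib k a, psi m (-((h : ZMod m) * y)) = psi m ((r : ZMod m) * a) := by
      intro y hy
      unfold fib at hy
      rw [mem_filter] at hy
      congr 1
      have h3 : (h : ZMod m) = (k : ZMod m) * (r : ZMod m) := by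
        have : ((h : ℤ) : ZMod m) = ((k * r : ℤ) : ZMod m) := by rw [hr]
        push_cast at this; exact this
      rw [h3]
      linear_combination (-(r : ZMod m)) * hy.2
    rw [sum_congr rfl h2, sum_const, fib_card hkm ha hk, nsmul_eq_mul, ← mul_assoc]
    congr 1
    have h4 : ((k.sign * (k.natAbs : ℤ) : ℤ) : ℂ) = (k : ℂ) := by
      rw [Int.sign_mul_natAbs]
    rw [Int.cast_mul, Int.cast_natCast] at h4
    exact h4
  · obtain ⟨d, hd⟩ := hkm
    set n := k.natAbs with hn
    have hn0 : 0 < n := Int.natAbs_pos.mpr hk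
    have hd0 : 0 < d := Nat.pos_of_ne_zero (by rintro rfl; simp at hd; exact NeZero.ne m hd)
    -- shift by `d`
    have hkd : (k : ZMod m) * (d : ZMod m) = 0 := by
      have h1 : ((n * d : ℕ) : ZMod m) = 0 := by rw [← hd]; simp
      have h2 : (m : ℤ) ∣ k * d := by
        have h3 : (m : ℤ) ∣ (n : ℤ) * d := by exact_mod_cast (Dvd.intro_left 1 (by rw [one_mul]; exact hd))
        rw [hn, Int.natCast_natAbs] at h3
        rcases abs_choice k with h4 | h4
        · rwa [h4] at h3
        · rw [h4, neg_mul, dvd_neg] at h3; exact h3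
      have h3 := (ZMod.intCast_zmod_eq_zero_iff_dvd _ _).mpr h2
      push_cast at h3; exact h3
    have hshift : ∑ y ∈ fib k a, psi m (-((h : ZMod m) * y)) =
        psi m (-((h : ZMod m) * (d : ZMod m))) * ∑ y ∈ fib k a, psi m (-((h : ZMod m) * y)) := by
      rw [mul_sum]
      refine sum_bij' (fun y _ => y - (d : ZMod m)) (fun y _ => y + (d : ZMod m)) ?_ ?_ ?_ ?_ ?_
      · intro y hy
        unfold fib at hy ⊢
        rw [mem_filter] at hy ⊢
        exact ⟨mem_univ _, by rw [mul_sub, hkd, hy.2]; ring⟩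
      · intro y hy
        unfold fib at hy ⊢
        rw [mem_filter] at hy ⊢
        exact ⟨mem_univ _, by rw [mul_add, hkd, hy.2]; ring⟩
      · intro y _; ring
      · intro y _; ring
      · intro y _
        rw [← psi_add]; congr 1; ring
    have hne : psi m (-((h : ZMod m) * (d : ZMod m))) ≠ 1 := by
      intro h1
      rw [← psi_zero (q := m)] at h1
      have h2 := psi_injective h1
      rw [neg_eq_zero] at h2
      have h3 : ((h * d : ℕ) : ZMod m) = 0 := by push_cast; exact h2
      rw [ZMod.natCast_eq_zero_iff, hd] at h3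
      have h4 : n ∣ h := Nat.dvd_of_mul_dvd_mul_right hd0 h3
      apply hkh
      have h5 : ((n : ℕ) : ℤ) ∣ (h : ℤ) := by exact_mod_cast h4
      rw [hn] at h5
      exact Int.natAbs_dvd.mp h5
    have h0 : ∑ y ∈ fib k a, psi m (-((h : ZMod m) * y)) = 0 := by
      have h1 : (psi m (-((h : ZMod m) * (d : ZMod m))) - 1) *
          ∑ y ∈ fib k a, psi m (-((h : ZMod m) * y)) = 0 := by
        rw [sub_mul, one_mul, ← hshift, sub_self]
      rcases mul_eq_zero.mp h1 with h2 | h2
      · exact absurd (sub_eq_zero.mp h2) hne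
      · exact h2
    rw [h0, mul_zero]

/-- **A class of entries**: if the sums over the class vanish for sufficiently many frequencies then
the class is killed by all odd distributions. -/
theorem class_killed (hc : OddDist c) {I : Type*} (s : Finset I) (k : I → ℤ) (a : I → ZMod m)
    (hk : ∀ i ∈ s, k i ≠ 0) (hkm : ∀ i ∈ s, (k i).natAbs ∣ m)
    (ha : ∀ i ∈ s, ∃ y0 : ZMod m, a i = (((k i).natAbs : ℕ) : ZMod m) * y0) {H : ℕ}
    (hH : ∑ i ∈ s, (k i).natAbs ≤ H)
    (h : ∀ n : ℕ, 1 ≤ n → n ≤ H →
      ∑ i ∈ s.filter (fun i => k i ∣ (n : ℤ)), (k i : ℂ) * psi m (((n : ℤ) / k i : ℤ) * a i) = 0) :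
    ∑ i ∈ s, c (a i) = 0 := by
  classical
  let D : ZMod m → ℤ := fun y => ∑ i ∈ s, if y ∈ fib (k i) (a i) then (k i).sign else 0
  have hD0 : ∀ y, D y = 0 := by
    apply vander D (s.biUnion fun i => fib (k i) (a i)) (H := H)
    · refine card_biUnion_le.trans ?_
      refine le_trans (le_of_eq ?_) hH
      refine sum_congr rfl fun i hi => ?_
      obtain ⟨y0, hy0⟩ := ha i hi
      exact fib_card (hkm i hi) hy0 (hk i hi)
    · intro y hy
      simp only [D]
      apply sum_eq_zero
      intro i hi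
      rw [if_neg]
      intro h1
      exact hy (mem_biUnion.mpr ⟨i, hi, h1⟩)
    · intro n hn1 hn2
      rw [← h n hn1 hn2, sum_filter]
      have h1 : ∀ y, (D y : ℂ) * psi m (-((n : ZMod m) * y)) =
          ∑ i ∈ s, (if y ∈ fib (k i) (a i) then ((k i).sign : ℂ) * psi m (-((n : ZMod m) * y)) else 0) := by
        intro y
        simp only [D]
        push_cast
        rw [sum_mul]
        refine sum_congr rfl fun i _ => ?_
        split_ifs <;> simp
      rw [sum_congr rfl fun y _ => h1 y, sum_comm]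
      refine sum_congr rfl fun i hi => ?_
      obtain ⟨y0, hy0⟩ := ha i hi
      rw [← fib_fourier (hk i hi) (hkm i hi) hy0 n, mul_sum, ← sum_filter]
      congr 1
      ext y
      simp
  have h1 : ∑ y, D y • c y = 0 := sum_eq_zero fun y _ => by rw [hD0, zero_smul]
  have h2 : ∑ y, D y • c y = ∑ i ∈ s, (k i).sign • ∑ y ∈ fib (k i) (a i), c y := by
    have h3 : ∀ y, D y • c y = ∑ i ∈ s, (if y ∈ fib (k i) (a i) then (k i).sign • c y else 0) := by
      intro y
      simp only [D]
      rw [sum_smul]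
      refine sum_congr rfl fun i _ => ?_
      split_ifs <;> simp
    rw [sum_congr rfl fun y _ => h3 y, sum_comm]
    refine sum_congr rfl fun i _ => ?_
    rw [smul_sum, ← sum_filter]
    congr 1
    ext y
    simp
  rw [h2] at h1
  have h4 : ∑ i ∈ s, (k i).sign • ∑ y ∈ fib (k i) (a i), c y = ∑ i ∈ s, - c (a i) := by
    refine sum_congr rfl fun i hi => ?_
    obtain ⟨y0, hy0⟩ := ha i hi
    exact fib_sum hc (hk i hi) (hkm i hi) hy0
  rw [h4, sum_neg_distrib, neg_eq_zero] at h1
  exact h1

end dist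

end Pool.Agent.J4.H26.Fn
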