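import Pool.Agent.J4.H26.Fn.Far
import Pool.Agent.J4.H26.Fn.Dist

/-!
The estimate for one class of entries.
-/

set_option autoImplicit false

namespace Pool.Agent.J4.H26.Fn

open Finset Complex Pool.Agent.H916R2

lemma psi_int_mul {m : ℕ} [NeZero m] (r : ℤ) (x : ZMod m) :
    psi m ((r : ZMod m) * x) = ex (r * ((x.val : ℝ) / m)) := by
  have h1 : (r : ZMod m) * x = ((r * (x.val : ℤ) : ℤ) : ZMod m) := by
    push_cast; rw [ZMod.natCast_zmod_val]
  rw [h1, psi_intCast]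
  congr 1
  push_cast; ring

section

variable {m q s : ℕ} [NeZero m] [NeZero q]

/-- the reduction of an entry -/
def red (q : ℕ) {m : ℕ} (a : ZMod m) : ZMod q := ((a.val : ℕ) : ZMod q)

lemma fract_eq (hm : q * s = m) (t : ZMod m) (a : ZMod m) (σ : ZMod q) :
    Int.fract (((σ * red q a).val : ℝ) / q + ((t * a).val : ℝ) / m) =
      (((t + (σ.val : ZMod m) * (s : ZMod m)) * a).val : ℝ) / m := by
  have hq : (q : ℝ) ≠ 0 := by exact_mod_cast NeZero.ne q
  have hm0 : (m : ℝ) ≠ 0 := by exact_mod_cast NeZero.ne m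
  have hs0 : (s : ℝ) ≠ 0 := by
    have : s ≠ 0 := by rintro rfl; simp at hm; exact NeZero.ne m hm.symm
    exact_mod_cast this
  rw [Int.fract_eq_iff]
  refine ⟨by positivity, ?_, ?_⟩
  · rw [div_lt_one (by positivity)]
    exact_mod_cast ZMod.val_lt _
  · -- `(σ b).val = σ.val * a.val - q * u`
    obtain ⟨u, hu⟩ : ∃ u : ℤ, ((σ * red q a).val : ℤ) = σ.val * a.val - q * u := by
      have h1 : ((((σ * red q a).val : ℤ) - σ.val * a.val : ℤ) : ZMod q) = 0 := by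
        push_cast
        rw [ZMod.natCast_zmod_val, ZMod.natCast_zmod_val]
        unfold red; ring
      rw [ZMod.intCast_zmod_eq_zero_iff_dvd] at h1
      obtain ⟨u, hu⟩ := h1
      exact ⟨-u, by linarith⟩
    obtain ⟨w, hw⟩ : ∃ w : ℤ, ((((t + (σ.val : ZMod m) * (s : ZMod m)) * a).val : ℕ) : ℤ) =
        (t * a).val + σ.val * s * a.val - m * w := by
      have h1 : ((((((t + (σ.val : ZMod m) * (s : ZMod m)) * a).val : ℕ) : ℤ) -
          ((t * a).val + σ.val * s * a.val) : ℤ) : ZMod m) = 0 := by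
        push_cast
        rw [ZMod.natCast_zmod_val, ZMod.natCast_zmod_val, ZMod.natCast_zmod_val]
        ring
      rw [ZMod.intCast_zmod_eq_zero_iff_dvd] at h1
      obtain ⟨w, hw⟩ := h1
      exact ⟨-w, by linarith⟩
    refine ⟨w - u, ?_⟩
    have hu' : ((σ * red q a).val : ℝ) = (σ.val : ℝ) * a.val - q * u := by exact_mod_cast hu
    have hw' : (((t + (σ.val : ZMod m) * (s : ZMod m)) * a).val : ℝ) =
        (t * a).val + (σ.val : ℝ) * s * a.val - m * w := by exact_mod_cast hw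
    rw [hu', hw']
    have hmr : (m : ℝ) = q * s := by exact_mod_cast hm.symm
    rw [hmr]
    push_cast
    field_simp
    ring

/-- the sum of the sawtooths at a unit -/
lemma gs_sum_zero {I : Type*} (hm : q * s = m) {S : Finset I} {a : I → ZMod m}
    (ha : ∀ i ∈ S, a i ≠ 0) (hrel : ∀ t : (ZMod m)ˣ, ∑ i ∈ S, saw ((t : ZMod m) * a i) = 0)
    (t : ZMod m) (σ : ZMod q) (hu : IsUnit (t + (σ.val : ZMod m) * (s : ZMod m))) :
    ∑ i ∈ S, gs q (((t * a i).val : ℝ) / m) (σ * red q (a i)) = 0 := by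
  have hm0 : (m : ℝ) ≠ 0 := by exact_mod_cast NeZero.ne m
  obtain ⟨U, hU⟩ := hu
  have h1 := hrel U
  have h2 : ∀ i ∈ S, gs q (((t * a i).val : ℝ) / m) (σ * red q (a i)) =
      ((saw ((U : ZMod m) * a i) : ℤ) : ℝ) / (2 * m) := by
    intro i hi
    unfold gs
    rw [fract_eq hm, ← hU]
    have h3 : (U : ZMod m) * a i ≠ 0 := by
      intro h
      exact ha i hi ((Units.mul_right_eq_zero U).mp h)
    unfold saw
    rw [if_neg h3]
    push_cast
    field_simp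
  rw [sum_congr rfl h2, ← sum_div]
  have h3 : ∑ i ∈ S, ((saw ((U : ZMod m) * a i) : ℤ) : ℝ) = ((∑ i ∈ S, saw ((U : ZMod m) * a i) : ℤ) : ℝ) := by
    push_cast; rfl
  rw [h3, h1]
  simp

/-- the sum of all Fourier sums is small -/
lemma SS_sum_small {I : Type*} (hm : q * s = m) {S : Finset I} {a : I → ZMod m}
    (ha : ∀ i ∈ S, a i ≠ 0) (hrel : ∀ t : (ZMod m)ˣ, ∑ i ∈ S, saw ((t : ZMod m) * a i) = 0)
    (t : ZMod m) {η : ℝ}
    (hη : ((univ.filter fun σ : ZMod q => ¬ IsUnit (t + (σ.val : ZMod m) * (s : ZMod m))).card : ℝ) ≤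
      η * q) (κ : ZMod q) :
    ‖∑ i ∈ S, SS q (red q (a i)) (((t * a i).val : ℝ) / m) κ‖ ≤ η * q * (S.card / 2) := by
  classical
  have h1 : ∑ i ∈ S, SS q (red q (a i)) (((t * a i).val : ℝ) / m) κ =
      ∑ σ : ZMod q, ((∑ i ∈ S, gs q (((t * a i).val : ℝ) / m) (σ * red q (a i)) : ℝ) : ℂ) *
        psi q (-(σ * κ)) := by
    unfold SS
    rw [sum_comm]
    refine sum_congr rfl fun σ _ => ?_
    push_cast
    rw [sum_mul]
  rw [h1]
  have h2 : ∀ σ : ZMod q, ‖((∑ i ∈ S, gs q (((t * a i).val : ℝ) / m) (σ * red q (a i)) : ℝ) : ℂ) *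
      psi q (-(σ * κ))‖ ≤ if ¬ IsUnit (t + (σ.val : ZMod m) * (s : ZMod m)) then (S.card : ℝ) / 2 else 0 := by
    intro σ
    rw [norm_mul, norm_psi, mul_one, Complex.norm_real, Real.norm_eq_abs]
    by_cases h : ¬ IsUnit (t + (σ.val : ZMod m) * (s : ZMod m))
    · rw [if_pos h]
      refine (abs_sum_le_sum_abs _ _).trans ?_
      calc ∑ i ∈ S, |gs q (((t * a i).val : ℝ) / m) (σ * red q (a i))| ≤ ∑ _i ∈ S, (1 / 2 : ℝ) :=
            sum_le_sum fun i _ => gs_abs _ _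
        _ = (S.card : ℝ) / 2 := by rw [sum_const, nsmul_eq_mul]; ring
    · rw [if_neg h]
      rw [not_not] at h
      rw [gs_sum_zero hm ha hrel t σ h, abs_zero]
  refine (norm_sum_le _ _).trans ((sum_le_sum fun σ _ => h2 σ).trans ?_)
  rw [← sum_filter, sum_const, nsmul_eq_mul]
  exact mul_le_mul_of_nonneg_right hη (by positivity)

/-- **The estimate for one class.** -/
theorem core {I : Type*} [DecidableEq I] {p f : ℕ} (hp : p.Prime) (hq : q = p ^ f)
    (hm : q * s = m) {S : Finset I}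
    {a : I → ZMod m}
    (ha : ∀ i ∈ S, a i ≠ 0) (hrel : ∀ t : (ZMod m)ˣ, ∑ i ∈ S, saw ((t : ZMod m) * a i) = 0)
    {η : ℝ} (hη : ∀ t : (ZMod m)ˣ,
      ((univ.filter fun σ : ZMod q => ¬ IsUnit ((t : ZMod m) + (σ.val : ZMod m) * (s : ZMod m))).card : ℝ) ≤
      η * q)
    {C : Finset I} (hC : C ⊆ S) (k : I → ℤ) (hk : ∀ i ∈ C, k i ≠ 0) (β : ZMod q)
    (hb : ∀ i ∈ C, red q (a i) = (k i : ZMod q) * β)
    {H : ℕ} {ρ Ω : ℝ} (hρ : 0 < ρ) (hΩ : 0 < Ω)
    (hβ : ∀ h : ℕ, 1 ≤ h → h ≤ H → (h : ZMod q) * β ≠ 0)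
    (hfar : ∀ h : ℕ, 1 ≤ h → h ≤ H → ∀ i ∈ S, ¬ (i ∈ C ∧ k i ∣ (h : ℤ)) → ∀ r : ℤ,
      (h : ZMod q) * β = (r : ZMod q) * red q (a i) → ρ ≤ |(r : ℝ)|)
    (hord : ∀ i ∈ C, ∀ n : ℕ, 0 < n → (n : ZMod q) * red q (a i) = 0 → Ω ≤ n)
    (hΩH : 2 * Real.pi * H ≤ Ω)
    (hsmall : 2 * Real.pi * H * (η * S.card / 2 + S.card / (4 * ρ)) + 27 * H ^ 2 * S.card / Ω < 1)
    {h : ℕ} (h1 : 1 ≤ h) (h2 : h ≤ H) :
    ∑ i ∈ C.filter (fun i => k i ∣ (h : ℤ)), (k i : ℂ) * psi m (((h : ℤ) / k i : ℤ) * a i) = 0 := by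
  have hq0 : (0 : ℝ) < q := by exact_mod_cast NeZero.pos q
  apply norm_zero
  intro t
  set κ : ZMod q := (h : ZMod q) * β with hκ
  have hκ0 : κ ≠ 0 := hβ h h1 h2
  set M : Finset I := C.filter (fun i => k i ∣ (h : ℤ)) with hM
  have hMS : M ⊆ S := (filter_subset _ _).trans hC
  set T : I → ℂ := fun i => SS q (red q (a i)) ((((t : ZMod m) * a i).val : ℝ) / m) κ with hT
  have hh0 : (0 : ℝ) < h := by exact_mod_cast h1
  have hhH : (h : ℝ) ≤ H := by exact_mod_cast h2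
  set z : ℂ := Complex.I * ((2 * Real.pi * h / q : ℝ) : ℂ) with hz
  have hznorm : ‖z‖ = 2 * Real.pi * h / q := by
    rw [hz, norm_mul, Complex.norm_I, one_mul, Complex.norm_real, Real.norm_eq_abs, abs_of_nonneg]
    positivity
  -- the main terms
  have hmain : ∀ i ∈ M, ‖T i * z + (k i : ℂ) * psi m ((t : ZMod m) * ((((h : ℤ) / k i : ℤ) : ZMod m) * a i))‖ ≤
      27 * H ^ 2 / Ω := by
    intro i hi
    rw [hM, mem_filter] at hi
    obtain ⟨hiC, r, hr⟩ := hi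
    have hki := hk i hiC
    have hdiv : (h : ℤ) / k i = r := by rw [hr]; exact Int.mul_ediv_cancel_left r hki
    have hr0 : r ≠ 0 := by
      rintro rfl
      rw [mul_zero] at hr
      have : h = 0 := by exact_mod_cast hr
      omega
    rw [hdiv]
    have hbi := hb i hiC
    have hb0 : red q (a i) ≠ 0 := by
      intro h0
      apply hκ0
      have h3 : (h : ZMod q) = (r : ZMod q) * (k i : ZMod q) := by
        have : ((h : ℤ) : ZMod q) = ((k i * r : ℤ) : ZMod q) := by rw [hr]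
        push_cast at this; rw [this]; ring
      rw [hκ, h3, mul_assoc, ← hbi, h0, mul_zero]
    obtain ⟨g, hh, u, hg0, hgq, hgd, hhb, hbu, -⟩ := exists_gen hp hq hb0
    obtain ⟨n, hn⟩ := hgd
    have hn0 : 0 < n := Nat.pos_of_ne_zero (by rintro rfl; simp at hn; omega)
    have hnb : (n : ZMod q) * red q (a i) = 0 := by
      rw [hbu, ← mul_assoc]
      have h6 : ((n * g : ℕ) : ZMod q) = 0 := by rw [mul_comm, ← hn]; simp
      push_cast at h6
      rw [h6, zero_mul]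
    have hΩn : Ω ≤ n := hord i hiC n hn0 hnb
    have hqr : (q : ℝ) = g * n := by exact_mod_cast hn
    have hg0' : (0 : ℝ) < g := by exact_mod_cast hg0
    have hn0' : (0 : ℝ) < n := by exact_mod_cast hn0
    have hkr : ((k i : ℝ)) * r = h := by exact_mod_cast hr.symm
    have hki1 : (1 : ℝ) ≤ |(k i : ℝ)| := by
      have : (1 : ℤ) ≤ |k i| := Int.one_le_abs hki
      exact_mod_cast this
    have hr1 : (1 : ℝ) ≤ |(r : ℝ)| := by
      have : (1 : ℤ) ≤ |r| := Int.one_le_abs hr0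
      exact_mod_cast this
    have hkrabs : |(k i : ℝ)| * |(r : ℝ)| = h := by rw [← abs_mul, hkr, abs_of_pos hh0]
    have hrh : |(r : ℝ)| ≤ h := by nlinarith
    have hsm : 2 * Real.pi * |(r : ℝ)| * g ≤ q := by
      rw [hqr]
      have h5 : 2 * Real.pi * |(r : ℝ)| ≤ n :=
        (mul_le_mul_of_nonneg_left (hrh.trans hhH) Real.two_pi_pos.le).trans (hΩH.trans hΩn)
      nlinarith
    have hmainq := SS_main ((((t : ZMod m) * a i).val : ℝ) / m) hg0 hgq.le hhb hr0 hsm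
    have hκr : (r : ZMod q) * red q (a i) = κ := by
      have h3 : (h : ZMod q) = (r : ZMod q) * (k i : ZMod q) := by
        have : ((h : ℤ) : ZMod q) = ((k i * r : ℤ) : ZMod q) := by rw [hr]
        push_cast at this; rw [this]; ring
      rw [hκ, h3, hbi]; ring
    rw [hκr] at hmainq
    have hpsi : psi m ((t : ZMod m) * ((r : ZMod m) * a i)) =
        ex (r * ((((t : ZMod m) * a i).val : ℝ) / m)) := by
      rw [← psi_int_mul]; congr 1; ring
    rw [hpsi]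
    have h7 : T i * z + (k i : ℂ) * ex (r * ((((t : ZMod m) * a i).val : ℝ) / m)) =
        (k i : ℂ) * (SS q (red q (a i)) ((((t : ZMod m) * a i).val : ℝ) / m) κ *
          (Complex.I * ((2 * Real.pi * r / q : ℝ) : ℂ)) +
          ex (r * ((((t : ZMod m) * a i).val : ℝ) / m))) := by
      have h8 : ((h : ℝ) : ℂ) = (k i : ℂ) * (r : ℂ) := by
        rw [← hkr]; push_cast; rfl
      rw [hT, hz]
      push_cast at h8 ⊢
      rw [h8]; ring
    rw [h7, norm_mul]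
    have h9 : ‖(k i : ℂ)‖ = |(k i : ℝ)| := by
      rw [Complex.norm_intCast]
    rw [h9]
    refine (mul_le_mul_of_nonneg_left hmainq (abs_nonneg _)).trans ?_
    have h10 : |(k i : ℝ)| * (27 * (r : ℝ) ^ 2 * g / q) = 27 * (|(k i : ℝ)| * |(r : ℝ)|) * |(r : ℝ)| / n := by
      rw [hqr, ← sq_abs (r : ℝ)]
      field_simp
    rw [h10, hkrabs]
    rw [div_le_div_iff₀ hn0' hΩ]
    have h11 : 27 * (h : ℝ) * |(r : ℝ)| ≤ 27 * H ^ 2 := by nlinarith [abs_nonneg (r : ℝ)]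
    have h12 : (0 : ℝ) ≤ 27 * (h : ℝ) * |(r : ℝ)| := by positivity
    nlinarith
  -- the other terms
  have hother : ∀ i ∈ S \ M, ‖T i‖ ≤ q / (4 * ρ) := by
    intro i hi
    rw [mem_sdiff] at hi
    have hnot : ¬ (i ∈ C ∧ k i ∣ (h : ℤ)) := by
      intro hc; exact hi.2 (by rw [hM, mem_filter]; exact hc)
    rcases SS_far hp hq (red q (a i)) ((((t : ZMod m) * a i).val : ℝ) / m) hκ0 with h3 | ⟨r, hr1, hr2⟩
    · rw [hT]; simp only; rw [h3, _root_.norm_zero]; positivity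
    · have h4 := hfar h h1 h2 i hi.1 hnot r hr1
      rw [le_div_iff₀ (by positivity)]
      refine le_trans ?_ hr2
      exact mul_le_mul_of_nonneg_left (by linarith) (norm_nonneg _)
  have hall : ‖∑ i ∈ S, T i‖ ≤ η * q * (S.card / 2) := SS_sum_small hm ha hrel t (hη t) κ
  -- combine
  have hsplit : ∑ i ∈ M, (k i : ℂ) * psi m ((t : ZMod m) * ((((h : ℤ) / k i : ℤ) : ZMod m) * a i)) =
      ∑ i ∈ M, (T i * z + (k i : ℂ) * psi m ((t : ZMod m) * ((((h : ℤ) / k i : ℤ) : ZMod m) * a i))) -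
        (∑ i ∈ S, T i - ∑ i ∈ S \ M, T i) * z := by
    have h3 : ∑ i ∈ S, T i = ∑ i ∈ S \ M, T i + ∑ i ∈ M, T i := (sum_sdiff hMS).symm
    rw [h3, sum_add_distrib, ← sum_mul]
    ring
  rw [hsplit]
  have h3 : ‖∑ i ∈ M, (T i * z + (k i : ℂ) * psi m ((t : ZMod m) * ((((h : ℤ) / k i : ℤ) : ZMod m) * a i)))‖ ≤
      S.card * (27 * H ^ 2 / Ω) := by
    refine (norm_sum_le _ _).trans ?_
    calc _ ≤ ∑ _i ∈ M, (27 * (H : ℝ) ^ 2 / Ω) := sum_le_sum hmain
      _ = M.card * (27 * (H : ℝ) ^ 2 / Ω) := by rw [sum_const, nsmul_eq_mul]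
      _ ≤ _ := by
        apply mul_le_mul_of_nonneg_right _ (by positivity)
        exact_mod_cast card_le_card hMS
  have h4 : ‖∑ i ∈ S \ M, T i‖ ≤ S.card * (q / (4 * ρ)) := by
    refine (norm_sum_le _ _).trans ?_
    calc _ ≤ ∑ _i ∈ S \ M, ((q : ℝ) / (4 * ρ)) := sum_le_sum hother
      _ = (S \ M).card * ((q : ℝ) / (4 * ρ)) := by rw [sum_const, nsmul_eq_mul]
      _ ≤ _ := by
        apply mul_le_mul_of_nonneg_right _ (by positivity)
        exact_mod_cast card_le_card sdiff_subset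
  have h5 : ‖(∑ i ∈ S, T i - ∑ i ∈ S \ M, T i) * z‖ ≤
      (η * q * (S.card / 2) + S.card * (q / (4 * ρ))) * (2 * Real.pi * H / q) := by
    rw [norm_mul, hznorm]
    apply mul_le_mul ((norm_sub_le _ _).trans (add_le_add hall h4))
    · apply div_le_div_of_nonneg_right _ hq0.le
      exact mul_le_mul_of_nonneg_left hhH Real.two_pi_pos.le
    · positivity
    · have := norm_nonneg (∑ i ∈ S, T i)
      have h6 : (0 : ℝ) ≤ S.card * (q / (4 * ρ)) := by positivity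
      linarith
  refine lt_of_le_of_lt (norm_sub_le _ _) (lt_of_le_of_lt (add_le_add h3 h5) ?_)
  have h6 : (S.card : ℝ) * (27 * H ^ 2 / Ω) +
      (η * q * (S.card / 2) + S.card * (q / (4 * ρ))) * (2 * Real.pi * H / q) =
      2 * Real.pi * H * (η * S.card / 2 + S.card / (4 * ρ)) + 27 * H ^ 2 * S.card / Ω := by
    field_simp
    ring
  rw [h6]
  exact hsmall

end

end Pool.Agent.J4.H26.Fn
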