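import Pool.Agent.H916R2.Defs

/-!
The explicit constants of the finiteness theorem.
-/

set_option autoImplicit false

namespace Pool.Agent.J4.H26.Fn

/-- the bound for the multipliers -/
def BB (R : ℕ) : ℕ := R * R.factorial

/-- the number of frequencies -/
def HH (K R : ℕ) : ℕ := K * BB R

/-- the next scale -/
def Phi (K R : ℕ) : ℕ := 1000 * K * HH K R ^ 2 * R * BB R

/-- the scales: `1`, `Phi K 1`, `Phi K (Phi K 1)`, ... -/
def scale (K : ℕ) : ℕ → ℕ
  | 0 => 1
  | j + 1 => Phi K (scale K j)

/-- the threshold -/
def thr (K : ℕ) : ℕ := scale K (2 * K + 2)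

/-- the level which carries all exceptional characters with at most `K` entries -/
def level (K : ℕ) : ℕ := (thr K).factorial

/-- the factor of the degree -/
def factor (K : ℕ) : ℕ := (BB (thr K)).factorial

/-- the Hodge characters of degree `M` with at most `2 k` entries -/
def FewEntries (k M : ℕ) (u : Multiset (ZMod M)) : Prop :=
  Pool.Agent.H916R2.IsHodge M u ∧ Multiset.card u ≤ 2 * k

end Pool.Agent.J4.H26.Fn
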