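import Pool.Agent.J4.H26.Fn.Core
import Pool.Agent.J4.H26.Fn.Defs

/-!
Extraction of a class of entries for one prime.
-/

set_option autoImplicit false

namespace Pool.Agent.J4.H26.Fn

open Finset Complex Pool.Agent.H916R2

lemma BB_pos {R : ℕ} (hR : 0 < R) : 0 < BB R := Nat.mul_pos hR R.factorial_pos

/-- exceptional multipliers -/
lemma exc_card {m m1 p E X : ℕ} [NeZero m] [NeZero (p ^ (E - X))] (hp : p.Prime)
    (hm : p ^ E * m1 = m) (hpm1 : ¬ p ∣ m1) (hXE : X < E) (t : (ZMod m)ˣ) :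
    ((univ.filter fun σ : ZMod (p ^ (E - X)) =>
      ¬ IsUnit ((t : ZMod m) + (σ.val : ZMod m) * ((p ^ X * m1 : ℕ) : ZMod m))).card : ℝ) ≤
      (if X = 0 then 1 / (p : ℝ) else 0) * (p ^ (E - X) : ℕ) := by
  classical
  have hE : 0 < E := by omega
  have htv : Nat.Coprime (t : ZMod m).val m := ZMod.val_coe_unit_coprime t
  have ht1 : Nat.Coprime (t : ZMod m).val m1 := Nat.Coprime.coprime_dvd_right (Dvd.intro_left _ hm) htv
  have htp : ¬ p ∣ (t : ZMod m).val := by
    intro h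
    have h1 : p ∣ m := by rw [← hm]; exact (dvd_pow_self p hE.ne').mul_right m1
    have := Nat.dvd_gcd h h1
    rw [htv] at this
    exact hp.one_lt.ne' (Nat.dvd_one.mp this)
  have hunit : ∀ σ : ZMod (p ^ (E - X)), ¬ p ∣ (t : ZMod m).val + σ.val * (p ^ X * m1) →
      IsUnit ((t : ZMod m) + (σ.val : ZMod m) * ((p ^ X * m1 : ℕ) : ZMod m)) := by
    intro σ h
    have h1 : (t : ZMod m) + (σ.val : ZMod m) * ((p ^ X * m1 : ℕ) : ZMod m) =
        (((t : ZMod m).val + σ.val * (p ^ X * m1) : ℕ) : ZMod m) := by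
      rw [Nat.cast_add, ZMod.natCast_zmod_val, Nat.cast_mul σ.val]
    rw [h1, ZMod.isUnit_iff_coprime]
    have hcm : ∀ x : ℕ, Nat.Coprime x (p ^ E * m1) → Nat.Coprime x m := by
      intro x hx; rw [← hm]; exact hx
    apply hcm
    apply Nat.Coprime.mul_right
    · exact ((Nat.Prime.coprime_iff_not_dvd hp).mpr h).symm.pow_right E
    · have h2 : (t : ZMod m).val + σ.val * (p ^ X * m1) = (t : ZMod m).val + (σ.val * p ^ X) * m1 := by ring
      rw [h2]
      exact (Nat.coprime_add_mul_right_left _ _ _).mpr ht1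
  by_cases hX : X = 0
  · rw [if_pos hX]
    subst hX
    have hpq : p ∣ p ^ (E - 0) := dvd_pow_self p (by omega)
    have hcard : (univ.filter fun σ : ZMod (p ^ (E - 0)) =>
        ¬ IsUnit ((t : ZMod m) + (σ.val : ZMod m) * ((p ^ 0 * m1 : ℕ) : ZMod m))).card ≤
        (range (p ^ (E - 0) / p)).card := by
      apply card_le_card_of_injOn (fun σ => σ.val / p)
      · intro σ _
        rw [mem_coe, mem_range]
        exact Nat.div_lt_div_of_lt_of_dvd hpq (ZMod.val_lt σ)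
      · intro σ hσ σ' hσ' h
        rw [mem_coe, mem_filter] at hσ hσ'
        have h1 : p ∣ (t : ZMod m).val + σ.val * (p ^ 0 * m1) := by
          by_contra hc; exact hσ.2 (hunit σ hc)
        have h2 : p ∣ (t : ZMod m).val + σ'.val * (p ^ 0 * m1) := by
          by_contra hc; exact hσ'.2 (hunit σ' hc)
        rw [pow_zero, one_mul] at h1 h2
        have h3 : (t : ZMod m).val + σ.val * m1 ≡ (t : ZMod m).val + σ'.val * m1 [MOD p] := by
          rw [Nat.ModEq, Nat.mod_eq_zero_of_dvd h1, Nat.mod_eq_zero_of_dvd h2]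
        have h4 : σ.val * m1 ≡ σ'.val * m1 [MOD p] := Nat.ModEq.add_left_cancel' _ h3
        have h5 : σ.val ≡ σ'.val [MOD p] := Nat.ModEq.cancel_right_of_coprime
          ((Nat.Prime.coprime_iff_not_dvd hp).mpr hpm1) h4
        simp only at h
        apply ZMod.val_injective
        have h6 := Nat.div_add_mod σ.val p
        have h7 := Nat.div_add_mod σ'.val p
        rw [← h6, ← h7, h, h5]
    rw [card_range] at hcard
    have h1 : ((p ^ (E - 0) / p : ℕ) : ℝ) = (1 / (p : ℝ)) * ((p ^ (E - 0) : ℕ) : ℝ) := by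
      rw [Nat.cast_div hpq (by exact_mod_cast hp.ne_zero)]
      ring
    rw [← h1]
    exact_mod_cast hcard
  · rw [if_neg hX, zero_mul]
    have : (univ.filter fun σ : ZMod (p ^ (E - X)) =>
        ¬ IsUnit ((t : ZMod m) + (σ.val : ZMod m) * ((p ^ X * m1 : ℕ) : ZMod m))) = ∅ := by
      rw [filter_eq_empty_iff]
      intro σ _ hc
      apply hc
      apply hunit
      intro h
      have h1 : p ∣ σ.val * (p ^ X * m1) :=
        ((dvd_pow_self p hX).mul_right m1).mul_left _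
      exact htp ((Nat.dvd_add_left h1).mp h)
    rw [this]; simp

/-- the multiplier of an entry which is related to the leading entry -/
lemma exists_mult {p E X R Rp : ℕ} (hp : p.Prime) (hRX : ∀ x, p ^ x ≤ R → x ≤ X)
    (hRRp : R ≤ Rp) {a b c s r : ℤ}
    (hs0 : s ≠ 0) (hr0 : r ≠ 0) (hs : |s| ≤ R) (hr : |r| ≤ R)
    (hc : ((p ^ E : ℕ) : ℤ) ∣ a - c * b) (hrel : ((p ^ E : ℕ) : ℤ) ∣ s * a - r * b)
    (hbig : ∀ n : ℕ, 0 < n → ((p ^ E : ℕ) : ℤ) ∣ n * b → Rp < n) :
    ∃ k : ℤ, k ≠ 0 ∧ k.natAbs ≤ BB R ∧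
      ((p ^ (E - X) : ℕ) : ℤ) ∣ ((ordCompl[p] R.factorial : ℕ) : ℤ) * a - k * b := by
  have hp1 := hp.one_lt
  have hb0 : b ≠ 0 := by
    rintro rfl
    have := hbig 1 one_pos (by simp)
    have h2 := hbig 1 one_pos (by simp)
    have h3 : (1 : ℤ) ≤ |s| := Int.one_le_abs hs0
    omega
  -- valuation of `b`
  obtain ⟨v, w, hw, hbw⟩ := Nat.exists_eq_pow_mul_and_not_dvd (Int.natAbs_ne_zero.mpr hb0) p hp.ne_one
  obtain ⟨x, s', hs', hss⟩ := Nat.exists_eq_pow_mul_and_not_dvd (Int.natAbs_ne_zero.mpr hs0) p hp.ne_one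
  have hbdvd : ((p ^ v : ℕ) : ℤ) ∣ b := by
    rw [← Int.dvd_natAbs, hbw]; push_cast; exact dvd_mul_right _ _
  obtain ⟨b', hb'⟩ := hbdvd
  have hpb' : ¬ (p : ℤ) ∣ b' := by
    rintro ⟨u, hu⟩
    apply hw
    have h1 : b.natAbs = p ^ v * (p * u.natAbs) := by
      rw [hb', hu, Int.natAbs_mul, Int.natAbs_mul, Int.natAbs_natCast, Int.natAbs_natCast]
    rw [hbw] at h1
    exact ⟨u.natAbs, Nat.eq_of_mul_eq_mul_left (pow_pos hp.pos v) h1⟩
  have hvE : v < E := by
    by_contra hc'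
    rw [not_lt] at hc'
    have h1 : ((p ^ E : ℕ) : ℤ) ∣ (1 : ℕ) * b := by
      rw [Nat.cast_one, one_mul, hb']
      exact (Int.natCast_dvd_natCast.mpr (pow_dvd_pow p hc')).mul_right _
    have h2 := hbig 1 one_pos h1
    have h3 : (1 : ℤ) ≤ |s| := Int.one_le_abs hs0
    omega
  -- `p ^ (E - v)` is large
  have hbigEv : Rp < p ^ (E - v) := by
    apply hbig _ (pow_pos hp.pos _)
    rw [hb']
    have h1 : ((p ^ (E - v) : ℕ) : ℤ) * (((p ^ v : ℕ) : ℤ) * b') = ((p ^ E : ℕ) : ℤ) * b' := by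
      rw [← mul_assoc]
      congr 1
      have : p ^ (E - v) * p ^ v = p ^ E := by rw [← pow_add]; congr 1; omega
      exact_mod_cast this
    rw [h1]; exact dvd_mul_right _ _
  have hxR : p ^ x ≤ R := by
    have h1 : p ^ x ≤ s.natAbs := by
      rw [hss]
      exact Nat.le_mul_of_pos_right _ (Nat.pos_of_ne_zero (by rintro rfl; exact hs' (dvd_zero p)))
    have h2 : s.natAbs ≤ R := by zify; exact hs
    exact h1.trans h2
  have hxX := hRX x hxR
  have hxEv : x < E - v := by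
    have : p ^ x < p ^ (E - v) := by omega
    exact (Nat.pow_lt_pow_iff_right hp1).mp this
  -- the relation for `c`
  have h1 : ((p ^ E : ℕ) : ℤ) ∣ (s * c - r) * b := by
    have h2 : (s * c - r) * b = (s * a - r * b) - s * (a - c * b) := by ring
    rw [h2]
    exact dvd_sub hrel (hc.mul_left s)
  have h2 : ((p ^ (E - v) : ℕ) : ℤ) ∣ s * c - r := by
    rw [hb'] at h1
    have h3 : ((p ^ E : ℕ) : ℤ) = ((p ^ v : ℕ) : ℤ) * ((p ^ (E - v) : ℕ) : ℤ) := by
      have : p ^ E = p ^ v * p ^ (E - v) := by rw [← pow_add]; congr 1; omega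
      exact_mod_cast this
    rw [h3] at h1
    have h4 : (s * c - r) * (((p ^ v : ℕ) : ℤ) * b') = ((p ^ v : ℕ) : ℤ) * ((s * c - r) * b') := by ring
    rw [h4] at h1
    have h5 : ((p ^ (E - v) : ℕ) : ℤ) ∣ (s * c - r) * b' :=
      (mul_dvd_mul_iff_left (by exact_mod_cast (pow_pos hp.pos v).ne')).mp h1
    have h6 : IsCoprime (((p ^ (E - v) : ℕ) : ℤ)) b' := by
      push_cast
      apply IsCoprime.pow_left
      rw [Int.isCoprime_iff_gcd_eq_one]
      rw [Int.gcd_eq_natAbs, Int.natAbs_natCast]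
      apply (Nat.Prime.coprime_iff_not_dvd hp).mpr
      intro h
      exact hpb' (Int.natCast_dvd.mpr h)
    exact h6.dvd_of_dvd_mul_right h5
  -- split off `p ^ x`
  have hsdvd : ((p ^ x : ℕ) : ℤ) ∣ s := by
    rw [← Int.dvd_natAbs, hss]; push_cast; exact dvd_mul_right _ _
  obtain ⟨s1, hs1⟩ := hsdvd
  have hs1abs : s1.natAbs = s' := by
    have h3 : s.natAbs = p ^ x * s1.natAbs := by
      rw [hs1, Int.natAbs_mul, Int.natAbs_natCast]
    rw [hss] at h3
    exact (Nat.eq_of_mul_eq_mul_left (pow_pos hp.pos x) h3).symm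
  have hrdvd : ((p ^ x : ℕ) : ℤ) ∣ r := by
    have h3 : ((p ^ x : ℕ) : ℤ) ∣ s * c - r :=
      (Int.natCast_dvd_natCast.mpr (pow_dvd_pow p hxEv.le)).trans h2
    have h4 : ((p ^ x : ℕ) : ℤ) ∣ s * c := by rw [hs1, mul_assoc]; exact dvd_mul_right _ _
    exact (dvd_sub_right h4).mp h3
  obtain ⟨r1, hr1⟩ := hrdvd
  have h3 : ((p ^ (E - v - x) : ℕ) : ℤ) ∣ s1 * c - r1 := by
    rw [hs1, hr1] at h2
    have h4 : ((p ^ (E - v) : ℕ) : ℤ) = ((p ^ x : ℕ) : ℤ) * ((p ^ (E - v - x) : ℕ) : ℤ) := by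
      have : p ^ (E - v) = p ^ x * p ^ (E - v - x) := by rw [← pow_add]; congr 1; omega
      exact_mod_cast this
    rw [h4] at h2
    have h5 : ((p ^ x : ℕ) : ℤ) * s1 * c - ((p ^ x : ℕ) : ℤ) * r1 = ((p ^ x : ℕ) : ℤ) * (s1 * c - r1) := by
      ring
    rw [h5] at h2
    exact (mul_dvd_mul_iff_left (by exact_mod_cast (pow_pos hp.pos x).ne')).mp h2
  -- `s1` divides the part of the factorial prime to `p`
  have hs'0 : 0 < s' := Nat.pos_of_ne_zero (by rintro rfl; exact hs' (dvd_zero p))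
  have hs'R : s' ≤ R := by
    have h4 : s' ≤ s.natAbs := by rw [hss]; exact Nat.le_mul_of_pos_left _ (pow_pos hp.pos x)
    have h5 : s.natAbs ≤ R := by zify; exact hs
    exact h4.trans h5
  have hs'L : s' ∣ ordCompl[p] R.factorial := by
    have h4 : s' ∣ R.factorial := Nat.dvd_factorial hs'0 hs'R
    have h5 : s' ∣ ordProj[p] R.factorial * ordCompl[p] R.factorial := by
      rw [Nat.ordProj_mul_ordCompl_eq_self]; exact h4
    have h6 : Nat.Coprime s' (ordProj[p] R.factorial) :=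
      ((Nat.Prime.coprime_iff_not_dvd hp).mpr hs').symm.pow_right _
    exact h6.dvd_of_dvd_mul_left h5
  set L : ℕ := ordCompl[p] R.factorial with hL
  have hLpos : 0 < L := Nat.ordCompl_pos p (Nat.factorial_ne_zero R)
  have hLle : L ≤ R.factorial := Nat.ordCompl_le _ _
  obtain ⟨l, hl⟩ : s1 ∣ (L : ℤ) := by
    rw [← Int.natAbs_dvd, hs1abs]; exact_mod_cast hs'L
  have hl0 : l ≠ 0 := by
    rintro rfl
    rw [mul_zero] at hl
    have : L = 0 := by exact_mod_cast hl
    omega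
  have hr10 : r1 ≠ 0 := by rintro rfl; rw [mul_zero] at hr1; exact hr0 hr1
  refine ⟨l * r1, mul_ne_zero hl0 hr10, ?_, ?_⟩
  · rw [Int.natAbs_mul]
    have h4 : l.natAbs ≤ L := by
      have h5 : L = s1.natAbs * l.natAbs := by
        have := congrArg Int.natAbs hl
        rwa [Int.natAbs_natCast, Int.natAbs_mul] at this
      rw [h5, hs1abs]
      exact Nat.le_mul_of_pos_left _ hs'0
    have h5 : r1.natAbs ≤ R := by
      have h6 : r.natAbs = p ^ x * r1.natAbs := by rw [hr1, Int.natAbs_mul, Int.natAbs_natCast]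
      have h7 : r1.natAbs ≤ r.natAbs := by rw [h6]; exact Nat.le_mul_of_pos_left _ (pow_pos hp.pos x)
      have h8 : r.natAbs ≤ R := by zify; exact hr
      exact h7.trans h8
    unfold BB
    calc l.natAbs * r1.natAbs ≤ R.factorial * R := Nat.mul_le_mul (h4.trans hLle) h5
      _ = R * R.factorial := by ring
  · have h4 : ((L : ℕ) : ℤ) * a - l * r1 * b = (L : ℤ) * (a - c * b) + l * ((s1 * c - r1) * b) := by
      rw [hl]; ring
    rw [h4]
    apply dvd_add
    · exact ((Int.natCast_dvd_natCast.mpr (pow_dvd_pow p (Nat.sub_le E X))).trans hc).mul_left _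
    · apply Dvd.dvd.mul_left
      obtain ⟨u, hu⟩ := h3
      rw [hu, hb']
      have h5 : ((p ^ (E - v - x) : ℕ) : ℤ) * u * (((p ^ v : ℕ) : ℤ) * b') =
          (((p ^ (E - v - x) * p ^ v : ℕ)) : ℤ) * (u * b') := by push_cast; ring
      rw [h5]
      apply Dvd.dvd.mul_right
      rw [← pow_add]
      exact Int.natCast_dvd_natCast.mpr (pow_dvd_pow p (by omega))

end Pool.Agent.J4.H26.Fn
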