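import Pool.Agent.J4.H26.Fn.Ext

/-!
Extraction of a class of entries for one prime: the theorem.
-/

set_option autoImplicit false

namespace Pool.Agent.J4.H26.Fn

open Finset Complex Pool.Agent.H916R2

/-- a small multiple of `a` is divisible by `p ^ E` -/
def Small (p E ρ : ℕ) (a : ℤ) : Prop := ∃ n : ℕ, 0 < n ∧ n ≤ ρ ∧ ((p ^ E : ℕ) : ℤ) ∣ n * a

/-- small multiples of `a` and `b` are congruent modulo `p ^ E` -/
def RelS (p E ρ : ℕ) (a b : ℤ) : Prop := ∃ s r : ℤ, s ≠ 0 ∧ r ≠ 0 ∧ |s| ≤ ρ ∧ |r| ≤ ρ ∧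
  ((p ^ E : ℕ) : ℤ) ∣ s * a - r * b

lemma small_ineq {K H R B S η ρ Ω : ℝ} (hK : 1 ≤ K) (hH : 1 ≤ H) (hR : 1 ≤ R) (hB : 1 ≤ B)
    (hS0 : 0 ≤ S) (hS : S ≤ K) (hη0 : 0 ≤ η) (hη : η * (1000 * K * H ^ 2 * R * B) ≤ 1)
    (hρ : ρ = 7 * K * H) (hΩ : Ω = 1000 * K * H ^ 2 * B) :
    2 * Real.pi * H * (η * S / 2 + S / (4 * ρ)) + 27 * H ^ 2 * S / Ω < 1 := by
  have hπ : Real.pi < 3.1416 := Real.pi_lt_d4
  have hπ0 := Real.pi_pos
  have hK0 : 0 < K := by linarith
  have hH0 : 0 < H := by linarith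
  have hR0 : 0 < R := by linarith
  have hB0 : 0 < B := by linarith
  have h1 : η * S * H ≤ 1 / 1000 := by
    have h2 : η * S * H ≤ η * (K * H) := by
      have : η * S * H ≤ η * K * H :=
        mul_le_mul_of_nonneg_right (mul_le_mul_of_nonneg_left hS hη0) hH0.le
      linarith
    have h3 : K * H ≤ K * H ^ 2 * R * B := by
      have e1 : K * H ≤ K * H ^ 2 := by nlinarith [mul_pos hK0 hH0]
      have e2 : K * H ^ 2 ≤ K * H ^ 2 * R := by nlinarith [mul_pos hK0 (pow_pos hH0 2)]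
      have e3 : K * H ^ 2 * R ≤ K * H ^ 2 * R * B := by
        nlinarith [mul_pos (mul_pos hK0 (pow_pos hH0 2)) hR0]
      linarith
    have h4 : η * (K * H) ≤ η * (K * H ^ 2 * R * B) := mul_le_mul_of_nonneg_left h3 hη0
    nlinarith
  have h2 : H * (S / (4 * ρ)) ≤ 1 / 28 := by
    rw [hρ]
    rw [mul_div_assoc']
    rw [div_le_div_iff₀ (by positivity) (by norm_num)]
    nlinarith [mul_pos hK0 hH0]
  have h3 : 27 * H ^ 2 * S / Ω ≤ 27 / 1000 := by
    rw [hΩ, div_le_div_iff₀ (by positivity) (by norm_num)]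
    have e1 : H ^ 2 * S ≤ H ^ 2 * K := mul_le_mul_of_nonneg_left hS (by positivity)
    have e2 : H ^ 2 * K ≤ H ^ 2 * K * B := by nlinarith [mul_pos (pow_pos hH0 2) hK0]
    nlinarith
  have h4 : 2 * Real.pi * H * (η * S / 2 + S / (4 * ρ)) =
      Real.pi * (η * S * H) + 2 * Real.pi * (H * (S / (4 * ρ))) := by ring
  rw [h4]
  have h5 : Real.pi * (η * S * H) ≤ 3.1416 * (1 / 1000) := by
    apply mul_le_mul hπ.le h1 _ (by norm_num)
    positivity
  have h6 : 2 * Real.pi * (H * (S / (4 * ρ))) ≤ 2 * 3.1416 * (1 / 28) := by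
    apply mul_le_mul (by linarith) h2 _ (by norm_num)
    rw [hρ]; positivity
  linarith

section

variable {m : ℕ} [NeZero m]

omit [NeZero m] in
lemma red_mul_eq_zero {q : ℕ} (n : ℤ) (a : ZMod m) :
    (n : ZMod q) * red q a = 0 ↔ (q : ℤ) ∣ n * (a.val : ℤ) := by
  unfold red
  rw [← ZMod.intCast_zmod_eq_zero_iff_dvd]
  push_cast
  rfl

lemma pow_lift {p E X : ℕ} (hX : X ≤ E) {z : ℤ} (h : ((p ^ (E - X) : ℕ) : ℤ) ∣ z) :
    ((p ^ E : ℕ) : ℤ) ∣ ((p ^ X : ℕ) : ℤ) * z := by
  obtain ⟨w, hw⟩ := h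
  rw [hw, ← mul_assoc]
  have : ((p ^ X : ℕ) : ℤ) * ((p ^ (E - X) : ℕ) : ℤ) = ((p ^ E : ℕ) : ℤ) := by
    have : p ^ X * p ^ (E - X) = p ^ E := by rw [← pow_add]; congr 1; omega
    exact_mod_cast this
  rw [this]
  exact dvd_mul_right _ _

/-- **Extraction of a class: the vanishing sums of roots of unity.** -/
theorem extract_vanish {m1 p E K R : ℕ} (hp : p.Prime) (hm : p ^ E * m1 = m) (hpm1 : ¬ p ∣ m1)
    (hR : 0 < R) (hK : 0 < K) {I : Type*} [DecidableEq I] {S : Finset I} (hSK : S.card ≤ K)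
    {a : I → ZMod m} (ha : ∀ i ∈ S, a i ≠ 0)
    (hrel : ∀ t : (ZMod m)ˣ, ∑ i ∈ S, saw ((t : ZMod m) * a i) = 0)
    {i0 : I} (hi0 : i0 ∈ S)
    (hlead : ∀ i ∈ S, ∃ c : ℤ, ((p ^ E : ℕ) : ℤ) ∣ ((a i).val : ℤ) - c * (a i0).val)
    (hbig : ¬ Small p E (Phi K R) (a i0).val)
    (hgp : p ≤ Phi K R → p ≤ R)
    (hgs : ∀ i ∈ S, Small p E (Phi K R) (a i).val → Small p E R (a i).val)
    (hgr : ∀ i ∈ S, RelS p E (Phi K R) (a i).val (a i0).val → RelS p E R (a i).val (a i0).val) :
    ∃ C ⊆ S, i0 ∈ C ∧ ∃ k : I → ℤ, (∀ i ∈ C, k i ≠ 0 ∧ (k i).natAbs ≤ BB R) ∧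
      ∀ h : ℕ, 1 ≤ h → h ≤ HH K R →
        ∑ i ∈ C.filter (fun i => k i ∣ (h : ℤ)), (k i : ℂ) * psi m (((h : ℤ) / k i : ℤ) * a i) = 0 := by
  classical
  -- constants
  set B := BB R with hB
  set H := HH K R with hH
  have hB1 : 1 ≤ B := BB_pos hR
  have hH1 : 1 ≤ H := Nat.mul_pos hK hB1
  have hRB : R ≤ B := by
    rw [hB]; unfold BB; exact Nat.le_mul_of_pos_right _ R.factorial_pos
  have hPhi : Phi K R = 1000 * K * H ^ 2 * R * B := rfl
  have hfB : R * R.factorial = B := rfl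
  have hN2 : R * (R * H) ≤ Phi K R := by
    rw [hPhi]
    calc R * (R * H) ≤ B * (R * H) := Nat.mul_le_mul_right _ hRB
      _ = 1 * H * R * B := by ring
      _ ≤ (1000 * K * H) * H * R * B := by
        apply Nat.mul_le_mul_right
        apply Nat.mul_le_mul_right
        apply Nat.mul_le_mul_right
        exact Nat.mul_pos (Nat.mul_pos (by norm_num) hK) hH1
      _ = _ := by ring
  have hN1 : R * H ≤ Phi K R := le_trans (Nat.le_mul_of_pos_left _ hR) hN2
  have hRPhi : R ≤ Phi K R := le_trans (Nat.le_mul_of_pos_right _ hH1) hN1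
  have hN5 : R * (H + 7 * K * H * B) ≤ Phi K R := by
    rw [hPhi]
    have h1 : H ≤ K * H * B := by
      calc H = 1 * H * 1 := by ring
        _ ≤ K * H * B := Nat.mul_le_mul (Nat.mul_le_mul_right _ hK) hB1
    calc R * (H + 7 * K * H * B) ≤ R * (K * H * B + 7 * K * H * B) := by
          apply Nat.mul_le_mul_left; omega
      _ = (8 * 1) * K * H * R * B := by ring
      _ ≤ (1000 * H) * K * H * R * B := by
        apply Nat.mul_le_mul_right
        apply Nat.mul_le_mul_right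
        apply Nat.mul_le_mul_right
        apply Nat.mul_le_mul_right
        exact Nat.mul_le_mul (by norm_num) hH1
      _ = _ := by ring
  have hN3 : B * (7 * K * H) ≤ Phi K R := by
    refine le_trans ?_ hN5
    calc B * (7 * K * H) = 1 * (7 * K * H * B) := by ring
      _ ≤ R * (7 * K * H * B) := Nat.mul_le_mul_right _ hR
      _ ≤ _ := by apply Nat.mul_le_mul_left; omega
  set X := Nat.log p R with hX
  have hRX : ∀ x, p ^ x ≤ R → x ≤ X := fun x hx => Nat.le_log_of_pow_le hp.one_lt hx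
  have hpX : p ^ X ≤ R := Nat.pow_log_le_self p hR.ne'
  have hbig' : ∀ n : ℕ, 0 < n → ((p ^ E : ℕ) : ℤ) ∣ n * ((a i0).val : ℤ) → Phi K R < n := by
    intro n hn hd
    by_contra hc
    exact hbig ⟨n, hn, not_lt.mp hc, hd⟩
  have hPE : Phi K R < p ^ E := by
    apply hbig' _ (pow_pos hp.pos E)
    exact dvd_mul_right _ _
  have hXE : X < E := by
    have : p ^ X < p ^ E := by omega
    exact (Nat.pow_lt_pow_iff_right hp.one_lt).mp this
  set q := p ^ (E - X) with hq
  have hq0 : NeZero q := ⟨(pow_pos hp.pos _).ne'⟩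
  have hqs : q * (p ^ X * m1) = m := by
    rw [← mul_assoc, hq, ← pow_add, Nat.sub_add_cancel hXE.le, hm]
  set L : ℕ := ordCompl[p] R.factorial with hL
  have hL0 : 0 < L := Nat.ordCompl_pos p (Nat.factorial_ne_zero R)
  have hLR : L ≤ R.factorial := Nat.ordCompl_le _ _
  have hLcop : Nat.Coprime L q := by
    rw [hq]
    exact (Nat.coprime_ordCompl hp (Nat.factorial_ne_zero R)).symm.pow_right _
  obtain ⟨Lu, hLu⟩ : IsUnit (L : ZMod q) := by rw [ZMod.isUnit_iff_coprime]; exact hLcop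
  set β : ZMod q := ((Lu⁻¹ : (ZMod q)ˣ) : ZMod q) * red q (a i0) with hβ
  have hLβ : (L : ZMod q) * β = red q (a i0) := by
    rw [hβ, ← hLu, ← mul_assoc, Units.mul_inv, one_mul]
  -- multiples of `β` which vanish
  have hβzero : ∀ n : ℤ, n ≠ 0 → (n : ZMod q) * β = 0 → Phi K R < p ^ X * n.natAbs := by
    intro n hn h
    have h1 : (n : ZMod q) * red q (a i0) = 0 := by
      rw [← hLβ]
      have : (n : ZMod q) * ((L : ZMod q) * β) = (L : ZMod q) * ((n : ZMod q) * β) := by ring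
      rw [this, h, mul_zero]
    rw [red_mul_eq_zero] at h1
    have h2 := pow_lift hXE.le h1
    apply hbig' _ (Nat.mul_pos (pow_pos hp.pos X) (Int.natAbs_pos.mpr hn))
    have h3 : ((p ^ X : ℕ) : ℤ) * (n * ((a i0).val : ℤ)) ∣
        ((p ^ X * n.natAbs : ℕ) : ℤ) * ((a i0).val : ℤ) := by
      push_cast
      rw [← mul_assoc]
      apply mul_dvd_mul_right
      apply mul_dvd_mul_left
      exact (dvd_abs n n).mpr dvd_rfl
    exact h2.trans h3
  -- the class
  set C : Finset I := S.filter fun i => ¬ Small p E R (a i).val ∧ RelS p E R (a i).val (a i0).val with hC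
  have hCS : C ⊆ S := filter_subset _ _
  have hi0C : i0 ∈ C := by
    rw [hC, mem_filter]
    refine ⟨hi0, fun h => hbig ?_, 1, 1, one_ne_zero, one_ne_zero, ?_, ?_, ?_⟩
    · obtain ⟨n, h1, h2, h3⟩ := h
      exact ⟨n, h1, h2.trans hRPhi, h3⟩
    · rw [abs_one]; exact_mod_cast hR
    · rw [abs_one]; exact_mod_cast hR
    · simp
  have hmult : ∀ i, ∃ k : ℤ, i ∈ C → (k ≠ 0 ∧ k.natAbs ≤ B ∧ red q (a i) = (k : ZMod q) * β) := by
    intro i
    by_cases hi : i ∈ C
    · have hi' := hi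
      rw [hC, mem_filter] at hi'
      obtain ⟨hiS, -, s, r, hs0, hr0, hs, hr, hrl⟩ := hi'
      obtain ⟨c, hc⟩ := hlead i hiS
      obtain ⟨k, hk0, hkB, hk⟩ := exists_mult hp hRX hRPhi hs0 hr0 hs hr hc hrl hbig'
      refine ⟨k, fun _ => ⟨hk0, hkB, ?_⟩⟩
      have h1 : (L : ZMod q) * red q (a i) = (k : ZMod q) * red q (a i0) := by
        have h2 := (ZMod.intCast_zmod_eq_zero_iff_dvd _ _).mpr hk
        push_cast at h2
        have h3 := sub_eq_zero.mp h2
        unfold red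
        exact_mod_cast h3
      have h2 : red q (a i) = ((Lu⁻¹ : (ZMod q)ˣ) : ZMod q) * ((L : ZMod q) * red q (a i)) := by
        rw [← hLu, ← mul_assoc, Units.inv_mul, one_mul]
      rw [h2, h1, hβ]; ring
    · exact ⟨0, fun h => absurd h hi⟩
  choose k hk using hmult
  refine ⟨C, hCS, hi0C, k, fun i hi => ⟨(hk i hi).1, (hk i hi).2.1⟩, ?_⟩
  · intro h h1 h2
    have hρpos : (0 : ℝ) < 7 * K * H := by
      have : (0 : ℝ) < K := by exact_mod_cast hK
      have : (0 : ℝ) < H := by exact_mod_cast hH1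
      positivity
    have hΩpos : (0 : ℝ) < 1000 * K * H ^ 2 * B := by
      have : (0 : ℝ) < K := by exact_mod_cast hK
      have : (0 : ℝ) < H := by exact_mod_cast hH1
      have : (0 : ℝ) < B := by exact_mod_cast hB1
      positivity
    have hR' : (0 : ℝ) < R := by exact_mod_cast hR
    have hΩPhi : (1000 * K * H ^ 2 * B : ℝ) * R = (Phi K R : ℝ) := by
      rw [hPhi]; push_cast; ring
    refine core (η := if X = 0 then 1 / (p : ℝ) else 0) (ρ := 7 * K * H)
      (Ω := 1000 * K * H ^ 2 * B) hp hq hqs ha hrel ?_ hCS k (fun i hi => (hk i hi).1) β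
      (fun i hi => (hk i hi).2.2) hρpos hΩpos ?_ ?_ ?_ ?_ ?_ h1 h2
    · intro t
      exact exc_card hp hm hpm1 hXE t
    · -- multiples of `β`
      intro h' h1' h2' h0
      have h3 := hβzero h' (by exact_mod_cast (by omega : h' ≠ 0)) (by exact_mod_cast h0)
      rw [Int.natAbs_natCast] at h3
      have h4 : p ^ X * h' ≤ R * H := Nat.mul_le_mul hpX h2'
      omega
    · -- far
      intro h' h1' h2' i hiS hnot r hr
      by_contra hcon
      rw [not_le] at hcon
      have hrlt : r.natAbs < 7 * K * H := by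
        have : ((r.natAbs : ℕ) : ℝ) = |(r : ℝ)| := by rw [Nat.cast_natAbs]; push_cast; rfl
        have h3 : ((r.natAbs : ℕ) : ℝ) < ((7 * K * H : ℕ) : ℝ) := by
          rw [this]; push_cast; exact hcon
        exact_mod_cast h3
      by_cases hiC : i ∈ C
      · have hki : ¬ k i ∣ (h' : ℤ) := fun hd => hnot ⟨hiC, hd⟩
        have h3 : (((h' : ℤ) - r * k i : ℤ) : ZMod q) * β = 0 := by
          push_cast
          rw [sub_mul, hr, (hk i hiC).2.2]; ring
        have h4 : ((h' : ℤ) - r * k i) ≠ 0 := by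
          intro h0
          apply hki
          exact ⟨r, by linarith⟩
        have h5 := hβzero _ h4 h3
        have h6 : ((h' : ℤ) - r * k i).natAbs ≤ h' + r.natAbs * (k i).natAbs := by
          refine (Int.natAbs_sub_le _ _).trans ?_
          rw [Int.natAbs_natCast, Int.natAbs_mul]
        have h7 : h' + r.natAbs * (k i).natAbs ≤ H + 7 * K * H * B :=
          Nat.add_le_add h2' (Nat.mul_le_mul hrlt.le (hk i hiC).2.1)
        have h8 : p ^ X * ((h' : ℤ) - r * k i).natAbs ≤ R * (H + 7 * K * H * B) :=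
          Nat.mul_le_mul hpX (h6.trans h7)
        omega
      · -- the relation
        have hr0 : r ≠ 0 := by
          rintro rfl
          rw [Int.cast_zero, zero_mul] at hr
          have h3 := hβzero h' (by exact_mod_cast (by omega : h' ≠ 0)) (by exact_mod_cast hr)
          rw [Int.natAbs_natCast] at h3
          have h4 : p ^ X * h' ≤ R * H := Nat.mul_le_mul hpX h2'
          omega
        have h3 : ((h' : ℤ) : ZMod q) * red q (a i0) = ((r * L : ℤ) : ZMod q) * red q (a i) := by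
          rw [← hLβ]
          have : ((h' : ℤ) : ZMod q) * ((L : ZMod q) * β) = (L : ZMod q) * ((h' : ZMod q) * β) := by
            push_cast; ring
          rw [this, hr]; push_cast; ring
        have h4 : ((p ^ (E - X) : ℕ) : ℤ) ∣ (r * L) * ((a i).val : ℤ) - h' * ((a i0).val : ℤ) := by
          rw [← ZMod.intCast_zmod_eq_zero_iff_dvd]
          have h5 := sub_eq_zero.mpr h3.symm
          unfold red at h5
          push_cast at h5 ⊢
          exact h5
        have h5 := pow_lift hXE.le h4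
        have h6 : ((p ^ X : ℕ) : ℤ) * ((r * L) * ((a i).val : ℤ) - h' * ((a i0).val : ℤ)) =
            (((p ^ X : ℕ) : ℤ) * (r * L)) * ((a i).val : ℤ) - (((p ^ X : ℕ) : ℤ) * h') * ((a i0).val : ℤ) := by
          ring
        rw [h6] at h5
        have hpX0 : ((p ^ X : ℕ) : ℤ) ≠ 0 := by exact_mod_cast (pow_pos hp.pos X).ne'
        have hs1 : ((p ^ X : ℕ) : ℤ) * (r * L) ≠ 0 :=
          mul_ne_zero hpX0 (mul_ne_zero hr0 (by exact_mod_cast hL0.ne'))
        have hs2 : ((p ^ X : ℕ) : ℤ) * (h' : ℤ) ≠ 0 :=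
          mul_ne_zero hpX0 (by exact_mod_cast (by omega : h' ≠ 0))
        have hb1 : |((p ^ X : ℕ) : ℤ) * (r * L)| ≤ Phi K R := by
          have e1 : |((p ^ X : ℕ) : ℤ) * (r * L)| = ((p ^ X * (r.natAbs * L) : ℕ) : ℤ) := by
            rw [abs_mul, abs_mul]
            push_cast
            rw [abs_of_nonneg (by positivity : (0 : ℤ) ≤ (p : ℤ) ^ X),
              abs_of_nonneg (by positivity : (0 : ℤ) ≤ (L : ℤ))]
          rw [e1]
          have e2 : p ^ X * (r.natAbs * L) ≤ Phi K R := by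
            calc p ^ X * (r.natAbs * L) ≤ R * ((7 * K * H) * R.factorial) :=
                  Nat.mul_le_mul hpX (Nat.mul_le_mul hrlt.le hLR)
              _ = B * (7 * K * H) := by rw [← hfB]; ring
              _ ≤ _ := hN3
          exact_mod_cast e2
        have hb2 : |((p ^ X : ℕ) : ℤ) * (h' : ℤ)| ≤ Phi K R := by
          have e1 : |((p ^ X : ℕ) : ℤ) * (h' : ℤ)| = ((p ^ X * h' : ℕ) : ℤ) := by
            rw [abs_of_nonneg (by positivity)]; push_cast; ring
          rw [e1]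
          have e2 : p ^ X * h' ≤ Phi K R := (Nat.mul_le_mul hpX h2').trans hN1
          exact_mod_cast e2
        have h7 := hgr i hiS ⟨_, _, hs1, hs2, hb1, hb2, h5⟩
        have h8 : Small p E R (a i).val := by
          by_contra hns
          apply hiC
          rw [hC, mem_filter]
          exact ⟨hiS, hns, h7⟩
        obtain ⟨n, hn0, hnR, hn⟩ := h8
        have h9 : ((p ^ E : ℕ) : ℤ) ∣ ((n * (p ^ X * h') : ℕ) : ℤ) * ((a i0).val : ℤ) := by
          have e1 : ((n * (p ^ X * h') : ℕ) : ℤ) * ((a i0).val : ℤ) =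
              (((p ^ X : ℕ) : ℤ) * (r * L)) * (n * ((a i).val : ℤ)) -
              n * ((((p ^ X : ℕ) : ℤ) * (r * L)) * ((a i).val : ℤ) -
                (((p ^ X : ℕ) : ℤ) * h') * ((a i0).val : ℤ)) := by
            push_cast; ring
          rw [e1]
          exact dvd_sub (hn.mul_left _) (h5.mul_left _)
        have h10 := hbig' _ (Nat.mul_pos hn0 (Nat.mul_pos (pow_pos hp.pos X) (by omega))) h9
        have h11 : n * (p ^ X * h') ≤ R * (R * H) :=
          Nat.mul_le_mul hnR (Nat.mul_le_mul hpX h2')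
        omega
    · -- orders
      intro i hi n hn0 hn
      have hi' := hi
      rw [hC, mem_filter] at hi'
      have h3 : ((n : ℤ) : ZMod q) * red q (a i) = 0 := by push_cast; exact hn
      rw [red_mul_eq_zero] at h3
      have h4 := pow_lift hXE.le h3
      have h5 : Phi K R < p ^ X * n := by
        by_contra hcon
        rw [not_lt] at hcon
        apply hi'.2.1
        apply hgs i hi'.1
        refine ⟨p ^ X * n, Nat.mul_pos (pow_pos hp.pos X) hn0, hcon, ?_⟩
        have : ((p ^ X * n : ℕ) : ℤ) * ((a i).val : ℤ) = ((p ^ X : ℕ) : ℤ) * (n * ((a i).val : ℤ)) := by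
          push_cast; ring
        rw [this]; exact h4
      have h6 : Phi K R < R * n := lt_of_lt_of_le h5 (Nat.mul_le_mul_right _ hpX)
      have h7 : (Phi K R : ℝ) < R * n := by exact_mod_cast h6
      rw [← hΩPhi] at h7
      nlinarith
    · -- `2 π H ≤ Ω`
      have e1 : (1 : ℝ) ≤ K := by exact_mod_cast hK
      have e2 : (1 : ℝ) ≤ H := by exact_mod_cast hH1
      have e3 : (1 : ℝ) ≤ B := by exact_mod_cast hB1
      have hπ : Real.pi < 3.1416 := Real.pi_lt_d4
      have e4 : (H : ℝ) ≤ K * H ^ 2 * B := by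
        have f1 : (H : ℝ) ≤ H ^ 2 := by nlinarith
        have f2 : (H : ℝ) ^ 2 ≤ K * H ^ 2 := by nlinarith [sq_nonneg (H : ℝ)]
        have f3 : (K : ℝ) * H ^ 2 ≤ K * H ^ 2 * B := by
          nlinarith [mul_nonneg (by linarith : (0 : ℝ) ≤ K) (sq_nonneg (H : ℝ))]
        linarith
      nlinarith
    · -- the error
      have e1 : (1 : ℝ) ≤ K := by exact_mod_cast hK
      have e2 : (1 : ℝ) ≤ H := by exact_mod_cast hH1
      have e3 : (1 : ℝ) ≤ B := by exact_mod_cast hB1
      have e4 : (1 : ℝ) ≤ R := by exact_mod_cast hR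
      have e5 : ((S.card : ℕ) : ℝ) ≤ K := Nat.cast_le.mpr hSK
      refine small_ineq (R := R) e1 e2 e4 e3 (Nat.cast_nonneg _) e5 ?_ ?_ rfl rfl
      · split_ifs <;> positivity
      · split_ifs with hX0
        · have hpR : R < p := by
            by_contra hcon
            rw [not_lt] at hcon
            have := hRX 1 (by rw [pow_one]; exact hcon)
            omega
          have hpPhi : Phi K R < p := by
            by_contra hcon
            rw [not_lt] at hcon
            have := hgp hcon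
            omega
          have h3 : (1000 * K * H ^ 2 * R * B : ℝ) = (Phi K R : ℝ) := by
            rw [← hΩPhi]; ring
          rw [h3]
          have h4 : (Phi K R : ℝ) ≤ p := by exact_mod_cast hpPhi.le
          have hp0 : (0 : ℝ) < p := by exact_mod_cast hp.pos
          rw [one_div, inv_mul_le_iff₀ hp0, mul_one]
          exact h4
        · rw [zero_mul]; norm_num

/-- **Extraction of a class.** -/
theorem extract {m1 p E K R : ℕ} (hp : p.Prime) (hm : p ^ E * m1 = m) (hpm1 : ¬ p ∣ m1)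
    (hR : 0 < R) (hK : 0 < K) {I : Type*} [DecidableEq I] {S : Finset I} (hSK : S.card ≤ K)
    {a : I → ZMod m} (ha : ∀ i ∈ S, a i ≠ 0)
    (hrel : ∀ t : (ZMod m)ˣ, ∑ i ∈ S, saw ((t : ZMod m) * a i) = 0)
    (hdiv : ∀ k : ℕ, 0 < k → k ≤ BB R → k ∣ m ∧ ∀ i ∈ S, ∃ y0, a i = (k : ZMod m) * y0)
    {i0 : I} (hi0 : i0 ∈ S)
    (hlead : ∀ i ∈ S, ∃ c : ℤ, ((p ^ E : ℕ) : ℤ) ∣ ((a i).val : ℤ) - c * (a i0).val)
    (hbig : ¬ Small p E (Phi K R) (a i0).val)
    (hgp : p ≤ Phi K R → p ≤ R)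
    (hgs : ∀ i ∈ S, Small p E (Phi K R) (a i).val → Small p E R (a i).val)
    (hgr : ∀ i ∈ S, RelS p E (Phi K R) (a i).val (a i0).val → RelS p E R (a i).val (a i0).val) :
    ∃ C ⊆ S, i0 ∈ C ∧ ∀ (Q : Type) [AddCommGroup Q] (c : ZMod m → Q), OddDist c →
      ∑ i ∈ C, c (a i) = 0 := by
  obtain ⟨C, hCS, hi0C, k, hk, hv⟩ := extract_vanish hp hm hpm1 hR hK hSK ha hrel hi0 hlead hbig
    hgp hgs hgr
  refine ⟨C, hCS, hi0C, ?_⟩
  intro Q _ c hc
  apply class_killed hc C k a (fun i hi => (hk i hi).1)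
    (fun i hi => (hdiv _ (Int.natAbs_pos.mpr (hk i hi).1) (hk i hi).2).1)
    (fun i hi => (hdiv _ (Int.natAbs_pos.mpr (hk i hi).1) (hk i hi).2).2 i (hCS hi)) (H := HH K R)
  · calc ∑ i ∈ C, (k i).natAbs ≤ ∑ _i ∈ C, BB R := sum_le_sum fun i hi => (hk i hi).2
      _ = C.card * BB R := by rw [sum_const, smul_eq_mul]
      _ ≤ K * BB R := Nat.mul_le_mul_right _ ((card_le_card hCS).trans hSK)
      _ = HH K R := rfl
  · exact hv

end

end Pool.Agent.J4.H26.Fn
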