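import Pool.Agent.J4.H26.Fn.Four

/-!
Fourier sums at elements which are not small multiples.
-/

set_option autoImplicit false

namespace Pool.Agent.J4.H26.Fn

open Finset Complex

/-- the generator of the ideal of an element -/
lemma exists_gen {p f q : ℕ} (hp : p.Prime) (hq : q = p ^ f) [NeZero q] {b : ZMod q} (hb : b ≠ 0) :
    ∃ (g : ℕ) (h u : ZMod q), 0 < g ∧ g < q ∧ g ∣ q ∧ h * b = (g : ZMod q) ∧ b = (g : ZMod q) * u ∧
      h * u = 1 := by
  have hv : b.val ≠ 0 := fun h => hb ((ZMod.val_eq_zero b).mp h)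
  obtain ⟨v, w, hw, hbw⟩ := Nat.exists_eq_pow_mul_and_not_dvd hv p hp.ne_one
  have hwcop : Nat.Coprime w q := by
    rw [hq]
    exact ((Nat.Prime.coprime_iff_not_dvd hp).mpr hw).symm.pow_right f
  have hu : IsUnit (w : ZMod q) := by rw [ZMod.isUnit_iff_coprime]; exact hwcop
  obtain ⟨u, hu⟩ := hu
  have hw0 : 0 < w := Nat.pos_of_ne_zero (by rintro rfl; exact hw (dvd_zero p))
  have hlt : p ^ v < q := by
    calc p ^ v ≤ p ^ v * w := Nat.le_mul_of_pos_right _ hw0
      _ = b.val := hbw.symm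
      _ < q := ZMod.val_lt b
  have hvf : v ≤ f := by
    rw [hq] at hlt
    exact ((Nat.pow_lt_pow_iff_right hp.one_lt).mp hlt).le
  have hbu : b = ((p ^ v : ℕ) : ZMod q) * (u : ZMod q) := by
    rw [hu]
    calc b = ((b.val : ℕ) : ZMod q) := (ZMod.natCast_zmod_val b).symm
      _ = _ := by rw [hbw]; push_cast; ring
  refine ⟨p ^ v, ((u⁻¹ : (ZMod q)ˣ) : ZMod q), (u : ZMod q), pow_pos hp.pos v, hlt, ?_, ?_, hbu, ?_⟩
  · rw [hq]; exact pow_dvd_pow p hvf
  · have h1 : ((u⁻¹ : (ZMod q)ˣ) : ZMod q) * (u : ZMod q) = 1 := by simp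
    rw [hbu]
    linear_combination ((p ^ v : ℕ) : ZMod q) * h1
  · simp

/-- multiples of `g` have small representatives which are multiples of `g` -/
lemma exists_small {q g : ℕ} [NeZero q] (hgq : g ∣ q) (c : ZMod q) :
    ∃ r : ℤ, (g : ZMod q) * c = ((g * r : ℤ) : ZMod q) ∧ |((g * r : ℤ) : ℝ)| ≤ q / 2 := by
  set n := ((g : ZMod q) * c).valMinAbs with hn
  have h1 : ((n : ℤ) : ZMod q) = (g : ZMod q) * c := ZMod.coe_valMinAbs _
  have h2 : (g : ℤ) ∣ n := by
    have h3 : ((n - g * (c.val : ℤ) : ℤ) : ZMod q) = 0 := by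
      push_cast
      rw [h1, ZMod.natCast_zmod_val, sub_self]
    rw [ZMod.intCast_zmod_eq_zero_iff_dvd] at h3
    have h4 : (g : ℤ) ∣ n - g * (c.val : ℤ) := (Int.natCast_dvd_natCast.mpr hgq).trans h3
    exact (dvd_sub_left (dvd_mul_right _ _)).mp h4
  obtain ⟨r, hr⟩ := h2
  refine ⟨r, ?_, ?_⟩
  · rw [← hr, h1]
  · rw [← hr]
    have h5 := ZMod.natAbs_valMinAbs_le ((g : ZMod q) * c)
    rw [← hn] at h5
    have h6 : (n.natAbs : ℝ) ≤ (q / 2 : ℕ) := by exact_mod_cast h5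
    have h7 : ((q / 2 : ℕ) : ℝ) ≤ (q : ℝ) / 2 := Nat.cast_div_le
    rw [Nat.cast_natAbs] at h6
    push_cast at h6 ⊢
    linarith

theorem SS_far {p f q : ℕ} (hp : p.Prime) (hq : q = p ^ f) [NeZero q] (b : ZMod q) (θ : ℝ)
    {k : ZMod q} (hk : k ≠ 0) :
    SS q b θ k = 0 ∨ ∃ r : ℤ, k = (r : ZMod q) * b ∧ ‖SS q b θ k‖ * (4 * |(r : ℝ)|) ≤ q := by
  have hq0 : (0 : ℝ) < q := by exact_mod_cast NeZero.pos q
  by_cases hb : b = 0
  · left
    have h1 := SS_shift b θ k
    unfold SS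
    subst hb
    have h2 : ∀ τ : ZMod q, (gs q θ (τ * 0) : ℂ) * psi q (-(τ * k)) =
        (gs q θ 0 : ℂ) * psi q (-(τ * k)) := fun τ => by rw [mul_zero]
    rw [sum_congr rfl fun τ _ => h2 τ, ← mul_sum, psi_sum hk, mul_zero]
  obtain ⟨g, h, u, hg0, hgq, hgd, hhb, hbu, hhu⟩ := exists_gen hp hq hb
  have hg0' : (0 : ℝ) < g := by exact_mod_cast hg0
  by_cases hgk : g ∣ k.val
  · right
    obtain ⟨k1, hk1⟩ := hgk
    obtain ⟨r, hr1, hr2⟩ := exists_small hgd (h * (k1 : ZMod q))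
    have hkk : k = (g : ZMod q) * (k1 : ZMod q) := by
      calc k = ((k.val : ℕ) : ZMod q) := (ZMod.natCast_zmod_val k).symm
        _ = _ := by rw [hk1]; push_cast; ring
    have hhk : h * k = ((g * r : ℤ) : ZMod q) := by rw [← hr1, hkk]; ring
    refine ⟨r, ?_, ?_⟩
    · have : k = u * (h * k) := by linear_combination (-k) * hhu
      rw [this, hhk, hbu]; push_cast; ring
    · have h1 := SS_bound θ hk hgq.le hhb
      rw [hhk, psi_intCast] at h1
      have h2 : |(((g * r : ℤ) : ℝ) / q)| ≤ 1 / 2 := by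
        rw [abs_div, abs_of_pos hq0, div_le_iff₀ hq0]; linarith
      have h3 := ex_lower h2
      have h4 : ‖SS q b θ k‖ * (4 * |(((g * r : ℤ) : ℝ) / q)|) ≤ g :=
        (mul_le_mul_of_nonneg_left h3 (norm_nonneg _)).trans h1
      rw [abs_div, abs_of_pos hq0] at h4
      push_cast at h4
      rw [abs_mul, abs_of_pos hg0'] at h4
      have h5 : ‖SS q b θ k‖ * (4 * (g * |(r : ℝ)| / q)) =
          (‖SS q b θ k‖ * (4 * |(r : ℝ)|)) * (g / q) := by ring
      rw [h5] at h4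
      have h6 : (‖SS q b θ k‖ * (4 * |(r : ℝ)|)) * g ≤ g * q := by
        have := mul_le_mul_of_nonneg_right h4 hq0.le
        rw [mul_assoc, div_mul_cancel₀ _ hq0.ne'] at this
        exact this
      nlinarith
  · left
    obtain ⟨g', hg'⟩ := hgd
    have h1 : ((g' : ℕ) : ZMod q) * b = 0 := by
      rw [hbu, ← mul_assoc]
      have : ((g' : ℕ) : ZMod q) * (g : ZMod q) = 0 := by
        have h2 : ((g' * g : ℕ) : ZMod q) = 0 := by
          rw [mul_comm, ← hg']; simp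
        simpa using h2
      rw [this, zero_mul]
    have h2 := SS_shift b θ k (g' : ZMod q)
    rw [h1] at h2
    have h3 : ∀ τ : ZMod q, ((gs q θ (τ * b + 0) - gs q θ (τ * b) : ℝ) : ℂ) * psi q (-(τ * k)) = 0 := by
      intro τ; rw [add_zero, sub_self]; simp
    rw [sum_congr rfl fun τ _ => h3 τ, sum_const_zero, mul_eq_zero] at h2
    rcases h2 with h2 | h2
    · exact h2
    · exfalso
      rw [sub_eq_zero] at h2
      have h4 : psi q ((g' : ZMod q) * k) = psi q 0 := by rw [h2, psi_zero]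
      have h5 := psi_injective h4
      have h6 : ((g' * k.val : ℕ) : ZMod q) = 0 := by
        push_cast; rw [ZMod.natCast_zmod_val]; exact h5
      rw [ZMod.natCast_eq_zero_iff] at h6
      have hg'0 : 0 < g' := Nat.pos_of_ne_zero (by rintro rfl; simp at hg'; omega)
      have h7 : g' * g ∣ g' * k.val := by
        have : g' * g = q := by rw [mul_comm]; exact hg'.symm
        rw [this]; exact h6
      exact hgk (Nat.dvd_of_mul_dvd_mul_left hg'0 h7)

end Pool.Agent.J4.H26.Fn
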