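import Pool.Agent.J4.H26.Fn.Iter

/-!
The finiteness theorem: all Hodge characters with a bounded number of entries come from one level.
-/

set_option autoImplicit false

namespace Pool.Agent.J4.H26.Fn

open Finset Complex Pool.Agent.H916R2

lemma Phi_one_ge {K : ℕ} (hK : 0 < K) : 2 ≤ Phi K 1 := by
  have hB1 : 1 ≤ BB 1 := BB_pos one_pos
  have hH1 : 1 ≤ HH K 1 := Nat.mul_pos hK hB1
  have h1 : 1 ≤ HH K 1 ^ 2 := Nat.one_le_pow _ _ hH1
  unfold Phi
  have h2 : 1000 * 1 * 1 * 1 * 1 ≤ 1000 * K * HH K 1 ^ 2 * 1 * BB 1 := by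
    gcongr
    exact hK
  omega

lemma two_le_thr {K : ℕ} (hK : 0 < K) : 2 ≤ thr K := by
  refine (Phi_one_ge hK).trans ?_
  have : scale K 1 = Phi K 1 := rfl
  rw [← this]
  exact scale_mono hK (by omega)

lemma le_BB {R : ℕ} : R ≤ BB R := by
  rcases Nat.eq_zero_or_pos R with rfl | hR
  · exact Nat.zero_le _
  · unfold BB
    exact Nat.le_mul_of_pos_right R (Nat.factorial_pos R)

lemma level_pos (K : ℕ) : 0 < level K := Nat.factorial_pos _

lemma factor_pos (K : ℕ) : 0 < factor K := Nat.factorial_pos _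

lemma level_dvd_factor (K : ℕ) : level K ∣ factor K := Nat.factorial_dvd_factorial le_BB

lemma two_dvd_level {K : ℕ} (hK : 0 < K) : 2 ∣ level K :=
  Nat.dvd_factorial two_pos (two_le_thr hK)

lemma dvd_of_small {M T : ℕ} (hM : M ≠ 0) {x : ℕ}
    (h : ∀ p ∈ M.primeFactors, Small p (M.factorization p) T (x : ℤ)) : M ∣ T.factorial * x := by
  rw [Nat.dvd_iff_prime_pow_dvd_dvd]
  intro p k hp hk
  rcases Nat.eq_zero_or_pos k with rfl | hk0
  · simp
  have hpM : p ∣ M := (dvd_pow_self p hk0.ne').trans hk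
  have hmem : p ∈ M.primeFactors := Nat.mem_primeFactors.mpr ⟨hp, hpM, hM⟩
  obtain ⟨n, h1, h2, h3⟩ := h p hmem
  have h4 : k ≤ M.factorization p := (hp.pow_dvd_iff_le_factorization hM).mp hk
  have h5 : p ^ (M.factorization p) ∣ n * x := by exact_mod_cast h3
  refine (pow_dvd_pow p h4).trans (h5.trans ?_)
  exact Nat.mul_dvd_mul_right (Nat.dvd_factorial h1 h2) x

/-- an element of `ZMod M` killed by `L` comes from level `L` -/
lemma eq_iota_of_dvd {M L : ℕ} [NeZero M] [NeZero L] (hLM : L ∣ M) {a : ZMod M}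
    (h : M ∣ L * a.val) : ∃ w : ZMod L, a = iota (M / L) w := by
  obtain ⟨d, hd⟩ := hLM
  have hL := NeZero.pos L
  have hM := NeZero.pos M
  have hd0 : 0 < d := Nat.pos_of_ne_zero (by rintro rfl; omega)
  have hdiv : M / L = d := by rw [hd]; exact Nat.mul_div_cancel_left _ hL
  have h1 : d ∣ a.val := by
    have : L * d ∣ L * a.val := by rw [← hd]; exact h
    exact Nat.dvd_of_mul_dvd_mul_left hL this
  obtain ⟨w, hw⟩ := h1
  have hwL : w < L := by
    have h2 := ZMod.val_lt a
    rw [hw, hd, Nat.mul_comm L d] at h2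
    exact Nat.lt_of_mul_lt_mul_left h2
  refine ⟨(w : ZMod L), ?_⟩
  rw [hdiv]
  unfold iota
  rw [ZMod.val_natCast_of_lt hwL, ← hw, ZMod.natCast_zmod_val]

lemma sum_univ_val {J Y Q : Type*} [AddCommMonoid Q] (S : Finset J) (b : J → Y) (g : Y → Q) :
    ((S.val.map b).map g).sum = ∑ i ∈ S, g (b i) := by
  rw [Multiset.map_map]; rfl

/-- The finiteness theorem. -/
theorem finiteness {K : ℕ} (hK : 0 < K) (hKe : Even K) {m : ℕ} [NeZero m]
    (s : Multiset (ZMod m)) (hs : IsHodge m s) (hne : s ≠ 0) (hcard : Multiset.card s ≤ K) :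
    Generated (factor K * m)
      (fun u => FromLevel (factor K * m) (level K) u ∧ Multiset.card u ≤ K)
      (s.map (iota (factor K))) := by
  classical
  set κ := factor K with hκ
  set L := level K with hL
  set M := κ * m with hM
  have hκ0 : 0 < κ := factor_pos K
  have hL0 : NeZero L := ⟨(level_pos K).ne'⟩
  have hM0 : NeZero M := ⟨(Nat.mul_pos hκ0 (NeZero.pos m)).ne'⟩
  have hLM : L ∣ M := (level_dvd_factor K).mul_right m
  have hML : M / L * L = M := Nat.div_mul_cancel hLM
  set base : Multiset (ZMod M) → Prop :=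
    fun u => FromLevel M L u ∧ Multiset.card u ≤ K with hbase
  -- the tuple
  obtain ⟨l, rfl⟩ := Quot.exists_rep s
  change IsHodge m (l : Multiset (ZMod m)) at hs
  change (l : Multiset (ZMod m)) ≠ 0 at hne
  change Multiset.card (l : Multiset (ZMod m)) ≤ K at hcard
  change Generated M base ((l : Multiset (ZMod m)).map (iota κ))
  let b : Fin l.length → ZMod m := fun i => l.get i
  have hbl : (univ.val.map b : Multiset (ZMod m)) = (l : Multiset (ZMod m)) := by
    rw [Fin.univ_val_map, List.ofFn_get]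
  let a : Fin l.length → ZMod M := fun i => iota κ (b i)
  have hb0 : ∀ i, b i ≠ 0 := by
    intro i h
    apply hs.1
    rw [← hbl, ← h]
    exact Multiset.mem_map_of_mem b (mem_univ i)
  have ha0 : ∀ i, a i ≠ 0 := fun i h => hb0 i (iota_eq_zero hM.symm h)
  have hS : (univ : Finset (Fin l.length)).card ≤ K := by
    rw [card_univ, Fintype.card_fin]
    simpa using hcard
  have hrel : ∀ t : (ZMod M)ˣ, ∑ i, saw ((t : ZMod M) * a i) = 0 := by
    intro t
    have h1 := (hs.iota (m := M) (k := κ) hM.symm).saw_sum t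
    rw [← hbl, Multiset.map_map, Multiset.map_map] at h1
    exact h1
  have hdiv : ∀ k : ℕ, 0 < k → k ≤ BB (thr K) →
      k ∣ M ∧ ∀ i ∈ (univ : Finset (Fin l.length)), ∃ y0, a i = (k : ZMod M) * y0 := by
    intro k hk0 hk
    have h1 : k ∣ κ := Nat.dvd_factorial hk0 hk
    refine ⟨h1.mul_right m, fun i _ => ?_⟩
    obtain ⟨d, hd⟩ := h1
    refine ⟨((d * (b i).val : ℕ) : ZMod M), ?_⟩
    change ((κ * (b i).val : ℕ) : ZMod M) = _
    rw [hd]
    push_cast
    ring
  obtain ⟨J, _, hJ1, hJ2⟩ := all_primes hK M.primeFactors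
    (fun p hp => (Nat.mem_primeFactors.mp hp).1) univ hS (fun i _ => ha0 i) hrel hdiv
  -- the remaining entries come from level L
  have hw : ∀ i ∈ J, ∃ w : ZMod L, a i = iota (M / L) w := by
    intro i hi
    apply eq_iota_of_dvd hLM
    exact dvd_of_small (NeZero.ne M) fun p hp => hJ1 p hp i hi
  choose! w hw using hw
  set v : Multiset (ZMod L) := J.val.map w with hv
  have hvmap : v.map (iota (M / L) : ZMod L → ZMod M) = J.val.map a := by
    rw [hv, Multiset.map_map]
    apply Multiset.map_congr rfl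
    intro i hi
    exact (hw i hi).symm
  have hv0 : (0 : ZMod L) ∉ v := by
    intro h
    rw [hv, Multiset.mem_map] at h
    obtain ⟨i, hi, hi0⟩ := h
    apply ha0 i
    rw [hw i hi, hi0]
    unfold iota
    simp
  have hvsaw : ∀ t : (ZMod L)ˣ, (v.map fun x => saw ((t : ZMod L) * x)).sum = 0 := by
    intro t
    obtain ⟨τ, hτ⟩ := ZMod.unitsMap_surjective hLM t
    have h1 := sum_sdiff (f := fun i => saw ((τ : ZMod M) * a i)) (subset_univ J)
    rw [hrel τ, hJ2 ℤ _ (saw_oddDist τ), zero_add] at h1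
    have h2 : ∑ i ∈ J, saw ((τ : ZMod M) * a i) =
        ((M / L : ℕ) : ℤ) * ∑ i ∈ J, saw ((t : ZMod L) * w i) := by
      rw [mul_sum]
      refine sum_congr rfl fun i hi => ?_
      rw [hw i hi, unit_iota hML, saw_iota hML]
      rw [show (ZMod.unitsMap (Dvd.intro_left (M / L) hML : L ∣ M) τ : (ZMod L)ˣ) = t from hτ]
    rw [h2] at h1
    have h3 : ((M / L : ℕ) : ℤ) ≠ 0 := by
      have : M / L ≠ 0 := by
        intro h
        rw [h, zero_mul] at hML
        exact NeZero.ne M hML.symm
      exact_mod_cast this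
    rcases mul_eq_zero.mp h1 with h4 | h4
    · exact absurd h4 h3
    · rw [hv, sum_univ_val]; exact h4
  have hvcard : Multiset.card v ≤ K := by
    rw [hv, Multiset.card_map]
    exact (card_le_card (subset_univ J)).trans hS
  -- the value of the universal function on the remaining entries
  have hval : ∑ i ∈ J, cQ M base (a i) = 0 := by
    rw [← sum_univ_val J a (cQ M base), ← hvmap]
    by_cases hev : Even (Multiset.card v)
    · apply cQ_sum_eq_zero
      apply Generated.ofBase
      refine ⟨⟨v, isHodge_of_saw hv0 hev hvsaw, rfl⟩, ?_⟩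
      rw [Multiset.card_map]; exact hvcard
    · have hL2 : 2 ∣ L := two_dvd_level hK
      set h : ZMod L := ((L / 2 : ℕ) : ZMod L) with hh
      have hhh : h + h = 0 := by
        have : ((2 * (L / 2) : ℕ) : ZMod L) = 0 := by rw [Nat.mul_div_cancel' hL2]; simp
        rw [hh, ← two_mul]; push_cast at this; exact this
      have hh0 : h ≠ 0 := by
        intro h'
        rw [hh, ZMod.natCast_eq_zero_iff] at h'
        have hmp := NeZero.pos L
        have h5 : 0 < L / 2 := Nat.div_pos (Nat.le_of_dvd hmp hL2) (by norm_num)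
        have := Nat.le_of_dvd h5 h'
        omega
      have hodd := Nat.not_even_iff_odd.mp hev
      have h1 : Generated M base ((h ::ₘ v).map (iota (M / L) : ZMod L → ZMod M)) := by
        apply Generated.ofBase
        refine ⟨⟨h ::ₘ v, isHodge_of_saw ?_ ?_ ?_, rfl⟩, ?_⟩
        · rw [Multiset.mem_cons, not_or]; exact ⟨Ne.symm hh0, hv0⟩
        · rw [Multiset.card_cons]; exact hodd.add_one
        · intro t
          rw [Multiset.map_cons, Multiset.sum_cons, hvsaw t, add_zero]
          apply saw_half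
          rw [← mul_add, hhh, mul_zero]
        · rw [Multiset.card_map, Multiset.card_cons]
          rcases hvcard.lt_or_eq with h2 | h2
          · exact h2
          · exact absurd (h2 ▸ hKe) hev
      have h2 := cQ_sum_eq_zero h1
      rw [Multiset.map_cons, Multiset.map_cons, Multiset.sum_cons] at h2
      have h3 : cQ M base (iota (M / L) h) = 0 := by
        apply (cQ_oddDist (m := M) (base := base)).half
        rw [← iota_add hML, hhh]
        unfold iota
        simp
      rw [h3, zero_add] at h2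
      exact h2
  have htot : (((l : Multiset (ZMod m)).map (iota κ : ZMod m → ZMod M)).map (cQ M base)).sum = 0 := by
    rw [← hbl, Multiset.map_map, sum_univ_val]
    have h1 := sum_sdiff (f := fun i => cQ M base (a i)) (subset_univ J)
    rw [hval, hJ2 _ _ cQ_oddDist, add_zero] at h1
    exact h1.symm
  rw [cQ_sum, QuotientAddGroup.eq_zero_iff] at htot
  refine generated_of_mem_LL ?_ ?_ ?_ ?_ ?_ htot
  · rintro u ⟨⟨u0, hu0, rfl⟩, _⟩
    exact ⟨(hu0.iota (m := M) (k := M / L) hML).1, (hu0.iota (m := M) (k := M / L) hML).2.1⟩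
  · rintro u ⟨⟨u0, hu0, rfl⟩, hu⟩
    refine ⟨⟨u0.map Neg.neg, hu0.neg, ?_⟩, ?_⟩
    · rw [Multiset.map_map, Multiset.map_map]
      apply Multiset.map_congr rfl
      intro x _
      exact (iota_neg hML x).symm
    · rw [Multiset.card_map]; exact hu
  · exact (hs.iota (m := M) (k := κ) hM.symm).1
  · exact (hs.iota (m := M) (k := κ) hM.symm).2.1
  · intro h
    exact hne (Multiset.map_eq_zero.mp h)

end Pool.Agent.J4.H26.Fn
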