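import Mathlib

/-!
Fourier sums of sawtooth functions on `ZMod q`.
-/

set_option autoImplicit false

namespace Pool.Agent.J4.H26.Fn

open Finset Complex

/-- `exp (2 π i x)` -/
noncomputable def ex (x : ℝ) : ℂ := Complex.exp (Complex.I * ((2 * Real.pi * x : ℝ) : ℂ))

lemma ex_add (x y : ℝ) : ex (x + y) = ex x * ex y := by
  unfold ex; rw [← Complex.exp_add]; congr 1; push_cast; ring

lemma ex_zero : ex 0 = 1 := by unfold ex; simp

lemma ex_int (n : ℤ) : ex n = 1 := by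
  unfold ex
  rw [Complex.exp_eq_one_iff]
  exact ⟨n, by push_cast; ring⟩

lemma norm_ex (x : ℝ) : ‖ex x‖ = 1 := by
  unfold ex
  rw [mul_comm]
  exact Complex.norm_exp_ofReal_mul_I _

lemma ex_ne_zero (x : ℝ) : ex x ≠ 0 := by
  unfold ex; exact Complex.exp_ne_zero _

lemma ex_neg (x : ℝ) : ex (-x) = (ex x)⁻¹ := by
  have h := ex_add x (-x)
  rw [add_neg_cancel, ex_zero] at h
  exact eq_inv_of_mul_eq_one_right h.symm

lemma ex_sub (x y : ℝ) : ex (x - y) = ex x * ex (-y) := by rw [sub_eq_add_neg, ex_add]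

lemma ex_of_sub_int {x y : ℝ} (n : ℤ) (h : x = y + n) : ex x = ex y := by
  rw [h, ex_add, ex_int, mul_one]

lemma ex_upper (x : ℝ) : ‖ex x - 1‖ ≤ 2 * Real.pi * |x| := by
  unfold ex
  have h := Real.norm_exp_I_mul_ofReal_sub_one_le (x := 2 * Real.pi * x)
  rw [Real.norm_eq_abs, abs_mul, abs_of_pos Real.two_pi_pos] at h
  exact h

lemma ex_lower {x : ℝ} (hx : |x| ≤ 1 / 2) : 4 * |x| ≤ ‖ex x - 1‖ := by
  unfold ex
  rw [Complex.norm_exp_I_mul_ofReal_sub_one]
  have h1 : 2 * Real.pi * x / 2 = Real.pi * x := by ring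
  rw [h1, norm_mul, Real.norm_eq_abs, Real.norm_eq_abs, abs_two]
  have h2 : |Real.sin (Real.pi * x)| = Real.sin (Real.pi * |x|) := by
    rcases abs_cases x with ⟨h, h'⟩ | ⟨h, h'⟩
    · rw [h, abs_of_nonneg]
      apply Real.sin_nonneg_of_nonneg_of_le_pi
      · positivity
      · rw [h] at hx; nlinarith [Real.pi_pos]
    · rw [h, mul_neg, Real.sin_neg]
      have h3 : 0 ≤ Real.sin (-(Real.pi * x)) := by
        apply Real.sin_nonneg_of_nonneg_of_le_pi
        · nlinarith [Real.pi_pos]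
        · rw [h] at hx; nlinarith [Real.pi_pos]
      rw [Real.sin_neg] at h3
      rw [abs_of_nonpos (by linarith)]
  rw [h2]
  have h3 := Real.mul_le_sin (x := Real.pi * |x|) (by positivity) (by nlinarith [Real.pi_pos])
  have h4 : 2 / Real.pi * (Real.pi * |x|) = 2 * |x| := by
    field_simp
  rw [h4] at h3
  linarith

lemma ex_quad {x : ℝ} (hx : 2 * Real.pi * |x| ≤ 1) :
    ‖ex x - 1 - Complex.I * ((2 * Real.pi * x : ℝ) : ℂ)‖ ≤ (2 * Real.pi * |x|) ^ 2 := by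
  unfold ex
  have h1 : ‖Complex.I * ((2 * Real.pi * x : ℝ) : ℂ)‖ = 2 * Real.pi * |x| := by
    rw [norm_mul, Complex.norm_I, one_mul, Complex.norm_real, Real.norm_eq_abs, abs_mul,
      abs_of_pos Real.two_pi_pos]
  have h2 := Complex.norm_exp_sub_one_sub_id_le (x := Complex.I * ((2 * Real.pi * x : ℝ) : ℂ))
    (by rw [h1]; exact hx)
  rw [h1] at h2
  exact h2

/-- the standard character of `ZMod q` -/
noncomputable def psi (q : ℕ) (x : ZMod q) : ℂ := ex ((x.val : ℝ) / q)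

lemma psi_intCast {q : ℕ} [NeZero q] (n : ℤ) : psi q (n : ZMod q) = ex ((n : ℝ) / q) := by
  unfold psi
  have hq : (q : ℝ) ≠ 0 := by exact_mod_cast NeZero.ne q
  have h1 : (((n : ZMod q).val : ℤ)) = n % q := by
    rw [ZMod.val_intCast]
  have h2 := Int.emod_add_mul_ediv n q
  symm
  apply ex_of_sub_int (n / (q : ℤ))
  have h3 : (n : ℝ) = (((n : ZMod q).val : ℤ) : ℝ) + (q : ℝ) * ((n / (q : ℤ) : ℤ) : ℝ) := by
    rw [h1]; exact_mod_cast h2.symm
  rw [h3]
  push_cast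
  field_simp

lemma psi_add {q : ℕ} [NeZero q] (x y : ZMod q) : psi q (x + y) = psi q x * psi q y := by
  have h1 : x + y = ((x.val + y.val : ℤ) : ZMod q) := by
    push_cast; rw [ZMod.natCast_zmod_val, ZMod.natCast_zmod_val]
  rw [h1, psi_intCast]
  unfold psi
  rw [← ex_add]
  congr 1
  push_cast; ring

lemma psi_zero {q : ℕ} : psi q 0 = 1 := by
  unfold psi; simp [ex_zero]

lemma norm_psi {q : ℕ} (x : ZMod q) : ‖psi q x‖ = 1 := norm_ex _

lemma psi_ne_zero {q : ℕ} (x : ZMod q) : psi q x ≠ 0 := ex_ne_zero _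

lemma psi_neg {q : ℕ} [NeZero q] (x : ZMod q) : psi q (-x) = (psi q x)⁻¹ := by
  have h := psi_add x (-x)
  rw [add_neg_cancel, psi_zero] at h
  exact eq_inv_of_mul_eq_one_right h.symm

lemma psi_eq_stdAddChar {q : ℕ} [NeZero q] (x : ZMod q) : psi q x = ZMod.stdAddChar x := by
  have h1 : x = ((x.val : ℤ) : ZMod q) := by
    push_cast; rw [ZMod.natCast_zmod_val]
  conv_rhs => rw [h1]
  rw [ZMod.stdAddChar_coe]
  unfold psi ex
  congr 1
  push_cast; ring

lemma psi_injective {q : ℕ} [NeZero q] : Function.Injective (psi q) := by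
  intro x y h
  rw [psi_eq_stdAddChar, psi_eq_stdAddChar] at h
  exact ZMod.injective_stdAddChar h

lemma psi_sum {q : ℕ} [NeZero q] {k : ZMod q} (hk : k ≠ 0) : ∑ τ : ZMod q, psi q (-(τ * k)) = 0 := by
  have h1 : ∀ τ : ZMod q, psi q (-(τ * k)) = ZMod.stdAddChar (τ * (-k)) := by
    intro τ; rw [psi_eq_stdAddChar]; congr 1; ring
  rw [sum_congr rfl fun τ _ => h1 τ, AddChar.sum_mulShift _ (ZMod.isPrimitive_stdAddChar q),
    if_neg (neg_ne_zero.mpr hk)]
  simp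

/-- the sawtooth with a shift -/
noncomputable def gs (q : ℕ) (θ : ℝ) (x : ZMod q) : ℝ := Int.fract ((x.val : ℝ) / q + θ) - 1 / 2

lemma gs_abs {q : ℕ} (θ : ℝ) (x : ZMod q) : |gs q θ x| ≤ 1 / 2 := by
  unfold gs
  have h1 := Int.fract_nonneg ((x.val : ℝ) / q + θ)
  have h2 := Int.fract_lt_one ((x.val : ℝ) / q + θ)
  rw [abs_le]; constructor <;> linarith

/-- the indicator of a wrap -/
noncomputable def wr (q : ℕ) (θ : ℝ) (g : ℕ) (x : ZMod q) : ℝ :=
  if 1 ≤ Int.fract ((x.val : ℝ) / q + θ) + (g : ℝ) / q then 1 else 0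

lemma gs_step {q : ℕ} [NeZero q] (θ : ℝ) {g : ℕ} (hg : g ≤ q) (x : ZMod q) :
    gs q θ (x + (g : ZMod q)) - gs q θ x = (g : ℝ) / q - wr q θ g x := by
  have hq : (0 : ℝ) < q := by exact_mod_cast NeZero.pos q
  unfold gs wr
  have h1 : x + (g : ZMod q) = ((x.val + g : ℕ) : ZMod q) := by
    push_cast; rw [ZMod.natCast_zmod_val]
  have h2 : (((x + (g : ZMod q)).val : ℕ) : ℝ) / q = (x.val : ℝ) / q + g / q -
      (((x.val + g) / q : ℕ) : ℝ) := by
    rw [h1, ZMod.val_natCast]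
    have h3 := Nat.mod_add_div (x.val + g) q
    have h4 : (((x.val + g) % q : ℕ) : ℝ) + (q : ℝ) * (((x.val + g) / q : ℕ) : ℝ) =
        (x.val : ℝ) + g := by exact_mod_cast h3
    field_simp
    linarith
  set y := (x.val : ℝ) / q + θ with hy
  have h5 : (((x + (g : ZMod q)).val : ℕ) : ℝ) / q + θ = y + g / q - (((x.val + g) / q : ℕ) : ℤ) := by
    rw [h2, hy, Int.cast_natCast]; ring
  have h6 : Int.fract ((((x + (g : ZMod q)).val : ℕ) : ℝ) / q + θ) = Int.fract (y + g / q) := by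
    rw [h5, Int.fract_sub_intCast]
  rw [h6]
  have h7 : (0 : ℝ) ≤ (g : ℝ) / q := by positivity
  have h8 : (g : ℝ) / q ≤ 1 := by
    rw [div_le_one hq]; exact_mod_cast hg
  have h9 := Int.fract_nonneg y
  have h10 := Int.fract_lt_one y
  split_ifs with h
  · have : Int.fract (y + g / q) = Int.fract y + g / q - 1 := by
      rw [Int.fract_eq_iff]
      refine ⟨by linarith, by linarith, ⌊y⌋ + 1, ?_⟩
      have := Int.self_sub_floor y
      push_cast
      linarith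
    rw [this]; ring
  · have : Int.fract (y + g / q) = Int.fract y + g / q := by
      rw [Int.fract_eq_iff]
      refine ⟨by linarith, by linarith, ⌊y⌋, ?_⟩
      have := Int.self_sub_floor y
      linarith
    rw [this]; ring

/-- the Fourier sum -/
noncomputable def SS (q : ℕ) [NeZero q] (b : ZMod q) (θ : ℝ) (k : ZMod q) : ℂ :=
  ∑ τ : ZMod q, (gs q θ (τ * b) : ℂ) * psi q (-(τ * k))

lemma SS_trivial {q : ℕ} [NeZero q] (b : ZMod q) (θ : ℝ) (k : ZMod q) : ‖SS q b θ k‖ ≤ q / 2 := by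
  unfold SS
  refine (norm_sum_le _ _).trans ?_
  calc ∑ τ : ZMod q, ‖(gs q θ (τ * b) : ℂ) * psi q (-(τ * k))‖ ≤ ∑ _τ : ZMod q, (1 / 2 : ℝ) := by
        apply sum_le_sum
        intro τ _
        rw [norm_mul, norm_psi, mul_one, Complex.norm_real, Real.norm_eq_abs]
        exact gs_abs _ _
    _ = q / 2 := by
        rw [sum_const, card_univ, ZMod.card, nsmul_eq_mul]; ring

lemma SS_shift {q : ℕ} [NeZero q] (b : ZMod q) (θ : ℝ) (k h : ZMod q) :
    SS q b θ k * (psi q (h * k) - 1) =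
      ∑ τ : ZMod q, ((gs q θ (τ * b + h * b) - gs q θ (τ * b) : ℝ) : ℂ) * psi q (-(τ * k)) := by
  have h1 : SS q b θ k * psi q (h * k) =
      ∑ τ : ZMod q, (gs q θ (τ * b + h * b) : ℂ) * psi q (-(τ * k)) := by
    unfold SS
    rw [sum_mul]
    refine Fintype.sum_equiv (Equiv.subRight h) _ _ fun τ => ?_
    simp only [Equiv.subRight_apply]
    have e1 : (τ - h) * b + h * b = τ * b := by ring
    have e2 : -((τ - h) * k) = -(τ * k) + h * k := by ring
    rw [e1, e2, psi_add, mul_assoc]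
  rw [mul_sub, mul_one, h1]
  unfold SS
  rw [← sum_sub_distrib]
  refine sum_congr rfl fun τ _ => ?_
  push_cast; ring

lemma SS_step {q : ℕ} [NeZero q] {b h : ZMod q} (θ : ℝ) {k : ZMod q} (hk : k ≠ 0) {g : ℕ}
    (hg : g ≤ q) (hb : h * b = (g : ZMod q)) :
    SS q b θ k * (psi q (h * k) - 1) =
      - ∑ τ : ZMod q, (wr q θ g (τ * b) : ℂ) * psi q (-(τ * k)) := by
  rw [SS_shift, hb]
  have h1 : ∀ τ : ZMod q, ((gs q θ (τ * b + (g : ZMod q)) - gs q θ (τ * b) : ℝ) : ℂ) *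
      psi q (-(τ * k)) = ((g : ℂ) / q) * psi q (-(τ * k)) -
        (wr q θ g (τ * b) : ℂ) * psi q (-(τ * k)) := by
    intro τ
    rw [gs_step θ hg]
    push_cast; ring
  rw [sum_congr rfl fun τ _ => h1 τ, sum_sub_distrib, ← mul_sum, psi_sum hk]
  ring

lemma wr_sum {q : ℕ} [NeZero q] {b h : ZMod q} (θ : ℝ) {g : ℕ}
    (hg : g ≤ q) (hb : h * b = (g : ZMod q)) : ∑ τ : ZMod q, wr q θ g (τ * b) = g := by
  have hq : (q : ℝ) ≠ 0 := by exact_mod_cast NeZero.ne q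
  have h1 : ∑ τ : ZMod q, (gs q θ (τ * b + h * b) - gs q θ (τ * b)) = 0 := by
    rw [sum_sub_distrib, sub_eq_zero]
    refine Fintype.sum_equiv (Equiv.addRight h) _ _ fun τ => ?_
    simp only [Equiv.coe_addRight]
    congr 1; ring
  rw [hb] at h1
  rw [sum_congr rfl fun τ _ => gs_step θ hg (τ * b), sum_sub_distrib, sum_const, card_univ,
    ZMod.card, nsmul_eq_mul, mul_div_cancel₀ _ hq] at h1
  linarith

lemma wr_nonneg {q : ℕ} (θ : ℝ) (g : ℕ) (x : ZMod q) : 0 ≤ wr q θ g x := by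
  unfold wr; split_ifs <;> norm_num

lemma SS_bound {q : ℕ} [NeZero q] {b h : ZMod q} (θ : ℝ) {k : ZMod q} (hk : k ≠ 0) {g : ℕ}
    (hg : g ≤ q) (hb : h * b = (g : ZMod q)) :
    ‖SS q b θ k‖ * ‖psi q (h * k) - 1‖ ≤ g := by
  rw [← norm_mul, SS_step θ hk hg hb, norm_neg]
  refine (norm_sum_le _ _).trans ?_
  rw [← wr_sum θ hg hb]
  apply sum_le_sum
  intro τ _
  rw [norm_mul, norm_psi, mul_one, Complex.norm_real, Real.norm_eq_abs,
    abs_of_nonneg (wr_nonneg _ _ _)]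

/-- the approximate value of the Fourier sum at a small multiple of `b` -/
theorem SS_main {q : ℕ} [NeZero q] {b h : ZMod q} (θ : ℝ) {g : ℕ} (hg0 : 0 < g)
    (hg : g ≤ q) (hb : h * b = (g : ZMod q)) {r : ℤ} (hr : r ≠ 0)
    (hsmall : 2 * Real.pi * |(r : ℝ)| * g ≤ q) :
    ‖SS q b θ ((r : ZMod q) * b) * (Complex.I * ((2 * Real.pi * r / q : ℝ) : ℂ)) +
      ex (r * θ)‖ ≤ 27 * (r : ℝ) ^ 2 * g / q := by
  have hq : (0 : ℝ) < q := by exact_mod_cast NeZero.pos q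
  have hg0' : (0 : ℝ) < g := by exact_mod_cast hg0
  have hr1 : (1 : ℝ) ≤ |(r : ℝ)| := by
    have : (1 : ℤ) ≤ |r| := Int.one_le_abs hr
    exact_mod_cast this
  set k : ZMod q := (r : ZMod q) * b with hk
  have hhk : h * k = ((r * g : ℤ) : ZMod q) := by
    rw [hk]; push_cast
    rw [← hb]; ring
  -- `k` is not zero
  have hk0 : k ≠ 0 := by
    intro h0
    rw [h0, mul_zero] at hhk
    have h1 := hhk.symm
    rw [ZMod.intCast_zmod_eq_zero_iff_dvd] at h1
    have h2 : (r * g : ℤ) ≠ 0 := mul_ne_zero hr (by exact_mod_cast hg0.ne')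
    have h3 := Int.le_of_dvd (abs_pos.mpr h2) ((dvd_abs _ _).mpr h1)
    have h4 : (q : ℝ) ≤ |(r : ℝ)| * g := by
      rw [abs_mul] at h3
      have h5 : ((q : ℤ) : ℝ) ≤ ((|r| * |(g : ℤ)| : ℤ) : ℝ) := by exact_mod_cast h3
      push_cast at h5
      rwa [abs_of_pos hg0'] at h5
    have h6 : (3 : ℝ) < Real.pi := Real.pi_gt_three
    nlinarith [mul_pos (lt_of_lt_of_le zero_lt_one hr1) hg0']
  have hstep := SS_step θ hk0 hg hb
  have hpsi : psi q (h * k) = ex ((r : ℝ) * g / q) := by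
    rw [hhk, psi_intCast]; congr 1; push_cast; ring
  rw [hpsi] at hstep
  -- the sum over the wraps
  have hwsum : ‖∑ τ : ZMod q, (wr q θ g (τ * b) : ℂ) * psi q (-(τ * k)) - g * ex (r * θ)‖ ≤
      g * (2 * Real.pi * (|(r : ℝ)| * (g / q))) := by
    have h1 : (g : ℂ) * ex (r * θ) = ∑ τ : ZMod q, (wr q θ g (τ * b) : ℂ) * ex (r * θ) := by
      rw [← sum_mul]
      congr 1
      have := wr_sum θ hg hb
      exact_mod_cast this.symm
    rw [h1, ← sum_sub_distrib]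
    refine (norm_sum_le _ _).trans ?_
    have h2 : (g : ℝ) * (2 * Real.pi * (|(r : ℝ)| * (g / q))) =
        ∑ τ : ZMod q, wr q θ g (τ * b) * (2 * Real.pi * (|(r : ℝ)| * (g / q))) := by
      rw [← sum_mul, wr_sum θ hg hb]
    rw [h2]
    apply sum_le_sum
    intro τ _
    rw [← mul_sub, norm_mul, Complex.norm_real, Real.norm_eq_abs, abs_of_nonneg (wr_nonneg _ _ _)]
    by_cases hw : 1 ≤ Int.fract (((τ * b).val : ℝ) / q + θ) + (g : ℝ) / q
    · apply mul_le_mul_of_nonneg_left _ (wr_nonneg _ _ _)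
      set x := τ * b with hx
      set y := (x.val : ℝ) / q + θ with hy
      have h3 : -(τ * k) = ((-(r * (x.val : ℤ)) : ℤ) : ZMod q) := by
        rw [hk]; push_cast; rw [ZMod.natCast_zmod_val, hx]; ring
      rw [h3, psi_intCast]
      set δ := 1 - Int.fract y with hδ
      have hδ0 : 0 ≤ δ := by rw [hδ]; linarith [Int.fract_lt_one y]
      have hδ1 : δ ≤ g / q := by rw [hδ]; linarith
      have h4 : ex ((((-(r * (x.val : ℤ)) : ℤ)) : ℝ) / q) = ex (r * θ) * ex (r * δ) := by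
        rw [← ex_add]
        apply ex_of_sub_int (-(r * (⌊y⌋ + 1)))
        have h5 : (x.val : ℝ) / q = y - θ := by rw [hy]; ring
        have h6 : Int.fract y = y - ⌊y⌋ := rfl
        push_cast
        have h7 : -((r : ℝ) * (x.val : ℝ)) / q = -(r * ((x.val : ℝ) / q)) := by ring
        rw [h7, h5, hδ, h6]; ring
      rw [h4]
      have h5 : ex (r * θ) * ex (r * δ) - ex (r * θ) = ex (r * θ) * (ex (r * δ) - 1) := by ring
      rw [h5, norm_mul, norm_ex, one_mul]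
      refine (ex_upper _).trans ?_
      apply mul_le_mul_of_nonneg_left _ Real.two_pi_pos.le
      rw [abs_mul]
      apply mul_le_mul_of_nonneg_left _ (abs_nonneg _)
      rw [abs_of_nonneg hδ0]
      exact hδ1
    · have : wr q θ g (τ * b) = 0 := by unfold wr; rw [if_neg hw]
      rw [this, zero_mul, zero_mul]
  set W := ∑ τ : ZMod q, (wr q θ g (τ * b) : ℂ) * psi q (-(τ * k)) with hW
  set S := SS q b θ k with hS
  have hStriv : ‖S‖ ≤ q / 2 := SS_trivial b θ k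
  set x : ℝ := (r : ℝ) * g / q with hx
  have hxabs : |x| = |(r : ℝ)| * g / q := by
    rw [hx, abs_div, abs_mul, abs_of_pos hg0', abs_of_pos hq]
  have hx1 : 2 * Real.pi * |x| ≤ 1 := by
    rw [hxabs]
    have : 2 * Real.pi * (|(r : ℝ)| * g / q) = (2 * Real.pi * |(r : ℝ)| * g) / q := by ring
    rw [this, div_le_one hq]
    exact hsmall
  have hquad := ex_quad hx1
  have key : ‖S * (Complex.I * ((2 * Real.pi * x : ℝ) : ℂ)) + g * ex (r * θ)‖ ≤
      q / 2 * (2 * Real.pi * |x|) ^ 2 + g * (2 * Real.pi * (|(r : ℝ)| * (g / q))) := by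
    have h1 : S * (Complex.I * ((2 * Real.pi * x : ℝ) : ℂ)) + g * ex (r * θ) =
        -(S * (ex x - 1 - Complex.I * ((2 * Real.pi * x : ℝ) : ℂ))) - (W - g * ex (r * θ)) := by
      have : S * (ex x - 1) = - W := hstep
      linear_combination this
    rw [h1]
    refine (norm_sub_le _ _).trans ?_
    rw [norm_neg, norm_mul]
    exact add_le_add (mul_le_mul hStriv hquad (norm_nonneg _) (by positivity)) hwsum
  have h1 : S * (Complex.I * ((2 * Real.pi * r / q : ℝ) : ℂ)) + ex (r * θ) =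
      (g : ℂ)⁻¹ * (S * (Complex.I * ((2 * Real.pi * x : ℝ) : ℂ)) + g * ex (r * θ)) := by
    have hgc : (g : ℂ) ≠ 0 := by exact_mod_cast hg0.ne'
    have hqc : (q : ℂ) ≠ 0 := by exact_mod_cast (NeZero.ne q)
    rw [hx]
    push_cast
    field_simp
  rw [h1, norm_mul, norm_inv, Complex.norm_natCast]
  have h2 : (g : ℝ)⁻¹ * ‖S * (Complex.I * ((2 * Real.pi * x : ℝ) : ℂ)) + g * ex (r * θ)‖ ≤
      (g : ℝ)⁻¹ * (q / 2 * (2 * Real.pi * |x|) ^ 2 + g * (2 * Real.pi * (|(r : ℝ)| * (g / q)))) :=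
    mul_le_mul_of_nonneg_left key (by positivity)
  refine h2.trans ?_
  rw [hxabs]
  have h3 : (g : ℝ)⁻¹ * (q / 2 * (2 * Real.pi * (|(r : ℝ)| * g / q)) ^ 2 +
      g * (2 * Real.pi * (|(r : ℝ)| * (g / q)))) =
      (2 * Real.pi ^ 2 * |(r : ℝ)| ^ 2 + 2 * Real.pi * |(r : ℝ)|) * (g / q) := by
    field_simp
  rw [h3]
  have h4 : 27 * (r : ℝ) ^ 2 * g / q = (27 * |(r : ℝ)| ^ 2) * (g / q) := by
    rw [sq_abs]; ring
  rw [h4]
  apply mul_le_mul_of_nonneg_right _ (by positivity)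
  have h5 : Real.pi < 3.1416 := Real.pi_lt_d4
  have h6 : (3 : ℝ) < Real.pi := Real.pi_gt_three
  have h7 : Real.pi ^ 2 ≤ 9.87 := by nlinarith
  have h8 : |(r : ℝ)| ≤ |(r : ℝ)| ^ 2 := by nlinarith
  have h9 : 2 * Real.pi ^ 2 * |(r : ℝ)| ^ 2 ≤ 2 * 9.87 * |(r : ℝ)| ^ 2 :=
    mul_le_mul_of_nonneg_right (by linarith) (sq_nonneg _)
  have h10 : 2 * Real.pi * |(r : ℝ)| ≤ 2 * 3.1416 * |(r : ℝ)| ^ 2 :=
    mul_le_mul (by linarith) h8 (abs_nonneg _) (by norm_num)
  nlinarith [sq_nonneg (|(r : ℝ)|)]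

end Pool.Agent.J4.H26.Fn
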