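import Pool.Agent.J4.H26.Fn.Iter
import Pool.Agent.Helper477.Sph.Bd1

/-!
Global relations between the entries of a class (with Mann's lemma), and the structure of a tuple.
-/

set_option autoImplicit false

namespace Pool.Agent.J4.H26.Fn

open Finset Complex Pool.Agent.H916R2

/-- bounded multiples of `a` and `b` are equal -/
def RelG {m : ℕ} (ρ : ℕ) (a b : ZMod m) : Prop := ∃ s r : ℤ, s ≠ 0 ∧ r ≠ 0 ∧ |s| ≤ ρ ∧ |r| ≤ ρ ∧
  (s : ZMod m) * a = (r : ZMod m) * b

lemma RelG.mono {m ρ ρ' : ℕ} (h : ρ ≤ ρ') {a b : ZMod m} (hab : RelG ρ a b) : RelG ρ' a b := by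
  obtain ⟨s, r, h1, h2, h3, h4, h5⟩ := hab
  exact ⟨s, r, h1, h2, h3.trans (by exact_mod_cast h), h4.trans (by exact_mod_cast h), h5⟩

/-- the bound for the coefficients of the global relations -/
def big (K : ℕ) : ℕ := K.factorial * (HH K (thr K)).factorial

lemma HH_mono (K : ℕ) : Monotone (HH K) := fun _ _ h => Nat.mul_le_mul_left K (BB_mono h)

section

variable {m : ℕ} [NeZero m]

lemma psi_pow_nat (n : ℕ) (x : ZMod m) : psi m x ^ n = psi m ((n : ZMod m) * x) := by
  rw [psi_natMul]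

/-- extraction of a class with global relations -/
theorem extract_glob {m1 p E K R : ℕ} (hp : p.Prime) (hm : p ^ E * m1 = m) (hpm1 : ¬ p ∣ m1)
    (hR : 0 < R) (hK : 0 < K) {I : Type*} [DecidableEq I] {S : Finset I} (hSK : S.card ≤ K)
    {a : I → ZMod m} (ha : ∀ i ∈ S, a i ≠ 0)
    (hrel : ∀ t : (ZMod m)ˣ, ∑ i ∈ S, saw ((t : ZMod m) * a i) = 0)
    (hdiv : ∀ k : ℕ, 0 < k → k ≤ BB R → k ∣ m ∧ ∀ i ∈ S, ∃ y0, a i = (k : ZMod m) * y0)
    {i0 : I} (hi0 : i0 ∈ S)
    (hlead : ∀ i ∈ S, ∃ c : ℤ, ((p ^ E : ℕ) : ℤ) ∣ ((a i).val : ℤ) - c * (a i0).val)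
    (hbig : ¬ Small p E (Phi K R) (a i0).val)
    (hgp : p ≤ Phi K R → p ≤ R)
    (hgs : ∀ i ∈ S, Small p E (Phi K R) (a i).val → Small p E R (a i).val)
    (hgr : ∀ i ∈ S, RelS p E (Phi K R) (a i).val (a i0).val → RelS p E R (a i).val (a i0).val) :
    ∃ C ⊆ S, i0 ∈ C ∧ (∀ i ∈ C, RelG (K.factorial * (HH K R).factorial) (a i) (a i0)) ∧
      ∀ (Q : Type) [AddCommGroup Q] (c : ZMod m → Q), OddDist c → ∑ i ∈ C, c (a i) = 0 := by
  classical
  obtain ⟨C, hCS, hi0C, k, hk, hv⟩ := extract_vanish hp hm hpm1 hR hK hSK ha hrel hi0 hlead hbig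
    hgp hgs hgr
  set H := HH K R with hH
  have hBH : BB R ≤ H := by rw [hH]; unfold HH; exact Nat.le_mul_of_pos_left _ hK
  have hkdvd : ∀ i ∈ C, k i ∣ ((H.factorial : ℕ) : ℤ) := by
    intro i hi
    rw [← Int.natAbs_dvd]
    exact_mod_cast Nat.dvd_factorial (Int.natAbs_pos.mpr (hk i hi).1) ((hk i hi).2.trans hBH)
  let F : I → ZMod m := fun i => (K.factorial : ZMod m) *
    (((((H.factorial : ℕ) : ℤ) / k i : ℤ) : ZMod m) * a i)
  set C' := C.filter fun i => F i = F i0 with hC'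
  have hC'C : C' ⊆ C := filter_subset _ _
  have hi0C' : i0 ∈ C' := mem_filter.mpr ⟨hi0C, rfl⟩
  have hcoef : ∀ i ∈ C, (K.factorial : ℤ) * (((H.factorial : ℕ) : ℤ) / k i) ≠ 0 ∧
      |(K.factorial : ℤ) * (((H.factorial : ℕ) : ℤ) / k i)| ≤ ((K.factorial * H.factorial : ℕ) : ℤ) := by
    intro i hi
    obtain ⟨r, hr⟩ := hkdvd i hi
    have hki := (hk i hi).1
    rw [hr, Int.mul_ediv_cancel_left r hki]
    have hH0 : ((H.factorial : ℕ) : ℤ) ≠ 0 := by exact_mod_cast H.factorial_ne_zero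
    have hr0 : r ≠ 0 := by rintro rfl; rw [mul_zero] at hr; exact hH0 hr
    refine ⟨mul_ne_zero (by exact_mod_cast K.factorial_ne_zero) hr0, ?_⟩
    have e1 : |k i| * |r| = ((H.factorial : ℕ) : ℤ) := by
      rw [← abs_mul, ← hr]; exact abs_of_nonneg (Int.natCast_nonneg _)
    have e2 : |r| ≤ |k i| * |r| := by
      have := Int.one_le_abs hki
      nlinarith [abs_nonneg r]
    calc |((K.factorial : ℕ) : ℤ) * r| = ((K.factorial : ℕ) : ℤ) * |r| := by
          rw [abs_mul, abs_of_nonneg (Int.natCast_nonneg _)]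
      _ ≤ ((K.factorial : ℕ) : ℤ) * ((H.factorial : ℕ) : ℤ) :=
          mul_le_mul_of_nonneg_left (e1 ▸ e2) (Int.natCast_nonneg _)
      _ = _ := by push_cast; ring
  refine ⟨C', hC'C.trans hCS, hi0C', ?_, ?_⟩
  · intro i hi
    obtain ⟨hiC, hiF⟩ := mem_filter.mp hi
    obtain ⟨h1, h2⟩ := hcoef i hiC
    obtain ⟨h3, h4⟩ := hcoef i0 hi0C
    refine ⟨_, _, h1, h3, h2, h4, ?_⟩
    have h5 : F i = F i0 := hiF
    simp only [F] at h5
    rw [Int.cast_mul, Int.cast_mul, mul_assoc, mul_assoc, Int.cast_natCast]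
    exact h5
  · intro Q _ c hc
    apply class_killed hc C' k a (fun i hi => (hk i (hC'C hi)).1)
      (fun i hi => (hdiv _ (Int.natAbs_pos.mpr (hk i (hC'C hi)).1) (hk i (hC'C hi)).2).1)
      (fun i hi => (hdiv _ (Int.natAbs_pos.mpr (hk i (hC'C hi)).1) (hk i (hC'C hi)).2).2 i
        (hCS (hC'C hi))) (H := H)
    · calc ∑ i ∈ C', (k i).natAbs ≤ ∑ _i ∈ C', BB R := sum_le_sum fun i hi => (hk i (hC'C hi)).2
        _ = C'.card * BB R := by rw [sum_const, smul_eq_mul]
        _ ≤ K * BB R :=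
          Nat.mul_le_mul_right _ ((card_le_card (hC'C.trans hCS)).trans hSK)
        _ = H := rfl
    · intro h h1 h2
      -- Mann's lemma
      set s := C.filter (fun i => k i ∣ (h : ℤ)) with hs
      let x : I → ℂ := fun i => psi m ((((h : ℤ) / k i : ℤ) : ZMod m) * a i)
      have hxd : ∀ i ∈ s, x i ^ m = 1 := by
        intro i _
        simp only [x]
        rw [psi_pow_nat, ZMod.natCast_self, zero_mul, psi_zero]
      have hscard : s.card ≤ K := (card_le_card ((filter_subset _ _).trans hCS)).trans hSK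
      have hmann := fun ω => Pool.Agent.Helper477.Sph.mann (NeZero.pos m) s K hscard k x hxd
        (hv h h1 h2) ω
      set s' := C'.filter (fun i => k i ∣ (h : ℤ)) with hs'
      have hs's : s' ⊆ s := filter_subset_filter _ hC'C
      have hgoal : ∑ i ∈ s', (k i : ℂ) * x i = 0 := by
        rw [← sum_fiberwise_of_maps_to (s := s') (t := s'.image fun i => x i ^ K.factorial)
          (g := fun i => x i ^ K.factorial) (fun i hi => mem_image_of_mem _ hi)]
        apply sum_eq_zero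
        intro ω hω
        obtain ⟨j, hj, hjω⟩ := mem_image.mp hω
        rw [← hmann ω]
        apply sum_congr _ fun _ _ => rfl
        ext i
        simp only [mem_filter]
        constructor
        · rintro ⟨hi, hiω⟩
          exact ⟨hs's hi, hiω⟩
        · rintro ⟨hi, hiω⟩
          refine ⟨?_, hiω⟩
          rw [hs', mem_filter, hC', mem_filter]
          obtain ⟨hiC, hih⟩ := mem_filter.mp hi
          obtain ⟨hjC', hjh⟩ := mem_filter.mp hj
          obtain ⟨hjC, hjF⟩ := mem_filter.mp hjC'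
          refine ⟨⟨hiC, ?_⟩, hih⟩
          rw [← hjF]
          -- the powers agree
          have h3 : x i ^ K.factorial = x j ^ K.factorial := hiω.trans hjω.symm
          simp only [x] at h3
          rw [psi_pow_nat, psi_pow_nat] at h3
          have h4 := psi_injective h3
          have hhH : (h : ℤ) ∣ ((H.factorial : ℕ) : ℤ) := by
            exact_mod_cast Nat.dvd_factorial (by omega) h2
          have h5 : ∀ i' ∈ C, k i' ∣ (h : ℤ) → ((H.factorial : ℕ) : ℤ) / k i' =
              (((H.factorial : ℕ) : ℤ) / h) * ((h : ℤ) / k i') := by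
            intro i' hi' hd
            obtain ⟨u, hu⟩ := hhH
            obtain ⟨w, hw⟩ := hd
            have hki := (hk i' hi').1
            have hh0 : (h : ℤ) ≠ 0 := by exact_mod_cast (by omega : h ≠ 0)
            rw [hu, Int.mul_ediv_cancel_left u hh0]
            have e1 : (h : ℤ) * u = k i' * (w * u) := by rw [hw]; ring
            rw [e1, Int.mul_ediv_cancel_left _ hki]
            have e2 : (h : ℤ) / k i' = w := by rw [hw]; exact Int.mul_ediv_cancel_left _ hki
            rw [e2]; ring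
          simp only [F]
          rw [h5 i hiC hih, h5 j hjC hjh]
          push_cast
          linear_combination (((((H.factorial : ℕ) : ℤ) / h : ℤ) : ZMod m)) * h4
      exact hgoal

/-- extraction of a class with global relations, without assumptions on the scales -/
theorem extract_any_glob {m1 p E K : ℕ} (hp : p.Prime) (hm : p ^ E * m1 = m) (hpm1 : ¬ p ∣ m1)
    (hK : 0 < K) {I : Type*} [DecidableEq I] {S : Finset I} (hSK : S.card ≤ K)
    {a : I → ZMod m} (ha : ∀ i ∈ S, a i ≠ 0)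
    (hrel : ∀ t : (ZMod m)ˣ, ∑ i ∈ S, saw ((t : ZMod m) * a i) = 0)
    (hdiv : ∀ k : ℕ, 0 < k → k ≤ BB (thr K) → k ∣ m ∧ ∀ i ∈ S, ∃ y0, a i = (k : ZMod m) * y0)
    {i0 : I} (hi0 : i0 ∈ S)
    (hlead : ∀ i ∈ S, ∃ c : ℤ, ((p ^ E : ℕ) : ℤ) ∣ ((a i).val : ℤ) - c * (a i0).val)
    (hbig : ¬ Small p E (thr K) (a i0).val) :
    ∃ C ⊆ S, i0 ∈ C ∧ (∀ i ∈ C, RelG (big K) (a i) (a i0)) ∧
      ∀ (Q : Type) [AddCommGroup Q] (c : ZMod m → Q), OddDist c → ∑ i ∈ C, c (a i) = 0 := by
  classical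
  let st : ℕ → Unit ⊕ (I ⊕ I) → Prop := fun j x =>
    match x with
    | Sum.inl _ => p ≤ scale K j
    | Sum.inr (Sum.inl i) => Small p E (scale K j) (a i).val
    | Sum.inr (Sum.inr i) => RelS p E (scale K j) (a i).val (a i0).val
  let U : Finset (Unit ⊕ (I ⊕ I)) := insert (Sum.inl ())
    ((S.image fun i => Sum.inr (Sum.inl i)) ∪ (S.image fun i => Sum.inr (Sum.inr i)))
  let F : ℕ → Finset (Unit ⊕ (I ⊕ I)) := fun j => U.filter (st j)
  have hmono := scale_mono hK
  have hF : Monotone F := by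
    intro j j' hjj
    have h1 := hmono hjj
    intro x hx
    simp only [F, mem_filter] at hx ⊢
    refine ⟨hx.1, ?_⟩
    have hx2 := hx.2
    rcases x with x | x | x
    · exact le_trans hx2 h1
    · exact Small.mono h1 hx2
    · exact RelS.mono h1 hx2
  have hUcard : U.card ≤ 2 * K + 1 := by
    refine (card_insert_le _ _).trans ?_
    have h1 := card_union_le (S.image fun i => (Sum.inr (Sum.inl i) : Unit ⊕ (I ⊕ I)))
      (S.image fun i => (Sum.inr (Sum.inr i) : Unit ⊕ (I ⊕ I)))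
    have h2 := card_image_le (s := S) (f := fun i => (Sum.inr (Sum.inl i) : Unit ⊕ (I ⊕ I)))
    have h3 := card_image_le (s := S) (f := fun i => (Sum.inr (Sum.inr i) : Unit ⊕ (I ⊕ I)))
    omega
  obtain ⟨j, hjW, hj⟩ := stable F hF U (fun j => filter_subset _ _) hUcard
  have hstep : ∀ x ∈ U, st (j + 1) x → st j x := by
    intro x hx h
    have h1 : x ∈ F (j + 1) := mem_filter.mpr ⟨hx, h⟩
    rw [← hj] at h1
    exact (mem_filter.mp h1).2
  have hle : scale K (j + 1) ≤ thr K := hmono (by omega)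
  have hlej : scale K j ≤ thr K := hmono (by omega)
  obtain ⟨C, hC1, hC2, hC3, hC4⟩ := extract_glob hp hm hpm1 (scale_pos hK j) hK hSK ha hrel
    (fun k hk0 hk => hdiv k hk0 (hk.trans (BB_mono hlej))) hi0 hlead
    (fun h => hbig (Small.mono hle h)) (fun h => hstep (Sum.inl ()) (mem_insert_self _ _) h)
    (fun i hi h => hstep (Sum.inr (Sum.inl i)) (mem_insert_of_mem (mem_union_left _
      (mem_image_of_mem _ hi))) h)
    (fun i hi h => hstep (Sum.inr (Sum.inr i)) (mem_insert_of_mem (mem_union_right _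
      (mem_image_of_mem _ hi))) h)
  refine ⟨C, hC1, hC2, fun i hi => (hC3 i hi).mono ?_, hC4⟩
  unfold big
  exact Nat.mul_le_mul_left _ (Nat.factorial_le (HH_mono K hlej))

/-- **The structure of a tuple.** -/
theorem structure_thm {K : ℕ} (hK : 0 < K) (h2 : 2 ≤ thr K) {I : Type*} [DecidableEq I]
    {a : I → ZMod m} (n : ℕ) :
    ∀ S : Finset I, S.card = n → S.card ≤ K → (∀ i ∈ S, a i ≠ 0) →
    (∀ t : (ZMod m)ˣ, ∑ i ∈ S, saw ((t : ZMod m) * a i) = 0) →
    (∀ k : ℕ, 0 < k → k ≤ BB (thr K) → k ∣ m ∧ ∀ i ∈ S, ∃ y0, a i = (k : ZMod m) * y0) →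
    ∃ J R : Finset I, ∃ root : I → I, J ⊆ S ∧ R ⊆ S ∧ Disjoint R J ∧
      (∀ p ∈ m.primeFactors, ∀ i ∈ J, Small p (m.factorization p) (thr K) (a i).val) ∧
      (∀ i ∈ S \ J, root i ∈ R ∧ RelG (big K) (a i) (a (root i))) ∧
      (∀ i0 ∈ R, root i0 = i0 ∧ a i0 + a i0 ≠ 0 ∧
        ∀ (Q : Type) [AddCommGroup Q] (c : ZMod m → Q), OddDist c →
          ∑ i ∈ (S \ J).filter (fun i => root i = i0), c (a i) = 0) := by
  classical
  induction n using Nat.strong_induction_on with
  | _ n ih =>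
    intro S hn hSK ha hrel hdiv
    by_cases hall : ∀ p ∈ m.primeFactors, ∀ i ∈ S, Small p (m.factorization p) (thr K) (a i).val
    · exact ⟨S, ∅, id, subset_rfl, empty_subset _, disjoint_empty_left _, hall, by simp, by simp⟩
    push Not at hall
    obtain ⟨p, hpm, i1, hi1, hns⟩ := hall
    have hp : p.Prime := (Nat.mem_primeFactors.mp hpm).1
    have hm0 : m ≠ 0 := NeZero.ne m
    obtain ⟨i0, hi0, hlead⟩ := exists_lead (E := m.factorization p) hp ⟨i1, hi1⟩
      (fun i => (a i).val)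
    have hbig : ¬ Small p (m.factorization p) (thr K) (a i0).val := by
      rintro ⟨n', h1, h3, h4⟩
      apply hns
      obtain ⟨c, hc⟩ := hlead i1 hi1
      refine ⟨n', h1, h3, ?_⟩
      have h5 : (n' : ℤ) * ((a i1).val : ℤ) = n' * (((a i1).val : ℤ) - c * (a i0).val) +
          c * (n' * ((a i0).val : ℤ)) := by ring
      rw [h5]
      exact dvd_add (hc.mul_left _) (h4.mul_left _)
    obtain ⟨C, hCS, hi0C, hCrel, hC⟩ := extract_any_glob (m1 := ordCompl[p] m) hp
      (Nat.ordProj_mul_ordCompl_eq_self m p) (Nat.not_dvd_ordCompl hp hm0) hK hSK ha hrel hdiv hi0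
      hlead hbig
    have hcard : (S \ C).card < n := by
      rw [← hn]
      apply card_lt_card
      refine ⟨sdiff_subset, fun h => ?_⟩
      exact (mem_sdiff.mp (h hi0)).2 hi0C
    have h2a : a i0 + a i0 ≠ 0 := by
      intro h
      apply hbig
      refine ⟨2, two_pos, h2, ?_⟩
      have h3 : ((2 * (a i0).val : ℕ) : ZMod m) = 0 := by
        push_cast; rw [ZMod.natCast_zmod_val, two_mul]; exact h
      rw [ZMod.natCast_eq_zero_iff] at h3
      have h4 : p ^ (m.factorization p) ∣ 2 * (a i0).val := (Nat.ordProj_dvd m p).trans h3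
      exact_mod_cast h4
    obtain ⟨J, R, root, hJ, hR, hRJ, hJ1, hJ2, hJ3⟩ := ih _ hcard (S \ C) rfl
      ((card_le_card sdiff_subset).trans hSK)
      (fun i hi => ha i (mem_sdiff.mp hi).1) (by
        intro t
        have h1 := sum_sdiff (f := fun i => saw ((t : ZMod m) * a i)) hCS
        rw [hrel t, hC ℤ _ (saw_oddDist t), add_zero] at h1
        exact h1)
      (fun k hk0 hk => ⟨(hdiv k hk0 hk).1, fun i hi => (hdiv k hk0 hk).2 i (mem_sdiff.mp hi).1⟩)
    have hJC : ∀ i ∈ J, i ∉ C := fun i hi => (mem_sdiff.mp (hJ hi)).2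
    have hRC : ∀ i ∈ R, i ∉ C := fun i hi => (mem_sdiff.mp (hR hi)).2
    refine ⟨J, insert i0 R, fun i => if i ∈ C then i0 else root i, hJ.trans sdiff_subset, ?_, ?_,
      hJ1, ?_, ?_⟩
    · intro i hi
      rcases mem_insert.mp hi with rfl | hi
      · exact hi0
      · exact (mem_sdiff.mp (hR hi)).1
    · rw [Finset.disjoint_left]
      intro i hi hiJ
      rcases mem_insert.mp hi with rfl | hi
      · exact hJC i hiJ hi0C
      · exact (Finset.disjoint_left.mp hRJ) hi hiJ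
    · intro i hi
      obtain ⟨hiS, hiJ⟩ := mem_sdiff.mp hi
      by_cases hiC : i ∈ C
      · simp only [if_pos hiC]
        exact ⟨mem_insert_self _ _, hCrel i hiC⟩
      · simp only [if_neg hiC]
        have h3 := hJ2 i (mem_sdiff.mpr ⟨mem_sdiff.mpr ⟨hiS, hiC⟩, hiJ⟩)
        exact ⟨mem_insert_of_mem h3.1, h3.2⟩
    · intro i' hi'
      rcases mem_insert.mp hi' with rfl | hi'
      · refine ⟨if_pos hi0C, h2a, ?_⟩
        intro Q _ c hc
        rw [← hC Q c hc]
        apply sum_congr _ fun _ _ => rfl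
        ext i
        simp only [mem_filter, mem_sdiff]
        constructor
        · rintro ⟨⟨hiS, hiJ⟩, hi⟩
          by_contra hiC
          rw [if_neg hiC] at hi
          have h3 := (hJ2 i (mem_sdiff.mpr ⟨mem_sdiff.mpr ⟨hiS, hiC⟩, hiJ⟩)).1
          rw [hi] at h3
          exact hRC _ h3 hi0C
        · intro hiC
          exact ⟨⟨hCS hiC, fun h => hJC i h hiC⟩, if_pos hiC⟩
      · obtain ⟨h3, h4, h5⟩ := hJ3 i' hi'
        refine ⟨(if_neg (hRC i' hi')).trans h3, h4, ?_⟩
        intro Q _ c hc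
        rw [← h5 Q c hc]
        apply sum_congr _ fun _ _ => rfl
        ext i
        simp only [mem_filter, mem_sdiff]
        constructor
        · rintro ⟨⟨hiS, hiJ⟩, hi⟩
          by_cases hiC : i ∈ C
          · rw [if_pos hiC] at hi
            exact absurd (hi ▸ hi0C) (hRC i' hi')
          · rw [if_neg hiC] at hi
            exact ⟨⟨⟨hiS, hiC⟩, hiJ⟩, hi⟩
        · rintro ⟨⟨⟨hiS, hiC⟩, hiJ⟩, hi⟩
          exact ⟨⟨hiS, hiJ⟩, by rw [if_neg hiC]; exact hi⟩

end

end Pool.Agent.J4.H26.Fn
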