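import Pool.Agent.J4.H26.Fn.Extract
import Pool.Agent.H916R2.Relations

/-!
Choice of the scale, iteration over the classes and over the primes.
-/

set_option autoImplicit false

namespace Pool.Agent.J4.H26.Fn

open Finset Complex Pool.Agent.H916R2

lemma Phi_ge {K R : ℕ} (hK : 0 < K) (hR : 0 < R) : R ≤ Phi K R := by
  have hB1 : 1 ≤ BB R := BB_pos hR
  have hH1 : 1 ≤ HH K R := Nat.mul_pos hK hB1
  unfold Phi
  calc R = 1 * R * 1 := by ring
    _ ≤ (1000 * K * HH K R ^ 2) * R * BB R := by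
      apply Nat.mul_le_mul _ hB1
      apply Nat.mul_le_mul_right
      exact Nat.mul_pos (Nat.mul_pos (by norm_num) hK) (pow_pos hH1 2)

lemma scale_pos {K : ℕ} (hK : 0 < K) (j : ℕ) : 0 < scale K j := by
  induction j with
  | zero => exact one_pos
  | succ j ih => exact lt_of_lt_of_le ih (Phi_ge hK ih)

lemma scale_mono {K : ℕ} (hK : 0 < K) : Monotone (scale K) :=
  monotone_nat_of_le_succ fun j => Phi_ge hK (scale_pos hK j)

lemma BB_mono : Monotone BB := fun _ _ h => Nat.mul_le_mul h (Nat.factorial_le h)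

/-- a growing family of subsets of a small set is constant somewhere -/
lemma stable {α : Type*} [DecidableEq α] (F : ℕ → Finset α) (hF : Monotone F) (U : Finset α)
    (hU : ∀ j, F j ⊆ U) {W : ℕ} (hW : U.card ≤ W) : ∃ j ≤ W, F j = F (j + 1) := by
  by_contra hcon
  push Not at hcon
  have h1 : ∀ j, j ≤ W + 1 → j ≤ (F j).card := by
    intro j
    induction j with
    | zero => intro _; exact Nat.zero_le _
    | succ j ih =>
      intro hj
      have h2 := ih (by omega)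
      have h3 : F j ⊂ F (j + 1) :=
        (hF (Nat.le_succ j)).ssubset_of_ne (hcon j (by omega))
      have h4 := card_lt_card h3
      omega
  have h2 := h1 (W + 1) le_rfl
  have h3 := card_le_card (hU (W + 1))
  omega

/-- existence of a leading entry -/
lemma exists_lead {p E : ℕ} (hp : p.Prime) {I : Type*} {S : Finset I} (hS : S.Nonempty)
    (f : I → ℕ) : ∃ i0 ∈ S, ∀ i ∈ S, ∃ c : ℤ, ((p ^ E : ℕ) : ℤ) ∣ (f i : ℤ) - c * f i0 := by
  obtain ⟨i0, hi0, hmin⟩ := S.exists_min_image (fun i => Nat.gcd (f i) (p ^ E)) hS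
  refine ⟨i0, hi0, fun i hi => ?_⟩
  have h1 := hmin i hi
  obtain ⟨u, hu, hu'⟩ := (Nat.dvd_prime_pow hp).mp (Nat.gcd_dvd_right (f i0) (p ^ E))
  obtain ⟨w, hw, hw'⟩ := (Nat.dvd_prime_pow hp).mp (Nat.gcd_dvd_right (f i) (p ^ E))
  rw [hu', hw'] at h1
  have h2 : u ≤ w := (Nat.pow_le_pow_iff_right hp.one_lt).mp h1
  have h3 : Nat.gcd (f i0) (p ^ E) ∣ f i := by
    rw [hu']
    exact (pow_dvd_pow p h2).trans (hw' ▸ Nat.gcd_dvd_left (f i) (p ^ E))
  obtain ⟨z, hz⟩ := h3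
  have h4 := Nat.gcd_eq_gcd_ab (f i0) (p ^ E)
  refine ⟨z * Nat.gcdA (f i0) (p ^ E), ?_⟩
  have h5 : (f i : ℤ) = (Nat.gcd (f i0) (p ^ E) : ℤ) * z := by exact_mod_cast hz
  rw [h5, h4]
  refine ⟨Nat.gcdB (f i0) (p ^ E) * z, by ring⟩

lemma Small.mono {p E ρ ρ' : ℕ} (h : ρ ≤ ρ') {a : ℤ} (ha : Small p E ρ a) : Small p E ρ' a := by
  obtain ⟨n, h1, h2, h3⟩ := ha
  exact ⟨n, h1, h2.trans h, h3⟩

lemma RelS.mono {p E ρ ρ' : ℕ} (h : ρ ≤ ρ') {a b : ℤ} (ha : RelS p E ρ a b) : RelS p E ρ' a b := by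
  obtain ⟨s, r, h1, h2, h3, h4, h5⟩ := ha
  exact ⟨s, r, h1, h2, h3.trans (by exact_mod_cast h), h4.trans (by exact_mod_cast h), h5⟩

lemma saw_oddDist {m : ℕ} [NeZero m] (t : (ZMod m)ˣ) :
    OddDist (fun a : ZMod m => saw ((t : ZMod m) * a)) := by
  constructor
  · intro a; simp only [mul_neg, saw_neg]
  · intro a ha
    apply saw_half
    rw [← mul_add, ha, mul_zero]
  · intro p d' _ hpd a
    exact saw_dist_unit hpd t a

section

variable {m : ℕ} [NeZero m]

theorem extract_any {m1 p E K : ℕ} (hp : p.Prime) (hm : p ^ E * m1 = m) (hpm1 : ¬ p ∣ m1)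
    (hK : 0 < K) {I : Type*} [DecidableEq I] {S : Finset I} (hSK : S.card ≤ K)
    {a : I → ZMod m} (ha : ∀ i ∈ S, a i ≠ 0)
    (hrel : ∀ t : (ZMod m)ˣ, ∑ i ∈ S, saw ((t : ZMod m) * a i) = 0)
    (hdiv : ∀ k : ℕ, 0 < k → k ≤ BB (thr K) → k ∣ m ∧ ∀ i ∈ S, ∃ y0, a i = (k : ZMod m) * y0)
    {i0 : I} (hi0 : i0 ∈ S)
    (hlead : ∀ i ∈ S, ∃ c : ℤ, ((p ^ E : ℕ) : ℤ) ∣ ((a i).val : ℤ) - c * (a i0).val)
    (hbig : ¬ Small p E (thr K) (a i0).val) :
    ∃ C ⊆ S, i0 ∈ C ∧ ∀ (Q : Type) [AddCommGroup Q] (c : ZMod m → Q), OddDist c →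
      ∑ i ∈ C, c (a i) = 0 := by
  classical
  let st : ℕ → Unit ⊕ (I ⊕ I) → Prop := fun j x =>
    match x with
    | Sum.inl _ => p ≤ scale K j
    | Sum.inr (Sum.inl i) => Small p E (scale K j) (a i).val
    | Sum.inr (Sum.inr i) => RelS p E (scale K j) (a i).val (a i0).val
  let U : Finset (Unit ⊕ (I ⊕ I)) := insert (Sum.inl ())
    ((S.image fun i => Sum.inr (Sum.inl i)) ∪ (S.image fun i => Sum.inr (Sum.inr i)))
  let F : ℕ → Finset (Unit ⊕ (I ⊕ I)) := fun j => U.filter (st j)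
  have hmono := scale_mono hK
  have hF : Monotone F := by
    intro j j' hjj
    have h1 := hmono hjj
    intro x hx
    simp only [F, mem_filter] at hx ⊢
    refine ⟨hx.1, ?_⟩
    have hx2 := hx.2
    rcases x with x | x | x
    · exact le_trans hx2 h1
    · exact Small.mono h1 hx2
    · exact RelS.mono h1 hx2
  have hUcard : U.card ≤ 2 * K + 1 := by
    refine (card_insert_le _ _).trans ?_
    have h1 := card_union_le (S.image fun i => (Sum.inr (Sum.inl i) : Unit ⊕ (I ⊕ I)))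
      (S.image fun i => (Sum.inr (Sum.inr i) : Unit ⊕ (I ⊕ I)))
    have h2 := card_image_le (s := S) (f := fun i => (Sum.inr (Sum.inl i) : Unit ⊕ (I ⊕ I)))
    have h3 := card_image_le (s := S) (f := fun i => (Sum.inr (Sum.inr i) : Unit ⊕ (I ⊕ I)))
    omega
  obtain ⟨j, hjW, hj⟩ := stable F hF U (fun j => filter_subset _ _) hUcard
  have hstep : ∀ x ∈ U, st (j + 1) x → st j x := by
    intro x hx h
    have h1 : x ∈ F (j + 1) := mem_filter.mpr ⟨hx, h⟩
    rw [← hj] at h1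
    exact (mem_filter.mp h1).2
  have hle : scale K (j + 1) ≤ thr K := hmono (by omega)
  have hlej : scale K j ≤ thr K := hmono (by omega)
  apply extract hp hm hpm1 (scale_pos hK j) hK hSK ha hrel
    (fun k hk0 hk => hdiv k hk0 (hk.trans (BB_mono hlej))) hi0 hlead
  · intro h
    exact hbig (Small.mono hle h)
  · intro h
    exact hstep (Sum.inl ()) (mem_insert_self _ _) h
  · intro i hi h
    exact hstep (Sum.inr (Sum.inl i)) (mem_insert_of_mem (mem_union_left _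
      (mem_image_of_mem _ hi))) h
  · intro i hi h
    exact hstep (Sum.inr (Sum.inr i)) (mem_insert_of_mem (mem_union_right _
      (mem_image_of_mem _ hi))) h

/-- the entries which are not small for one prime are killed -/
theorem one_prime {m1 p E K : ℕ} (hp : p.Prime) (hm : p ^ E * m1 = m) (hpm1 : ¬ p ∣ m1)
    (hK : 0 < K) {I : Type*} [DecidableEq I] {a : I → ZMod m} (n : ℕ) :
    ∀ S : Finset I, S.card = n → S.card ≤ K → (∀ i ∈ S, a i ≠ 0) →
    (∀ t : (ZMod m)ˣ, ∑ i ∈ S, saw ((t : ZMod m) * a i) = 0) →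
    (∀ k : ℕ, 0 < k → k ≤ BB (thr K) → k ∣ m ∧ ∀ i ∈ S, ∃ y0, a i = (k : ZMod m) * y0) →
    ∃ J ⊆ S, (∀ i ∈ J, Small p E (thr K) (a i).val) ∧
      ∀ (Q : Type) [AddCommGroup Q] (c : ZMod m → Q), OddDist c → ∑ i ∈ S \ J, c (a i) = 0 := by
  induction n using Nat.strong_induction_on with
  | _ n ih =>
    intro S hn hSK ha hrel hdiv
    rcases S.eq_empty_or_nonempty with rfl | hne
    · exact ⟨∅, subset_rfl, by simp, fun Q _ c _ => by simp⟩
    obtain ⟨i0, hi0, hlead⟩ := exists_lead (E := E) hp hne (fun i => (a i).val)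
    by_cases hbig : Small p E (thr K) (a i0).val
    · refine ⟨S, subset_rfl, ?_, fun Q _ c _ => by simp⟩
      intro i hi
      obtain ⟨n', h1, h2, h3⟩ := hbig
      obtain ⟨c, hc⟩ := hlead i hi
      refine ⟨n', h1, h2, ?_⟩
      have h4 : (n' : ℤ) * ((a i).val : ℤ) = n' * (((a i).val : ℤ) - c * (a i0).val) +
          c * (n' * ((a i0).val : ℤ)) := by ring
      rw [h4]
      exact dvd_add (hc.mul_left _) (h3.mul_left _)
    · obtain ⟨C, hCS, hi0C, hC⟩ := extract_any hp hm hpm1 hK hSK ha hrel hdiv hi0 hlead hbig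
      have hcard : (S \ C).card < n := by
        rw [← hn]
        apply card_lt_card
        refine ⟨sdiff_subset, fun h => ?_⟩
        exact (mem_sdiff.mp (h hi0)).2 hi0C
      obtain ⟨J, hJ, hJ1, hJ2⟩ := ih _ hcard (S \ C) rfl ((card_le_card sdiff_subset).trans hSK)
        (fun i hi => ha i (mem_sdiff.mp hi).1) (by
          intro t
          have h1 := sum_sdiff (f := fun i => saw ((t : ZMod m) * a i)) hCS
          rw [hrel t, hC ℤ _ (saw_oddDist t), add_zero] at h1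
          exact h1)
        (fun k hk0 hk => ⟨(hdiv k hk0 hk).1, fun i hi => (hdiv k hk0 hk).2 i (mem_sdiff.mp hi).1⟩)
      refine ⟨J, hJ.trans sdiff_subset, hJ1, ?_⟩
      intro Q _ c hc
      have h1 : S \ J = C ∪ ((S \ C) \ J) := by
        ext i
        simp only [mem_sdiff, mem_union]
        constructor
        · rintro ⟨h1, h2⟩
          by_cases h3 : i ∈ C
          · exact Or.inl h3
          · exact Or.inr ⟨⟨h1, h3⟩, h2⟩
        · rintro (h1 | ⟨⟨h1, _⟩, h3⟩)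
          · exact ⟨hCS h1, fun h => (mem_sdiff.mp (hJ h)).2 h1⟩
          · exact ⟨h1, h3⟩
      rw [h1, sum_union, hC Q c hc, hJ2 Q c hc, add_zero]
      rw [Finset.disjoint_left]
      intro i h2 h3
      exact (mem_sdiff.mp (mem_sdiff.mp h3).1).2 h2

/-- all primes -/
theorem all_primes {K : ℕ} (hK : 0 < K) {I : Type*} [DecidableEq I] {a : I → ZMod m}
    (Ps : Finset ℕ) : (∀ p ∈ Ps, p.Prime) →
    ∀ S : Finset I, S.card ≤ K → (∀ i ∈ S, a i ≠ 0) →
    (∀ t : (ZMod m)ˣ, ∑ i ∈ S, saw ((t : ZMod m) * a i) = 0) →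
    (∀ k : ℕ, 0 < k → k ≤ BB (thr K) → k ∣ m ∧ ∀ i ∈ S, ∃ y0, a i = (k : ZMod m) * y0) →
    ∃ J ⊆ S, (∀ p ∈ Ps, ∀ i ∈ J, Small p (m.factorization p) (thr K) (a i).val) ∧
      ∀ (Q : Type) [AddCommGroup Q] (c : ZMod m → Q), OddDist c → ∑ i ∈ S \ J, c (a i) = 0 := by
  induction Ps using Finset.induction_on with
  | empty =>
    intro _ S _ _ _ _
    exact ⟨S, subset_rfl, by simp, fun Q _ c _ => by simp⟩
  | insert p Ps hpPs ih =>
    intro hPs S hSK ha hrel hdiv
    obtain ⟨J, hJ, hJ1, hJ2⟩ := ih (fun q hq => hPs q (mem_insert_of_mem hq)) S hSK ha hrel hdiv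
    have hp := hPs p (mem_insert_self _ _)
    have hm0 : m ≠ 0 := NeZero.ne m
    have hrelJ : ∀ t : (ZMod m)ˣ, ∑ i ∈ J, saw ((t : ZMod m) * a i) = 0 := by
      intro t
      have h1 := sum_sdiff (f := fun i => saw ((t : ZMod m) * a i)) hJ
      rw [hrel t, hJ2 ℤ _ (saw_oddDist t), zero_add] at h1
      exact h1
    obtain ⟨J', hJ', hJ1', hJ2'⟩ := one_prime (m1 := ordCompl[p] m) (p := p) (E := m.factorization p)
      hp (Nat.ordProj_mul_ordCompl_eq_self m p) (Nat.not_dvd_ordCompl hp hm0) hK J.card J rfl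
      ((card_le_card hJ).trans hSK) (fun i hi => ha i (hJ hi)) hrelJ
      (fun k hk0 hk => ⟨(hdiv k hk0 hk).1, fun i hi => (hdiv k hk0 hk).2 i (hJ hi)⟩)
    refine ⟨J', hJ'.trans hJ, ?_, ?_⟩
    · intro q hq i hi
      rcases mem_insert.mp hq with rfl | hq
      · exact hJ1' i hi
      · exact hJ1 q hq i (hJ' hi)
    · intro Q _ c hc
      have h1 : S \ J' = (S \ J) ∪ (J \ J') := by
        ext i
        simp only [mem_sdiff, mem_union]
        constructor
        · rintro ⟨h1, h2⟩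
          by_cases h3 : i ∈ J
          · exact Or.inr ⟨h3, h2⟩
          · exact Or.inl ⟨h1, h3⟩
        · rintro (⟨h1, h2⟩ | ⟨h1, h2⟩)
          · exact ⟨h1, fun h => h2 (hJ' h)⟩
          · exact ⟨hJ h1, h2⟩
      rw [h1, sum_union, hJ2 Q c hc, hJ2' Q c hc, add_zero]
      rw [Finset.disjoint_left]
      intro i h2 h3
      exact (mem_sdiff.mp h2).2 (mem_sdiff.mp h3).1

end

end Pool.Agent.J4.H26.Fn
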