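import Pool.Agent.J4.H26.Fn.Glob
import Pool.Agent.J4.H26.Fn.Fin
import Pool.Agent.J4.H26.Main

/-!
Almost all Hodge characters with a given number of entries are generated by surface characters.
-/

set_option autoImplicit false

namespace Pool.Agent.J4.H26.Fn

open Finset Complex Pool.Agent.H916R2 Pool.Agent.J4.H26

/-! ### Counting -/

lemma card_smul_eq {m : ℕ} [NeZero m] {s : ℤ} (hs : s ≠ 0) (w : ZMod m) :
    (univ.filter fun x : ZMod m => (s : ZMod m) * x = w).card ≤ s.natAbs := by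
  classical
  have h0 : (univ.filter fun x : ZMod m => s.natAbs • x = 0).card ≤ s.natAbs :=
    IsAddCyclic.card_nsmul_eq_zero_le (Int.natAbs_pos.mpr hs)
  rcases (univ.filter fun x : ZMod m => (s : ZMod m) * x = w).eq_empty_or_nonempty with h | ⟨x0, hx0⟩
  · rw [h]; simp
  · refine le_trans ?_ h0
    have hx0' := (mem_filter.mp hx0).2
    apply card_le_card_of_injOn (fun x => x - x0)
    · intro x hx
      have hx' := (mem_filter.mp (mem_coe.mp hx)).2
      rw [mem_coe, mem_filter]
      refine ⟨mem_univ _, ?_⟩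
      have h1 : (s : ZMod m) * (x - x0) = 0 := by rw [mul_sub, hx', hx0', sub_self]
      change s.natAbs • (x - x0) = 0
      rw [nsmul_eq_mul, ← Int.cast_natCast]
      rcases Int.natAbs_eq s with h2 | h2
      · rw [← h2]; exact h1
      · have h3 : ((s.natAbs : ℕ) : ℤ) = -s := by omega
        rw [h3, Int.cast_neg, neg_mul, h1, neg_zero]
    · intro x _ y _ h
      exact sub_left_injective h

/-- the tuples with given relations -/
def Obeys {m n : ℕ} (ρ d : ℕ) (b : Fin n → ZMod m) : Prop :=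
  ∃ (R : Finset (Fin n)) (root : Fin n → Fin n) (s r : Fin n → ℤ), R.card ≤ d ∧
    ∀ i, s i ≠ 0 ∧ |s i| ≤ ρ ∧ |r i| ≤ ρ ∧ (root i ∈ R ∨ r i = 0) ∧
      (s i : ZMod m) * b i = (r i : ZMod m) * b (root i)

open scoped Classical in
lemma count_fixed {m n : ℕ} [NeZero m] (ρ : ℕ) (R : Finset (Fin n)) (root : Fin n → Fin n)
    (s r : Fin n → ℤ) (hs : ∀ i, s i ≠ 0 ∧ |s i| ≤ ρ) (hroot : ∀ i, root i ∈ R ∨ r i = 0) :
    (univ.filter fun b : Fin n → ZMod m =>
      ∀ i, (s i : ZMod m) * b i = (r i : ZMod m) * b (root i)).card ≤ ρ ^ n * m ^ R.card := by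
  have h1 := card_le_mul_card_image_of_maps_to
    (s := univ.filter fun b : Fin n → ZMod m =>
      ∀ i, (s i : ZMod m) * b i = (r i : ZMod m) * b (root i))
    (t := (univ : Finset (R → ZMod m))) (f := fun b (i : R) => b i.1) (fun _ _ => mem_univ _)
    (ρ ^ n) ?_
  · refine h1.trans (le_of_eq ?_)
    rw [card_univ, Fintype.card_fun, Fintype.card_coe, ZMod.card]
  · intro v _
    let w : Fin n → ZMod m := fun i => if h : root i ∈ R then (r i : ZMod m) * v ⟨root i, h⟩ else 0
    have h2 : ((univ.filter fun b : Fin n → ZMod m =>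
        ∀ i, (s i : ZMod m) * b i = (r i : ZMod m) * b (root i)).filter
          fun b => (fun (i : R) => b i.1) = v) ⊆
        Fintype.piFinset fun i => univ.filter fun x : ZMod m => (s i : ZMod m) * x = w i := by
      intro b hb
      obtain ⟨hb1, hb2⟩ := mem_filter.mp hb
      have hb3 := (mem_filter.mp hb1).2
      rw [Fintype.mem_piFinset]
      intro i
      rw [mem_filter]
      refine ⟨mem_univ _, ?_⟩
      rw [hb3 i]
      simp only [w]
      by_cases h : root i ∈ R
      · rw [dif_pos h, ← hb2]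
      · rw [dif_neg h]
        rcases hroot i with h' | h'
        · exact absurd h' h
        · rw [h', Int.cast_zero, zero_mul]
    refine (card_le_card h2).trans ?_
    rw [Fintype.card_piFinset]
    calc ∏ i, (univ.filter fun x : ZMod m => (s i : ZMod m) * x = w i).card ≤ ∏ _i : Fin n, ρ := by
          apply prod_le_prod' fun i _ => ?_
          refine (card_smul_eq (hs i).1 (w i)).trans ?_
          have h3 := (hs i).2
          rw [← Int.natCast_natAbs] at h3
          exact_mod_cast h3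
      _ = ρ ^ n := by rw [prod_const, card_univ, Fintype.card_fin]

open scoped Classical in
theorem count_obeys (n ρ : ℕ) : ∃ C : ℕ, ∀ (m d : ℕ) [NeZero m],
    (univ.filter fun b : Fin n → ZMod m => Obeys ρ d b).card ≤ C * m ^ d := by
  let D : Finset (Finset (Fin n) × (Fin n → Fin n) × (Fin n → ℤ) × (Fin n → ℤ)) :=
    univ ×ˢ univ ×ˢ (Fintype.piFinset fun _ => Icc (-(ρ : ℤ)) ρ) ×ˢ
      (Fintype.piFinset fun _ => Icc (-(ρ : ℤ)) ρ)
  refine ⟨D.card * ρ ^ n, ?_⟩
  intro m d _
  let D' := D.filter fun x => x.1.card ≤ d ∧ (∀ i, x.2.2.1 i ≠ 0) ∧ ∀ i, x.2.1 i ∈ x.1 ∨ x.2.2.2 i = 0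
  have h1 : (univ.filter fun b : Fin n → ZMod m => Obeys ρ d b) ⊆
      D'.biUnion fun x => univ.filter fun b : Fin n → ZMod m =>
        ∀ i, (x.2.2.1 i : ZMod m) * b i = (x.2.2.2 i : ZMod m) * b (x.2.1 i) := by
    intro b hb
    obtain ⟨R, root, s, r, hR, h⟩ := (mem_filter.mp hb).2
    rw [mem_biUnion]
    refine ⟨(R, root, s, r), ?_, ?_⟩
    · simp only [D', D, mem_filter, mem_product, mem_univ, true_and, Fintype.mem_piFinset, mem_Icc]
      exact ⟨⟨fun i => abs_le.mp (h i).2.1, fun i => abs_le.mp (h i).2.2.1⟩, hR,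
        fun i => (h i).1, fun i => (h i).2.2.2.1⟩
    · rw [mem_filter]
      exact ⟨mem_univ _, fun i => (h i).2.2.2.2⟩
  refine (card_le_card h1).trans (card_biUnion_le.trans ?_)
  calc ∑ x ∈ D', (univ.filter fun b : Fin n → ZMod m =>
        ∀ i, (x.2.2.1 i : ZMod m) * b i = (x.2.2.2 i : ZMod m) * b (x.2.1 i)).card
      ≤ ∑ _x ∈ D', ρ ^ n * m ^ d := by
        apply sum_le_sum
        intro x hx
        simp only [D', D, mem_filter, mem_product, mem_univ, true_and, Fintype.mem_piFinset,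
          mem_Icc] at hx
        refine (count_fixed ρ x.1 x.2.1 x.2.2.1 x.2.2.2
          (fun i => ⟨hx.2.2.1 i, abs_le.mpr (hx.1.1 i)⟩) hx.2.2.2).trans ?_
        exact Nat.mul_le_mul_left _ (Nat.pow_le_pow_right (NeZero.pos m) hx.2.1)
    _ = D'.card * (ρ ^ n * m ^ d) := by rw [sum_const, smul_eq_mul]
    _ ≤ D.card * (ρ ^ n * m ^ d) := Nat.mul_le_mul_right _ (card_le_card (filter_subset _ _))
    _ = _ := by ring

/-! ### The structure of a Hodge character -/

lemma saw_eq_zero {m : ℕ} [NeZero m] {a : ZMod m} (h : saw a = 0) : a + a = 0 := by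
  by_cases h0 : a = 0
  · rw [h0, add_zero]
  · rw [saw_of_ne_zero h0] at h
    have h1 : ((2 * (a.val : ℤ) - m : ℤ) : ZMod m) = 0 := by rw [h]; simp
    push_cast at h1
    rw [ZMod.natCast_zmod_val, ZMod.natCast_self, sub_zero, two_mul] at h1
    exact h1

lemma sum_fibers {I Q : Type*} [DecidableEq I] [AddCommMonoid Q] {S J R : Finset I} {root : I → I}
    (hroot : ∀ i ∈ S \ J, root i ∈ R) (g : I → Q) :
    ∑ i ∈ S \ J, g i = ∑ i0 ∈ R, ∑ i ∈ (S \ J).filter (fun i => root i = i0), g i :=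
  (sum_fiberwise_of_maps_to hroot g).symm

/-- the data of the structure theorem -/
structure Str {M : ℕ} [NeZero M] {n : ℕ} (K : ℕ) (a : Fin n → ZMod M) (J R : Finset (Fin n))
    (root : Fin n → Fin n) : Prop where
  disj : Disjoint R J
  small : ∀ i ∈ J, M ∣ level K * (a i).val
  rel : ∀ i, i ∉ J → root i ∈ R ∧ RelG (big K) (a i) (a (root i))
  fix : ∀ i0 ∈ R, root i0 = i0
  ne : ∀ i0 ∈ R, a i0 + a i0 ≠ 0
  fib : ∀ i0 ∈ R, ∀ (Q : Type) [AddCommGroup Q] (c : ZMod M → Q), OddDist c →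
    ∑ i ∈ (univ \ J).filter (fun i => root i = i0), c (a i) = 0

lemma Str.sum {M : ℕ} [NeZero M] {n K : ℕ} {a : Fin n → ZMod M} {J R : Finset (Fin n)}
    {root : Fin n → Fin n} (h : Str K a J R root) {Q : Type} [AddCommGroup Q] {c : ZMod M → Q}
    (hc : OddDist c) : ∑ i ∈ univ \ J, c (a i) = 0 := by
  rw [sum_fibers (fun i hi => (h.rel i (mem_sdiff.mp hi).2).1)]
  exact sum_eq_zero fun i0 hi0 => h.fib i0 hi0 Q c hc

lemma Str.two_le {M : ℕ} [NeZero M] {n K : ℕ} {a : Fin n → ZMod M} {J R : Finset (Fin n)}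
    {root : Fin n → Fin n} (h : Str K a J R root) {i0 : Fin n} (hi0 : i0 ∈ R) :
    2 ≤ ((univ \ J).filter (fun i => root i = i0)).card := by
  have hmem : i0 ∈ (univ \ J).filter (fun i => root i = i0) := by
    rw [mem_filter, mem_sdiff]
    exact ⟨⟨mem_univ _, fun hJ => Finset.disjoint_left.mp h.disj hi0 hJ⟩, h.fix i0 hi0⟩
  by_contra hcon
  have h1 : ((univ \ J).filter (fun i => root i = i0)).card = 1 := by
    have := card_pos.mpr ⟨i0, hmem⟩
    omega
  obtain ⟨x, hx⟩ := card_eq_one.mp h1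
  have hx0 : x = i0 := by rw [hx] at hmem; exact (mem_singleton.mp hmem).symm
  have h2 := h.fib i0 hi0 ℤ _ (saw_oddDist (1 : (ZMod M)ˣ))
  rw [hx, sum_singleton, hx0, Units.val_one, one_mul] at h2
  exact h.ne i0 hi0 (saw_eq_zero h2)

lemma Str.card_le {M : ℕ} [NeZero M] {n K : ℕ} {a : Fin n → ZMod M} {J R : Finset (Fin n)}
    {root : Fin n → Fin n} (h : Str K a J R root) : 2 * R.card + J.card ≤ n := by
  have h1 : ∑ i0 ∈ R, ((univ \ J).filter (fun i => root i = i0)).card = (univ \ J).card :=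
    (card_eq_sum_card_fiberwise (f := root) (s := univ \ J) (t := R)
      (fun i hi => (h.rel i (mem_sdiff.mp (mem_coe.mp hi)).2).1)).symm
  have h2 : ∑ _i0 ∈ R, 2 ≤ ∑ i0 ∈ R, ((univ \ J).filter (fun i => root i = i0)).card :=
    sum_le_sum fun i0 hi0 => h.two_le hi0
  rw [sum_const, smul_eq_mul, h1] at h2
  have h3 : (univ \ J).card + J.card = n := by
    rw [card_sdiff_add_card_eq_card (subset_univ J), card_univ, Fintype.card_fin]
  omega

/-- a Hodge character with few entries is killed -/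
lemma cQ_few {M : ℕ} [NeZero M] {u : Multiset (ZMod M)} (hu : IsHodge M u)
    (hcard : Multiset.card u ≤ 4) : (u.map (cQ M (SurfaceCharacter M))).sum = 0 := by
  obtain ⟨k, hk⟩ := hu.2.1
  have hk3 : k = 0 ∨ k = 1 ∨ k = 2 := by omega
  rcases hk3 with rfl | rfl | rfl
  · have : u = 0 := Multiset.card_eq_zero.mp hk
    rw [this]; simp
  · obtain ⟨x, y, rfl⟩ := Multiset.card_eq_two.mp hk
    have h1 := hu.2.2.1
    simp only [Multiset.insert_eq_cons, Multiset.sum_cons, Multiset.sum_singleton] at h1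
    have h2 : y = -x := by
      have := eq_neg_of_add_eq_zero_right h1
      exact this
    simp only [Multiset.insert_eq_cons, Multiset.map_cons, Multiset.map_singleton,
      Multiset.sum_cons, Multiset.sum_singleton]
    rw [h2, (cQ_oddDist (m := M) (base := SurfaceCharacter M)).neg, add_neg_cancel]
  · exact cQ_sum_eq_zero (Generated.ofBase _ ⟨hu, hk⟩)

/-- the structure of a Hodge character -/
theorem exists_str {K n : ℕ} (hK : 0 < K) (hn : n ≤ K) {m : ℕ} [NeZero m] [NeZero (factor K * m)]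
    (b : Fin n → ZMod m) (hb : IsHodge m (entries b)) :
    ∃ J R root, Str (M := factor K * m) K
      (fun i => (iota (factor K) (b i) : ZMod (factor K * m))) J R root := by
  classical
  set κ := factor K with hκ
  have hκ0 : 0 < κ := factor_pos K
  set a : Fin n → ZMod (κ * m) := fun i => iota κ (b i) with ha
  have hb0 : ∀ i, b i ≠ 0 := by
    intro i h
    apply hb.1
    rw [← h]
    exact Multiset.mem_map_of_mem b (mem_univ i)
  have ha0 : ∀ i, a i ≠ 0 := fun i h => hb0 i (iota_eq_zero rfl h)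
  have hrel : ∀ t : (ZMod (κ * m))ˣ, ∑ i, saw ((t : ZMod (κ * m)) * a i) = 0 := by
    intro t
    have h1 := (hb.iota (m := κ * m) (k := κ) rfl).saw_sum t
    unfold entries at h1
    rw [Multiset.map_map, Multiset.map_map] at h1
    exact h1
  have hdiv : ∀ k : ℕ, 0 < k → k ≤ BB (thr K) →
      k ∣ κ * m ∧ ∀ i ∈ (univ : Finset (Fin n)), ∃ y0, a i = (k : ZMod (κ * m)) * y0 := by
    intro k hk0 hk
    have h1 : k ∣ κ := Nat.dvd_factorial hk0 hk
    refine ⟨h1.mul_right m, fun i _ => ?_⟩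
    obtain ⟨d, hd⟩ := h1
    refine ⟨((d * (b i).val : ℕ) : ZMod (κ * m)), ?_⟩
    change ((κ * (b i).val : ℕ) : ZMod (κ * m)) = _
    have h2 : κ * (b i).val = k * (d * (b i).val) := by rw [hd]; ring
    rw [h2]
    push_cast
    ring
  have hcard : (univ : Finset (Fin n)).card ≤ K := by rw [card_univ, Fintype.card_fin]; exact hn
  obtain ⟨J, R, root, -, -, h3, h4, h5, h6⟩ := structure_thm hK (two_le_thr hK) _ univ rfl hcard
    (fun i _ => ha0 i) hrel hdiv
  exact ⟨J, R, root, h3, fun i hi => dvd_of_small (NeZero.ne _) fun p hp => h4 p hp i hi,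
    fun i hi => h5 i (mem_sdiff.mpr ⟨mem_univ _, hi⟩), fun i0 hi0 => (h6 i0 hi0).1,
    fun i0 hi0 => (h6 i0 hi0).2.1, fun i0 hi0 => (h6 i0 hi0).2.2⟩

/-- the entries of bounded order, in the degree `m` -/
lemma Str.small_down {K n m : ℕ} [NeZero m] [NeZero (factor K * m)] {b : Fin n → ZMod m}
    {J R : Finset (Fin n)} {root : Fin n → Fin n}
    (h : Str (M := factor K * m) K (fun i => (iota (factor K) (b i) : ZMod (factor K * m))) J R root)
    {i : Fin n} (hi : i ∈ J) : m ∣ Nat.gcd (level K) m * (b i).val := by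
  have h2 := h.small i hi
  rw [← ZMod.natCast_eq_zero_iff] at h2
  push_cast at h2
  rw [ZMod.natCast_zmod_val] at h2
  have h3 := iota_natMul (m := factor K * m) (k := factor K) rfl (level K) (b i)
  rw [h2] at h3
  have h4 := iota_eq_zero rfl h3
  have h5 : m ∣ level K * (b i).val := by
    rw [← ZMod.natCast_eq_zero_iff]
    push_cast
    rw [ZMod.natCast_zmod_val]
    exact h4
  rw [Nat.gcd_comm, ← Nat.gcd_mul_right]
  exact Nat.dvd_gcd (dvd_mul_right _ _) h5

end Pool.Agent.J4.H26.Fn
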