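import Pool.Agent.J4.H26.Fn.Four

/-!
Small sums of roots of unity vanish.
-/

set_option autoImplicit false

namespace Pool.Agent.J4.H26.Fn

open Finset Complex

lemma psi_natMul {m : ℕ} [NeZero m] (c : ℕ) (x : ZMod m) : psi m ((c : ZMod m) * x) = psi m x ^ c := by
  induction c with
  | zero => simp [psi_zero]
  | succ c ih =>
    have : ((c + 1 : ℕ) : ZMod m) * x = (c : ZMod m) * x + x := by push_cast; ring
    rw [this, psi_add, ih, pow_succ]

lemma psi_pow {m : ℕ} [NeZero m] (x : ZMod m) : psi m 1 ^ x.val = psi m x := by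
  rw [← psi_natMul, mul_one, ZMod.natCast_zmod_val]

lemma psi_primitive {m : ℕ} [NeZero m] : IsPrimitiveRoot (psi m 1) m := by
  have h := Complex.isPrimitiveRoot_exp m (NeZero.ne m)
  have h1 : psi m 1 = Complex.exp (2 * Real.pi * Complex.I / m) := by
    have h2 := psi_intCast (q := m) 1
    rw [Int.cast_one] at h2
    rw [h2]
    unfold ex
    congr 1
    push_cast; ring
  rw [h1]; exact h

lemma norm_zero_aux {m : ℕ} [NeZero m] (K : Type) [Field K] [NumberField K] {ζ : K}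
    (hζ : IsPrimitiveRoot ζ m) {I : Type*} (s : Finset I) (k : I → ℤ) (e : I → ZMod m)
    (h : ∀ t : (ZMod m)ˣ, ‖∑ i ∈ s, (k i : ℂ) * psi m ((t : ZMod m) * e i)‖ < 1) :
    ∑ i ∈ s, (k i : ℂ) * psi m (e i) = 0 := by
  classical
  have hint : ∀ n : ℕ, IsIntegral ℤ (ζ ^ n) := fun n =>
    (hζ.isIntegral (NeZero.pos m)).pow n
  set α : K := ∑ i ∈ s, (k i : K) * ζ ^ (e i).val with hαdef
  have hα : IsIntegral ℤ α := by
    apply IsIntegral.sum
    intro i _
    exact (isIntegral_algebraMap (R := ℤ) (x := k i)).mul (hint _)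
  have hσ : ∀ σ : K →+* ℂ, ∃ t : (ZMod m)ˣ, σ α = ∑ i ∈ s, (k i : ℂ) * psi m ((t : ZMod m) * e i) := by
    intro σ
    have h1 : IsPrimitiveRoot (σ ζ) m := hζ.map_of_injective σ.injective
    obtain ⟨c, hc, hc2⟩ := psi_primitive.eq_pow_of_pow_eq_one h1.pow_eq_one
    have hcop : c.Coprime m := by
      rw [← hc2] at h1
      exact (psi_primitive.pow_iff_coprime (NeZero.pos m) c).mp h1
    refine ⟨ZMod.unitOfCoprime c hcop, ?_⟩
    rw [hαdef, map_sum]
    refine sum_congr rfl fun i _ => ?_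
    rw [map_mul, map_intCast, map_pow, ← hc2, ZMod.coe_unitOfCoprime, psi_natMul, ← psi_pow (e i),
      ← pow_mul, ← pow_mul, mul_comm c]
  have hα0 : α = 0 := by
    by_contra hne
    obtain ⟨σ, hσ1⟩ := NumberField.exists_conjugate_one_le_norm (K := K) (α := ⟨α, hα⟩)
      (by intro h0; exact hne (congrArg Subtype.val h0))
    obtain ⟨t, ht⟩ := hσ σ
    have h2 : ‖σ α‖ < 1 := by rw [ht]; exact h t
    exact absurd hσ1 (not_le.mpr h2)
  -- the polynomial
  let f : Polynomial ℚ := ∑ i ∈ s, Polynomial.C (k i : ℚ) * Polynomial.X ^ (e i).val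
  have hf1 : Polynomial.aeval ζ f = 0 := by
    simp only [f, map_sum, map_mul, Polynomial.aeval_C, map_pow, Polynomial.aeval_X]
    rw [← hα0, hαdef]
    refine sum_congr rfl fun i _ => ?_
    simp
  have hdvd : Polynomial.cyclotomic m ℚ ∣ f := by
    rw [Polynomial.cyclotomic_eq_minpoly_rat hζ (NeZero.pos m)]
    exact minpoly.dvd ℚ ζ hf1
  have hroot : Polynomial.aeval (psi m 1) (Polynomial.cyclotomic m ℚ) = 0 := by
    rw [Polynomial.aeval_def, Polynomial.eval₂_eq_eval_map, Polynomial.map_cyclotomic]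
    exact psi_primitive.isRoot_cyclotomic (NeZero.pos m)
  obtain ⟨g, hg⟩ := hdvd
  have hf2 : Polynomial.aeval (psi m 1) f = 0 := by
    rw [hg, map_mul, hroot, zero_mul]
  simp only [f, map_sum, map_mul, Polynomial.aeval_C, map_pow, Polynomial.aeval_X] at hf2
  rw [← hf2]
  refine sum_congr rfl fun i _ => ?_
  rw [psi_pow]
  simp

lemma exists_prim (m : ℕ) [NeZero m] : ∃ ζ : CyclotomicField m ℚ, IsPrimitiveRoot ζ m := by
  let : Algebra ℚ (CyclotomicField m ℚ) := CyclotomicField.algebra m ℚ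
  have : IsCyclotomicExtension {m} ℚ (CyclotomicField m ℚ) :=
    CyclotomicField.isCyclotomicExtension m ℚ
  exact ⟨_, IsCyclotomicExtension.zeta_spec m ℚ (CyclotomicField m ℚ)⟩

theorem norm_zero {m : ℕ} [NeZero m] {I : Type*} (s : Finset I) (k : I → ℤ) (e : I → ZMod m)
    (h : ∀ t : (ZMod m)ˣ, ‖∑ i ∈ s, (k i : ℂ) * psi m ((t : ZMod m) * e i)‖ < 1) :
    ∑ i ∈ s, (k i : ℂ) * psi m (e i) = 0 := by
  obtain ⟨ζ, hζ⟩ := exists_prim m
  exact norm_zero_aux (CyclotomicField m ℚ) hζ s k e h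

end Pool.Agent.J4.H26.Fn
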